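import Mathlib
import Pool.Agent.Helper429.Main

set_option autoImplicit false

/-!
Unitriangular `8 × 8` matrices over an arbitrary commutative ring and leading forms of words.
Adapted from `Pool.Agent.Helper429.UT`, with a general coefficient ring and one more row.
-/

namespace Pool.Agent.H53R3

open scoped commutatorElement

open Pool.Agent.Helper429 (pneg pmul)

abbrev F : Type := FreeGroup ℕ

section ring_

variable {R : Type} [CommRing R]

abbrev Mat (R : Type) : Type := Matrix (Fin 8) (Fin 8) R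

/-- entries with natural number indices -/
def ent (M : Mat R) (i j : ℕ) : R :=
  if h : i < 8 ∧ j < 8 then M ⟨i, h.1⟩ ⟨j, h.2⟩ else 0
lemma ent_of_lt (M : Mat R) {i j : ℕ} (hi : i < 8) (hj : j < 8) : ent M i j = M ⟨i, hi⟩ ⟨j, hj⟩ := by
  simp [ent, hi, hj]

lemma ent_of_ge_left (M : Mat R) {i j : ℕ} (hi : 8 ≤ i) : ent M i j = 0 := by
  have : ¬ (i < 8 ∧ j < 8) := by omega
  simp [ent, this]

lemma ent_of_ge_right (M : Mat R) {i j : ℕ} (hj : 8 ≤ j) : ent M i j = 0 := by
  have : ¬ (i < 8 ∧ j < 8) := by omega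
  simp [ent, this]

lemma ent_add (A B : Mat R) (i j : ℕ) : ent (A + B) i j = ent A i j + ent B i j := by
  unfold ent; split_ifs <;> simp

lemma ent_sub (A B : Mat R) (i j : ℕ) : ent (A - B) i j = ent A i j - ent B i j := by
  unfold ent; split_ifs <;> simp

lemma ent_neg (A : Mat R) (i j : ℕ) : ent (-A) i j = - ent A i j := by
  unfold ent; split_ifs <;> simp

lemma ent_zero (i j : ℕ) : ent (0 : Mat R) i j = 0 := by
  unfold ent; split_ifs <;> simp

lemma ent_mul (A B : Mat R) (i j : ℕ) :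
    ent (A * B) i j = ∑ m ∈ Finset.range 8, ent A i m * ent B m j := by
  by_cases hi : i < 8
  · by_cases hj : j < 8
    · rw [ent_of_lt _ hi hj, Matrix.mul_apply, Finset.sum_range]
      apply Finset.sum_congr rfl
      intro m _
      rw [ent_of_lt _ hi m.2, ent_of_lt _ m.2 hj]
    · rw [ent_of_ge_right _ (by omega)]
      symm
      apply Finset.sum_eq_zero
      intro m _
      rw [ent_of_ge_right B (by omega), mul_zero]
  · rw [ent_of_ge_left _ (by omega)]
    symm
    apply Finset.sum_eq_zero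
    intro m _
    rw [ent_of_ge_left A (by omega), zero_mul]

/-- matrices supported on the `k`-th superdiagonal and above -/
def NN (k : ℕ) : AddSubgroup (Mat R) where
  carrier := {M | ∀ i j, j < i + k → ent M i j = 0}
  add_mem' := by
    intro a b ha hb i j h
    rw [ent_add, ha i j h, hb i j h, add_zero]
  zero_mem' := by
    intro i j _
    exact ent_zero i j
  neg_mem' := by
    intro a ha i j h
    rw [ent_neg, ha i j h, neg_zero]

lemma mem_NN {k : ℕ} {M : Mat R} : M ∈ NN k ↔ ∀ i j, j < i + k → ent M i j = 0 := Iff.rfl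

lemma NN_anti {k l : ℕ} (h : k ≤ l) {M : Mat R} (hM : M ∈ NN l) : M ∈ NN k :=
  fun i j hij => hM i j (by omega)

lemma NN_mul {k l : ℕ} {A B : Mat R} (hA : A ∈ NN k) (hB : B ∈ NN l) : A * B ∈ NN (k + l) := by
  intro i j hij
  rw [ent_mul]
  apply Finset.sum_eq_zero
  intro m _
  by_cases hm : m < i + k
  · rw [hA i m hm, zero_mul]
  · rw [hB m j (by omega), mul_zero]

lemma ent_mul_lead {k l : ℕ} {A B : Mat R} (hA : A ∈ NN k) (hB : B ∈ NN l) (i : ℕ) :
    ent (A * B) i (i + (k + l)) = ent A i (i + k) * ent B (i + k) (i + k + l) := by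
  rw [ent_mul]
  have h1 : ∀ m ∈ Finset.range 8, m ≠ i + k → ent A i m * ent B m (i + (k + l)) = 0 := by
    intro m _ hm
    rcases lt_or_gt_of_ne hm with h | h
    · rw [hA i m h, zero_mul]
    · rw [hB m (i + (k + l)) (by omega), mul_zero]
  by_cases hk : i + k < 8
  · rw [Finset.sum_eq_single_of_mem (i + k) (Finset.mem_range.2 hk) h1, add_assoc]
  · rw [ent_of_ge_right A (by omega : 8 ≤ i + k), zero_mul]
    apply Finset.sum_eq_zero
    intro m hm
    exact h1 m hm (by have := Finset.mem_range.1 hm; omega)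

lemma NN_eight {k : ℕ} (hk : 8 ≤ k) {M : Mat R} (hM : M ∈ NN k) : M = 0 := by
  ext i j
  have := hM i j (by have := i.2; have := j.2; omega)
  rw [ent_of_lt M i.2 j.2] at this
  rw [this]; rfl

/-- lead vanishes when one is in the next term -/
lemma ent_lead_zero {k : ℕ} {A : Mat R} (hA : A ∈ NN (k + 1)) (i : ℕ) : ent A i (i + k) = 0 :=
  hA i (i + k) (by omega)

abbrev U (R : Type) [CommRing R] : Type := (Mat R)ˣ

/-- unitriangular units -/
def Uni (u : U R) : Prop := (u : Mat R) - 1 ∈ NN 1 ∧ ((u⁻¹ : U R) : Mat R) - 1 ∈ NN 1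

lemma unit_mul_sub (a b : U R) : ((a * b : U R) : Mat R) - 1 =
    ((a : Mat R) - 1) + ((b : Mat R) - 1) + ((a : Mat R) - 1) * ((b : Mat R) - 1) := by
  rw [Units.val_mul]; noncomm_ring

lemma unit_inv_sub (a : U R) : ((a⁻¹ : U R) : Mat R) - 1 =
    - ((a : Mat R) - 1) - ((a : Mat R) - 1) * (((a⁻¹ : U R) : Mat R) - 1) := by
  have h : (a : Mat R) * ((a⁻¹ : U R) : Mat R) = 1 := Units.mul_inv a
  have h2 : ((a : Mat R) - 1) * (((a⁻¹ : U R) : Mat R) - 1) = 1 - (a : Mat R) - ((a⁻¹ : U R) : Mat R) + 1 := by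
    rw [sub_mul, mul_sub, h, mul_one, one_mul]; abel
  rw [h2]; abel

lemma unit_comm_sub (a b : U R) : ((⁅a, b⁆ : U R) : Mat R) - 1 =
    (((a : Mat R) - 1) * ((b : Mat R) - 1) - ((b : Mat R) - 1) * ((a : Mat R) - 1)) +
    (((a : Mat R) - 1) * ((b : Mat R) - 1) - ((b : Mat R) - 1) * ((a : Mat R) - 1)) *
      (((a⁻¹ * b⁻¹ : U R) : Mat R) - 1) := by
  have h1 : (((a : Mat R) - 1) * ((b : Mat R) - 1) - ((b : Mat R) - 1) * ((a : Mat R) - 1)) =
      (a : Mat R) * b - (b : Mat R) * a := by noncomm_ring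
  rw [h1, mul_sub, mul_one]
  have h2 : ((a : Mat R) * b - (b : Mat R) * a) * ((a⁻¹ * b⁻¹ : U R) : Mat R) = ((⁅a, b⁆ : U R) : Mat R) - 1 := by
    rw [sub_mul, ← Units.val_mul, ← Units.val_mul, ← Units.val_mul, ← Units.val_mul,
      commutatorElement_def]
    have e1 : a * b * (a⁻¹ * b⁻¹) = a * b * a⁻¹ * b⁻¹ := by group
    have e2 : b * a * (a⁻¹ * b⁻¹) = 1 := by group
    rw [e1, e2, Units.val_one]
  rw [h2]; abel

lemma Uni.one : Uni (1 : U R) := by
  constructor
  · simpa using (NN (R := R) 1).zero_mem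
  · simpa using (NN (R := R) 1).zero_mem

lemma Uni.mul {a b : U R} (ha : Uni a) (hb : Uni b) : Uni (a * b) := by
  constructor
  · rw [unit_mul_sub]
    exact (NN 1).add_mem ((NN 1).add_mem ha.1 hb.1) (NN_anti (by norm_num) (NN_mul ha.1 hb.1))
  · rw [mul_inv_rev, unit_mul_sub]
    exact (NN 1).add_mem ((NN 1).add_mem hb.2 ha.2) (NN_anti (by norm_num) (NN_mul hb.2 ha.2))

lemma Uni.inv {a : U R} (ha : Uni a) : Uni a⁻¹ := by
  refine ⟨ha.2, ?_⟩
  rw [inv_inv]; exact ha.1

lemma Uni.lift {f : ℕ → U R} (hf : ∀ x, Uni (f x)) (g : FreeGroup ℕ) : Uni (FreeGroup.lift f g) := by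
  induction g using FreeGroup.induction_on with
  | C1 => rw [map_one]; exact Uni.one
  | of i => rw [FreeGroup.lift_apply_of]; exact hf i
  | inv_of i ih => rw [map_inv]; exact Uni.inv ih
  | mul a b iha ihb => rw [map_mul]; exact Uni.mul iha ihb

lemma mul_mem_NN {k : ℕ} {a b : U R} (ha : (a : Mat R) - 1 ∈ NN k) (hb : (b : Mat R) - 1 ∈ NN k) :
    ((a * b : U R) : Mat R) - 1 ∈ NN k := by
  rw [unit_mul_sub]
  exact (NN k).add_mem ((NN k).add_mem ha hb) (NN_anti (by omega) (NN_mul ha hb))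

lemma inv_mem_NN {k : ℕ} {a : U R} (hu : Uni a) (ha : (a : Mat R) - 1 ∈ NN k) :
    ((a⁻¹ : U R) : Mat R) - 1 ∈ NN k := by
  rw [unit_inv_sub]
  exact (NN k).sub_mem ((NN k).neg_mem ha) (NN_anti (by omega) (NN_mul ha hu.2))

lemma comm_mem_NN {k l : ℕ} {a b : U R} (hua : Uni a) (hub : Uni b)
    (ha : (a : Mat R) - 1 ∈ NN k) (hb : (b : Mat R) - 1 ∈ NN l) :
    ((⁅a, b⁆ : U R) : Mat R) - 1 ∈ NN (k + l) := by
  rw [unit_comm_sub]
  have h1 : ((a : Mat R) - 1) * ((b : Mat R) - 1) - ((b : Mat R) - 1) * ((a : Mat R) - 1) ∈ NN (k + l) := by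
    refine (NN (k + l)).sub_mem (NN_mul ha hb) ?_
    rw [add_comm k l]; exact NN_mul hb ha
  exact (NN (k + l)).add_mem h1 (NN_anti (by omega) (NN_mul h1 (hua.inv.mul hub.inv).1))

/-- the superdiagonal entries of a tuple of units -/
def sd (f : ℕ → U R) (x i : ℕ) : R := ent ((f x : Mat R) - 1) i (i + 1)

/-- value of a monomial (a list of letters) at position `i` -/
def mon (s : ℕ → ℕ → R) : ℕ → List ℕ → R
  | _, [] => 1
  | i, x :: l => s x i * mon s (i + 1) l

/-- value of a formal noncommutative polynomial -/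
def pev (s : ℕ → ℕ → R) (i : ℕ) (E : List (ℤ × List ℕ)) : R :=
  (E.map (fun q => q.1 • mon s i q.2)).sum

lemma mon_append (s : ℕ → ℕ → R) (i : ℕ) (l l' : List ℕ) :
    mon s i (l ++ l') = mon s i l * mon s (i + l.length) l' := by
  induction l generalizing i with
  | nil => simp [mon]
  | cons x l ih =>
    simp only [List.cons_append, mon, List.length_cons]
    rw [ih, mul_assoc]
    congr 3
    omega

lemma pev_append (s : ℕ → ℕ → R) (i : ℕ) (E E' : List (ℤ × List ℕ)) :
    pev s i (E ++ E') = pev s i E + pev s i E' := by simp [pev]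

lemma pev_neg (s : ℕ → ℕ → R) (i : ℕ) (E : List (ℤ × List ℕ)) :
    pev s i (pneg E) = - pev s i E := by
  induction E with
  | nil => simp [pev, pneg]
  | cons q E ih =>
    simp only [pev, pneg, List.map_cons, List.sum_cons, neg_add] at *
    rw [ih, neg_smul]

lemma pev_mul (s : ℕ → ℕ → R) (i k : ℕ) (E E' : List (ℤ × List ℕ))
    (hE : ∀ q ∈ E, q.2.length = k) :
    pev s i (pmul E E') = pev s i E * pev s (i + k) E' := by
  induction E with
  | nil => simp [pev, pmul]
  | cons q E ih =>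
    have ih' := ih (fun q hq => hE q (List.mem_cons_of_mem _ hq))
    have hq := hE q List.mem_cons_self
    have h1 : pmul (q :: E) E' = E'.map (fun q' => (q.1 * q'.1, q.2 ++ q'.2)) ++ pmul E E' := by
      simp [pmul]
    rw [h1, pev_append, ih']
    have h2 : pev s i (E'.map (fun q' => (q.1 * q'.1, q.2 ++ q'.2))) =
        (q.1 • mon s i q.2) * pev s (i + k) E' := by
      clear ih ih' h1 hE
      induction E' with
      | nil => simp [pev]
      | cons q' E' ih2 =>
        simp only [pev, List.map_cons, List.sum_cons, mul_add] at *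
        rw [ih2, mon_append, hq]
        congr 1
        simp only [zsmul_eq_mul, Int.cast_mul]
        ring
    rw [h2]
    simp only [pev, List.map_cons, List.sum_cons]
    ring

end ring_

/-- `Rep k g E`: under every unitriangular evaluation the word `g` lies in the `k`-th term and
its leading superdiagonal is given by the polynomial `E`. -/
def Rep (k : ℕ) (g : FreeGroup ℕ) (E : List (ℤ × List ℕ)) : Prop :=
  (∀ q ∈ E, q.2.length = k) ∧ ∀ (R : Type) [CommRing R] (f : ℕ → U R), (∀ x, Uni (f x)) →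
    ((FreeGroup.lift f g : U R) : Mat R) - 1 ∈ NN k ∧
    ∀ i, ent (((FreeGroup.lift f g : U R) : Mat R) - 1) i (i + k) = pev (sd f) i E

lemma Rep.gen (x : ℕ) : Rep 1 (FreeGroup.of x) [(1, [x])] := by
  refine ⟨by simp, fun R _ f hf => ⟨?_, fun i => ?_⟩⟩
  · rw [FreeGroup.lift_apply_of]; exact (hf x).1
  · rw [FreeGroup.lift_apply_of]; simp [pev, mon, sd]

lemma Rep.mul {k : ℕ} (hk : 1 ≤ k) {a b : FreeGroup ℕ} {E E' : List (ℤ × List ℕ)}
    (ha : Rep k a E) (hb : Rep k b E') : Rep k (a * b) (E ++ E') := by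
  refine ⟨?_, fun R _ f hf => ⟨?_, fun i => ?_⟩⟩
  · intro q hq
    rcases List.mem_append.1 hq with h | h
    · exact ha.1 q h
    · exact hb.1 q h
  · rw [map_mul]
    exact mul_mem_NN (ha.2 R f hf).1 (hb.2 R f hf).1
  · rw [map_mul, unit_mul_sub, ent_add, ent_add, (ha.2 R f hf).2, (hb.2 R f hf).2, pev_append,
      ent_lead_zero (NN_anti (by omega) (NN_mul (ha.2 R f hf).1 (hb.2 R f hf).1)), add_zero]

lemma Rep.inv {k : ℕ} {a : FreeGroup ℕ} {E : List (ℤ × List ℕ)}
    (ha : Rep k a E) : Rep k a⁻¹ (pneg E) := by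
  refine ⟨?_, fun R _ f hf => ⟨?_, fun i => ?_⟩⟩
  · intro q hq
    obtain ⟨q', hq', rfl⟩ := List.mem_map.1 hq
    exact ha.1 q' hq'
  · rw [map_inv]
    exact inv_mem_NN (Uni.lift hf a) (ha.2 R f hf).1
  · rw [map_inv, unit_inv_sub, ent_sub, ent_neg, (ha.2 R f hf).2, pev_neg,
      ent_lead_zero (NN_anti (by omega) (NN_mul (ha.2 R f hf).1 (Uni.lift hf a).2)), sub_zero]

lemma Rep.one (k : ℕ) : Rep k 1 [] := by
  refine ⟨by simp, fun R _ f hf => ⟨?_, fun i => ?_⟩⟩
  · rw [map_one]; simpa using (NN (R := R) k).zero_mem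
  · rw [map_one]; simp [pev, ent_zero]

lemma Rep.comm {k l : ℕ} {a b : FreeGroup ℕ} {E E' : List (ℤ × List ℕ)}
    (ha : Rep k a E) (hb : Rep l b E') :
    Rep (k + l) ⁅a, b⁆ (pmul E E' ++ pneg (pmul E' E)) := by
  refine ⟨?_, fun R _ f hf => ⟨?_, fun i => ?_⟩⟩
  · intro q hq
    rcases List.mem_append.1 hq with h | h
    · obtain ⟨q1, h1, h2⟩ := List.mem_flatMap.1 h
      obtain ⟨q2, h3, rfl⟩ := List.mem_map.1 h2
      simp [ha.1 q1 h1, hb.1 q2 h3]
    · obtain ⟨q0, h0, rfl⟩ := List.mem_map.1 h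
      obtain ⟨q1, h1, h2⟩ := List.mem_flatMap.1 h0
      obtain ⟨q2, h3, rfl⟩ := List.mem_map.1 h2
      simp [ha.1 q2 h3, hb.1 q1 h1, add_comm]
  · rw [map_commutatorElement]
    exact comm_mem_NN (Uni.lift hf a) (Uni.lift hf b) (ha.2 R f hf).1 (hb.2 R f hf).1
  · have hA := (ha.2 R f hf).1
    have hB := (hb.2 R f hf).1
    rw [map_commutatorElement, unit_comm_sub, ent_add]
    have h1 : (((FreeGroup.lift f a : U R) : Mat R) - 1) * (((FreeGroup.lift f b : U R) : Mat R) - 1) -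
        (((FreeGroup.lift f b : U R) : Mat R) - 1) * (((FreeGroup.lift f a : U R) : Mat R) - 1) ∈
          NN (k + l) := by
      refine (NN (k + l)).sub_mem (NN_mul hA hB) ?_
      rw [add_comm k l]; exact NN_mul hB hA
    rw [ent_lead_zero (k := k + l) (NN_anti (by omega)
      (NN_mul h1 ((Uni.lift hf a).inv.mul (Uni.lift hf b).inv).1)), add_zero, ent_sub,
      ent_mul_lead hA hB, (ha.2 R f hf).2, (hb.2 R f hf).2, pev_append, pev_neg,
      pev_mul _ _ k _ _ ha.1, pev_mul _ _ l _ _ hb.1, sub_eq_add_neg]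
    rw [add_comm k l, ent_mul_lead hB hA, (ha.2 R f hf).2, (hb.2 R f hf).2]

lemma Rep.zero_of {k : ℕ} {a : FreeGroup ℕ}
    (h : ∀ (R : Type) [CommRing R] (f : ℕ → U R), (∀ x, Uni (f x)) →
      ((FreeGroup.lift f a : U R) : Mat R) - 1 ∈ NN (k + 1)) :
    Rep k a [] := by
  refine ⟨by simp, fun R _ f hf => ⟨NN_anti (by omega) (h R f hf), fun i => ?_⟩⟩
  rw [ent_lead_zero (h R f hf)]; simp [pev]


end Pool.Agent.H53R3
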