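import Mathlib
import Pool.Agent.H53R3.UT

set_option autoImplicit false

/-!
Leading forms of words in the lower central series of the free group.
-/

namespace Pool.Agent.H53R3

open scoped commutatorElement
open Pool.Agent.Helper429 (pneg pmul L)

section ring_

variable {R : Type} [CommRing R]

/-- the strictly upper triangular matrix with given superdiagonal -/
def Ym (t : ℕ → R) : Mat R := fun i j => if (j : ℕ) = i + 1 then t i else 0

lemma Ym_mem (t : ℕ → R) : Ym t ∈ NN 1 := by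
  intro i j hij
  unfold ent
  split_ifs with h
  · simp only [Ym]
    split_ifs <;> first | rfl | omega
  · rfl

lemma ent_Ym (t : ℕ → R) {i : ℕ} (hi : i < 7) : ent (Ym t) i (i + 1) = t i := by
  rw [ent_of_lt _ (by omega) (by omega)]
  simp [Ym]

lemma pow_mem_NN {A : Mat R} (hA : A ∈ NN 1) (k : ℕ) : A ^ (k + 1) ∈ NN (k + 1) := by
  induction k with
  | zero => simpa using hA
  | succ k ih => rw [pow_succ]; exact NN_mul ih hA

/-- the standard unitriangular evaluation -/
def um (s : ℕ → ℕ → R) (x : ℕ) : U R where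
  val := 1 + Ym (s x)
  inv := ∑ k ∈ Finset.range 8, (-Ym (s x)) ^ k
  val_inv := by
    have h : (-Ym (s x)) ^ 8 = 0 :=
      NN_eight (k := 8) le_rfl (pow_mem_NN ((NN 1).neg_mem (Ym_mem (s x))) 7)
    have := mul_neg_geom_sum (-Ym (s x)) 8
    rw [h, sub_zero, sub_neg_eq_add] at this
    exact this
  inv_val := by
    have h : (-Ym (s x)) ^ 8 = 0 :=
      NN_eight (k := 8) le_rfl (pow_mem_NN ((NN 1).neg_mem (Ym_mem (s x))) 7)
    have := geom_sum_mul_neg (-Ym (s x)) 8
    rw [h, sub_zero, sub_neg_eq_add] at this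
    exact this

lemma um_uni (s : ℕ → ℕ → R) (x : ℕ) : Uni (um s x) := by
  constructor
  · have : ((um s x : U R) : Mat R) - 1 = Ym (s x) := by simp [um]
    rw [this]; exact Ym_mem _
  · have : (((um s x)⁻¹ : U R) : Mat R) = ∑ k ∈ Finset.range 8, (-Ym (s x)) ^ k := rfl
    rw [this, Finset.sum_range_succ', pow_zero, add_sub_cancel_right]
    apply AddSubgroup.sum_mem
    intro k _
    exact NN_anti (by omega) (pow_mem_NN ((NN 1).neg_mem (Ym_mem _)) k)

lemma sd_um (s : ℕ → ℕ → R) (x : ℕ) {i : ℕ} (hi : i < 7) : sd (um s) x i = s x i := by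
  have : ((um s x : U R) : Mat R) - 1 = Ym (s x) := by simp [um]
  unfold sd
  rw [this, ent_Ym _ hi]

/-- the leading form of a word in the `n`-th term -/
def lam (n : ℕ) (g : F) (s : ℕ → ℕ → R) : R :=
  ent (((FreeGroup.lift (um s) g : U R) : Mat R) - 1) 0 n

lemma mon_congr {s s' : ℕ → ℕ → R} (l : List ℕ) (i : ℕ)
    (h : ∀ x j, i ≤ j → j < i + l.length → s x j = s' x j) : mon s i l = mon s' i l := by
  induction l generalizing i with
  | nil => rfl
  | cons x l ih =>
    simp only [mon]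
    rw [h x i le_rfl (by simp), ih (i + 1) (fun x j h1 h2 => h x j (by omega) (by
      simp only [List.length_cons]; omega))]

lemma pev_congr {s s' : ℕ → ℕ → R} {E : List (ℤ × List ℕ)} {n : ℕ} (hE : ∀ q ∈ E, q.2.length = n)
    (i : ℕ) (h : ∀ x j, i ≤ j → j < i + n → s x j = s' x j) : pev s i E = pev s' i E := by
  unfold pev
  congr 1
  apply List.map_congr_left
  intro q hq
  rw [mon_congr q.2 i (fun x j h1 h2 => h x j h1 (by rw [hE q hq] at h2; exact h2))]

lemma lam_rep {n : ℕ} {g : F} {E : List (ℤ × List ℕ)} (h : Rep n g E) (hn : n ≤ 7)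
    (s : ℕ → ℕ → R) : lam n g s = pev s 0 E := by
  have h1 := (h.2 R (um s) (um_uni s)).2 0
  rw [Nat.zero_add] at h1
  unfold lam
  rw [h1]
  exact pev_congr h.1 0 (fun x j _ h2 => sd_um s x (by omega))

end ring_

/-- every word of the `n`-th term of the lower central series has a leading polynomial -/
lemma exists_rep (n : ℕ) : ∀ g ∈ L F n, ∃ E, Rep (n + 1) g E := by
  induction n with
  | zero =>
    intro g _
    induction g using FreeGroup.induction_on with
    | C1 => exact ⟨[], Rep.one _⟩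
    | of i => exact ⟨_, Rep.gen i⟩
    | inv_of i ih =>
      obtain ⟨E, hE⟩ := ih trivial
      exact ⟨_, hE.inv⟩
    | mul a b iha ihb =>
      obtain ⟨E, hE⟩ := iha trivial
      obtain ⟨E', hE'⟩ := ihb trivial
      exact ⟨_, Rep.mul le_rfl hE hE'⟩
  | succ n ih =>
    intro g hg
    have hle : L F (n + 1) ≤
        (⟨⟨⟨{g | ∃ E, Rep (n + 1 + 1) g E}, by
          rintro a b ⟨E, hE⟩ ⟨E', hE'⟩
          exact ⟨_, Rep.mul (by omega) hE hE'⟩⟩, ⟨[], Rep.one _⟩⟩, by
          rintro a ⟨E, hE⟩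
          exact ⟨_, hE.inv⟩⟩ : Subgroup F) := by
      change ⁅L F n, ⊤⁆ ≤ _
      rw [Subgroup.commutator_le]
      intro a ha b _
      obtain ⟨E, hE⟩ := ih a ha
      obtain ⟨E', hE'⟩ : ∃ E', Rep 1 b E' := by
        clear hg
        induction b using FreeGroup.induction_on with
        | C1 => exact ⟨[], Rep.one _⟩
        | of i => exact ⟨_, Rep.gen i⟩
        | inv_of i ih =>
          obtain ⟨E, hE⟩ := ih trivial
          exact ⟨_, hE.inv⟩
        | mul a b iha ihb =>
          obtain ⟨E, hE⟩ := iha trivial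
          obtain ⟨E', hE'⟩ := ihb trivial
          exact ⟨_, Rep.mul le_rfl hE hE'⟩
      exact ⟨_, Rep.comm hE hE'⟩
    exact hle hg

section ring2_

variable {R : Type} [CommRing R]

lemma lam_one (n : ℕ) (s : ℕ → ℕ → R) : lam n 1 s = 0 := by
  unfold lam
  rw [map_one, Units.val_one, sub_self, ent_zero]

lemma lam_mul {n : ℕ} (hn : n < 7) {a b : F} (ha : a ∈ L F n) (hb : b ∈ L F n) (s : ℕ → ℕ → R) :
    lam (n + 1) (a * b) s = lam (n + 1) a s + lam (n + 1) b s := by
  obtain ⟨E, hE⟩ := exists_rep n a ha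
  obtain ⟨E', hE'⟩ := exists_rep n b hb
  rw [lam_rep (Rep.mul (by omega) hE hE') (by omega), lam_rep hE (by omega), lam_rep hE' (by omega),
    pev_append]

lemma lam_inv {n : ℕ} (hn : n < 7) {a : F} (ha : a ∈ L F n) (s : ℕ → ℕ → R) :
    lam (n + 1) a⁻¹ s = - lam (n + 1) a s := by
  obtain ⟨E, hE⟩ := exists_rep n a ha
  rw [lam_rep hE.inv (by omega), lam_rep hE (by omega), pev_neg]

lemma L_mem_NN (n : ℕ) (f : ℕ → U R) (hf : ∀ x, Uni (f x)) (g : F) (hg : g ∈ L F n) :
    ((FreeGroup.lift f g : U R) : Mat R) - 1 ∈ NN (n + 1) := by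
  obtain ⟨E, hE⟩ := exists_rep n g hg
  exact (hE.2 R f hf).1

lemma lam_eq_zero {n : ℕ} {g : F} (hg : g ∈ L F n) (s : ℕ → ℕ → R) : lam n g s = 0 := by
  have h := L_mem_NN n (um s) (um_uni s) g hg
  unfold lam
  have h1 := ent_lead_zero h 0
  rw [Nat.zero_add] at h1
  exact h1

/-- linear part -/
def abv (v : ℕ → ℕ → R) : F →* Multiplicative (ℕ → R) :=
  FreeGroup.lift (fun x => Multiplicative.ofAdd (v x))

def vv (v : ℕ → ℕ → R) (h : F) : ℕ → R := Multiplicative.toAdd (abv v h)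

lemma vv_of (v : ℕ → ℕ → R) (x : ℕ) : vv v (FreeGroup.of x) = v x := by
  simp [vv, abv]

lemma vv_mul (v : ℕ → ℕ → R) (a b : F) : vv v (a * b) = vv v a + vv v b := by
  simp [vv]

lemma vv_inv (v : ℕ → ℕ → R) (a : F) : vv v a⁻¹ = - vv v a := by
  simp [vv]

lemma vv_one (v : ℕ → ℕ → R) : vv v 1 = 0 := by
  simp [vv]

lemma ent_um_lift (v : ℕ → ℕ → R) (t : ℕ → ℕ) (h : F) {i : ℕ} (hi : i < 7) :
    ent (((FreeGroup.lift (um fun x i => v x (t i)) h : U R) : Mat R) - 1) i (i + 1) =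
      vv v h (t i) := by
  induction h using FreeGroup.induction_on with
  | C1 => rw [map_one, Units.val_one, sub_self, ent_zero, vv_one]; rfl
  | of x =>
    rw [FreeGroup.lift_apply_of, vv_of]
    exact sd_um _ x hi
  | inv_of x ih =>
    have hu := Uni.lift (um_uni (fun x i => v x (t i))) (FreeGroup.of x)
    rw [map_inv, unit_inv_sub, ent_sub, ent_neg, ih, vv_inv,
      ent_lead_zero (k := 1) (NN_mul hu.1 hu.2), sub_zero]
    rfl
  | mul a b iha ihb =>
    have ha := Uni.lift (um_uni (fun x i => v x (t i))) a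
    have hb := Uni.lift (um_uni (fun x i => v x (t i))) b
    rw [map_mul, unit_mul_sub, ent_add, ent_add, iha, ihb, vv_mul,
      ent_lead_zero (k := 1) (NN_mul ha.1 hb.1), add_zero]
    rfl

lemma lift_comp' {G : Type*} [Group G] (f : ℕ → G) (θ : F →* F) (g : F) :
    FreeGroup.lift f (θ g) = FreeGroup.lift (fun x => FreeGroup.lift f (θ (FreeGroup.of x))) g := by
  have h : (FreeGroup.lift f).comp θ =
      FreeGroup.lift (fun x => FreeGroup.lift f (θ (FreeGroup.of x))) := by
    apply FreeGroup.ext_hom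
    intro x
    rw [FreeGroup.lift_apply_of]; rfl
  exact DFunLike.congr_fun h g

/-- the leading form after an endomorphism -/
lemma lam_map {n : ℕ} (hn : n < 7) {g : F} (hg : g ∈ L F n) (θ : F →* F) (v : ℕ → ℕ → R)
    (t : ℕ → ℕ) : lam (n + 1) (θ g) (fun x i => v x (t i)) =
      lam (n + 1) g (fun x i => vv v (θ (FreeGroup.of x)) (t i)) := by
  obtain ⟨E, hE⟩ := exists_rep n g hg
  rw [lam_rep hE (by omega)]
  unfold lam
  rw [lift_comp']
  have h := (hE.2 R (fun x => FreeGroup.lift (um fun x i => v x (t i)) (θ (FreeGroup.of x)))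
    (fun x => Uni.lift (um_uni _) _)).2 0
  rw [Nat.zero_add] at h
  rw [h]
  apply pev_congr hE.1 0
  intro x j _ hj
  exact ent_um_lift v t _ (by omega)

end ring2_

/-- extension of a permutation of `n` letters to the natural numbers -/
def tl (n : ℕ) (τ : Equiv.Perm (Fin n)) (x : ℕ) : ℕ := if h : x < n then (τ ⟨x, h⟩ : ℕ) else x

lemma tl_fin {n : ℕ} (τ : Equiv.Perm (Fin n)) (x : Fin n) : tl n τ x = τ x := by simp [tl]

section fun_

/-- the value of a multilinear functional on the leading form -/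
def evf (n : ℕ) (φ : Equiv.Perm (Fin n) → ZMod 3) (g : F) (v : ℕ → ℕ → ZMod 3) : ZMod 3 :=
  ∑ τ : Equiv.Perm (Fin n), φ τ * lam n g (fun x i => v x (tl n τ i))

variable {n : ℕ} (φ : Equiv.Perm (Fin (n + 1)) → ZMod 3)

lemma evf_one (v : ℕ → ℕ → ZMod 3) : evf (n + 1) φ 1 v = 0 := by
  simp [evf, lam_one]

lemma evf_mul (hn : n < 7) {a b : F} (ha : a ∈ L F n) (hb : b ∈ L F n) (v : ℕ → ℕ → ZMod 3) :
    evf (n + 1) φ (a * b) v = evf (n + 1) φ a v + evf (n + 1) φ b v := by
  unfold evf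
  rw [← Finset.sum_add_distrib]
  apply Finset.sum_congr rfl
  intro τ _
  rw [lam_mul hn ha hb, mul_add]

lemma evf_inv (hn : n < 7) {a : F} (ha : a ∈ L F n) (v : ℕ → ℕ → ZMod 3) :
    evf (n + 1) φ a⁻¹ v = - evf (n + 1) φ a v := by
  unfold evf
  rw [← Finset.sum_neg_distrib]
  apply Finset.sum_congr rfl
  intro τ _
  rw [lam_inv hn ha, mul_neg]

lemma evf_eq_zero {a : F} (ha : a ∈ L F (n + 1)) (v : ℕ → ℕ → ZMod 3) :
    evf (n + 1) φ a v = 0 := by
  unfold evf
  apply Finset.sum_eq_zero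
  intro τ _
  rw [lam_eq_zero ha, mul_zero]

lemma evf_map (hn : n < 7) {g : F} (hg : g ∈ L F n) (θ : F →* F) (v : ℕ → ℕ → ZMod 3) :
    evf (n + 1) φ (θ g) v = evf (n + 1) φ g (fun x => vv v (θ (FreeGroup.of x))) := by
  unfold evf
  apply Finset.sum_congr rfl
  intro τ _
  rw [lam_map hn hg]

end fun_

end Pool.Agent.H53R3
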