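import Mathlib
import Pool.Agent.H53R3.Lam

set_option autoImplicit false

/-!
The fully invariant subgroups `WW` (of the seventh term) and `SS` (of the sixth term).
-/

namespace Pool.Agent.H53R3

open scoped commutatorElement
open Pool.Agent.Helper429 (L L_anti L_comm comm_mem_L Cg Cg_iff Cg_mul_left Cg_zpow_left Cg_npow_left Cg_comm)

abbrev sg {n : ℕ} (τ : Equiv.Perm (Fin n)) : ZMod 3 := ((Equiv.Perm.sign τ : ℤ) : ZMod 3)

/-- pattern table of the degree six functional (two letters of each of three kinds) -/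
def hh (l : List ℕ) : ℤ :=
  if l = [2,1,1,0,0,2] then -1 else
  if l = [2,2,0,0,1,1] then -1 else
  if l = [1,2,0,0,1,2] then 1 else
  if l = [0,1,2,2,0,1] then 1 else
  if l = [2,0,1,1,2,0] then 1 else
  if l = [1,0,0,2,2,1] then -1 else 0

/-- the signed functional of degree six -/
def fh (τ : Equiv.Perm (Fin 6)) : ZMod 3 :=
  sg τ * ((hh (List.ofFn fun j : Fin 6 => (τ j : ℕ) / 2) : ℤ) : ZMod 3)

/-- kinds of letters for the signed functional of degree seven -/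
def kp (x : ℕ) : ℕ := if x = 0 then 0 else if x = 1 then 1 else 2

def hp (l : List ℕ) : ℤ :=
  if l = [2,2,0,2,2,1,2] then 1 else
  if l = [2,2,1,2,2,0,2] then -1 else 0

/-- the signed functional of degree seven -/
def fp (τ : Equiv.Perm (Fin 7)) : ZMod 3 :=
  sg τ * ((hp (List.ofFn fun j : Fin 7 => kp (τ j : ℕ)) : ℤ) : ZMod 3)

/-- kinds of letters for the unsigned functional of degree seven -/
def kq (x : ℕ) : ℕ := if x < 4 then 0 else 1

def hq (l : List ℕ) : ℤ :=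
  if l = [0,0,1,1,1,0,0] then 1 else
  if l = [0,0,0,1,1,1,0] then -1 else 0

/-- the unsigned functional of degree seven -/
def fq (τ : Equiv.Perm (Fin 7)) : ZMod 3 :=
  ((hq (List.ofFn fun j : Fin 7 => kq (τ j : ℕ)) : ℤ) : ZMod 3)

lemma L_map (n : ℕ) {g : F} (hg : g ∈ L F n) (θ : F →* F) : θ g ∈ L F n := by
  have h2 : θ g ∈ ((⊤ : Subgroup F).lowerCentralSeries n).map θ := ⟨g, hg, rfl⟩
  rw [Subgroup.map_lowerCentralSeries] at h2
  have h3 : ∀ k : ℕ, ((⊤ : Subgroup F).map θ).lowerCentralSeries k ≤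
      (⊤ : Subgroup F).lowerCentralSeries k := by
    intro k
    induction k with
    | zero => exact le_top
    | succ k ihk => exact Subgroup.commutator_mono ihk le_top
  exact h3 n h2

/-- the verbal subgroup of the variety `[𝔘, 𝔈]` will be contained in this subgroup -/
def WW : Subgroup F where
  carrier := {g | g ∈ L F 6 ∧ ∀ v, evf 7 fp g v = 0 ∧ evf 7 fq g v = 0}
  one_mem' := ⟨Subgroup.one_mem _, fun v => ⟨evf_one _ v, evf_one _ v⟩⟩
  mul_mem' := by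
    rintro a b ⟨ha, ha'⟩ ⟨hb, hb'⟩
    refine ⟨Subgroup.mul_mem _ ha hb, fun v => ⟨?_, ?_⟩⟩
    · rw [evf_mul fp (by omega) ha hb, (ha' v).1, (hb' v).1, add_zero]
    · rw [evf_mul fq (by omega) ha hb, (ha' v).2, (hb' v).2, add_zero]
  inv_mem' := by
    rintro a ⟨ha, ha'⟩
    refine ⟨Subgroup.inv_mem _ ha, fun v => ⟨?_, ?_⟩⟩
    · rw [evf_inv fp (by omega) ha, (ha' v).1, neg_zero]
    · rw [evf_inv fq (by omega) ha, (ha' v).2, neg_zero]

lemma mem_WW {g : F} : g ∈ WW ↔ g ∈ L F 6 ∧ ∀ v, evf 7 fp g v = 0 ∧ evf 7 fq g v = 0 := Iff.rfl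

lemma WW_map {g : F} (hg : g ∈ WW) (θ : F →* F) : θ g ∈ WW := by
  refine ⟨L_map 6 hg.1 θ, fun v => ⟨?_, ?_⟩⟩
  · rw [evf_map fp (by omega) hg.1]; exact (hg.2 _).1
  · rw [evf_map fq (by omega) hg.1]; exact (hg.2 _).2

instance : WW.Normal where
  conj_mem g hg n := by simpa using WW_map hg (MulAut.conj n).toMonoidHom

lemma L7_le_WW : L F 7 ≤ WW := fun _ hg =>
  ⟨L_anti (by omega) hg, fun v => ⟨evf_eq_zero fp hg v, evf_eq_zero fq hg v⟩⟩

/-- the verbal subgroup of the variety `𝔘` -/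
def SS : Subgroup F where
  carrier := {g | g ∈ L F 5 ∧ ∀ θ : F →* F, (∀ v, evf 6 fh (θ g) v = 0) ∧ ∀ x, ⁅θ g, x⁆ ∈ WW}
  one_mem' := ⟨Subgroup.one_mem _, fun θ => ⟨fun v => by rw [map_one]; exact evf_one _ v,
    fun x => by rw [map_one, commutatorElement_one_left]; exact WW.one_mem⟩⟩
  mul_mem' := by
    rintro a b ⟨ha, ha'⟩ ⟨hb, hb'⟩
    refine ⟨Subgroup.mul_mem _ ha hb, fun θ => ⟨fun v => ?_, fun x => ?_⟩⟩
    · rw [map_mul, evf_mul fh (by omega) (L_map 5 ha θ) (L_map 5 hb θ), (ha' θ).1, (hb' θ).1,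
        add_zero]
    · have e : ⁅θ (a * b), x⁆ = θ a * ⁅θ b, x⁆ * (θ a)⁻¹ * ⁅θ a, x⁆ := by
        rw [map_mul]; simp only [commutatorElement_def]; group
      rw [e]
      exact WW.mul_mem (Subgroup.Normal.conj_mem inferInstance _ ((hb' θ).2 x) _) ((ha' θ).2 x)
  inv_mem' := by
    rintro a ⟨ha, ha'⟩
    refine ⟨Subgroup.inv_mem _ ha, fun θ => ⟨fun v => ?_, fun x => ?_⟩⟩
    · rw [map_inv, evf_inv fh (by omega) (L_map 5 ha θ), (ha' θ).1, neg_zero]
    · have e : ⁅θ a⁻¹, x⁆ = (θ a)⁻¹ * ⁅θ a, x⁆⁻¹ * ((θ a)⁻¹)⁻¹ := by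
        rw [map_inv]; simp only [commutatorElement_def]; group
      rw [e]
      exact Subgroup.Normal.conj_mem inferInstance _ (WW.inv_mem ((ha' θ).2 x)) _

lemma mem_SS {g : F} : g ∈ SS ↔ g ∈ L F 5 ∧
    ∀ θ : F →* F, (∀ v, evf 6 fh (θ g) v = 0) ∧ ∀ x, ⁅θ g, x⁆ ∈ WW := Iff.rfl

lemma SS_map {g : F} (hg : g ∈ SS) (θ : F →* F) : θ g ∈ SS :=
  ⟨L_map 5 hg.1 θ, fun θ' => hg.2 (θ'.comp θ)⟩

instance : SS.Normal where
  conj_mem g hg n := by simpa using SS_map hg (MulAut.conj n).toMonoidHom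

lemma L6_le_SS : L F 6 ≤ SS := fun g hg =>
  ⟨L_anti (by omega) hg, fun θ => ⟨fun v => evf_eq_zero fh (L_map 6 hg θ) v,
    fun x => L7_le_WW (comm_mem_L (j := 0) (L_map 6 hg θ) (Subgroup.mem_top x) (by omega))⟩⟩

lemma SS_le_L5 : SS ≤ L F 5 := fun _ hg => hg.1

/-- the verbal subgroup of the variety `[𝔘, 𝔈]` -/
abbrev SC : Subgroup F := ⁅SS, (⊤ : Subgroup F)⁆

lemma SC_map {g : F} (hg : g ∈ SC) (φ : F →* F) : φ g ∈ SC := by
  have h : SC ≤ SC.comap φ := by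
    rw [Subgroup.commutator_le]
    intro a ha b _
    rw [Subgroup.mem_comap, map_commutatorElement]
    exact Subgroup.commutator_mem_commutator (SS_map ha φ) (Subgroup.mem_top _)
  exact h hg

lemma SC_le_WW : SC ≤ WW := by
  rw [Subgroup.commutator_le]
  intro a ha b _
  exact (ha.2 (MonoidHom.id F)).2 b

lemma SC_le_L6 : SC ≤ L F 6 := fun _ hg => (SC_le_WW hg).1

lemma L7_le_SC : L F 7 ≤ SC := Subgroup.commutator_mono L6_le_SS le_rfl

lemma LH : L (F ⧸ SC) 7 = ⊥ := by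
  have h2 := Subgroup.map_lowerCentralSeries (⊤ : Subgroup F) (QuotientGroup.mk' SC) 7
  rw [Subgroup.map_top_of_surjective _ (QuotientGroup.mk'_surjective SC)] at h2
  rw [L, ← h2, Subgroup.map_eq_bot_iff, QuotientGroup.ker_mk']
  exact L7_le_SC

/-- cubes of elements of the sixth term -/
lemma cube_mem_SS {a : F} (ha : a ∈ L F 5) : a ^ 3 ∈ SS := by
  refine ⟨pow_mem ha 3, fun θ => ⟨fun v => ?_, fun x => ?_⟩⟩
  · have h1 := L_map 5 ha θ
    have e : θ (a ^ 3) = θ a * (θ a * θ a) := by rw [map_pow, pow_three]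
    rw [e, evf_mul fh (by omega) h1 (Subgroup.mul_mem _ h1 h1), evf_mul fh (by omega) h1 h1]
    have h3 : (3 : ZMod 3) = 0 := by decide
    linear_combination (evf 6 fh (θ a) v) * h3
  · have h1 := L_map 5 ha θ
    have h2 : Cg 7 ⁅(θ a) ^ 3, x⁆ (⁅θ a, x⁆ ^ 3) :=
      Cg_npow_left (j := 0) h1 (Subgroup.mem_top x) (by omega) 3
    have h4 : ⁅θ a, x⁆ ∈ L F 6 := comm_mem_L (j := 0) h1 (Subgroup.mem_top x) (by omega)
    have h5 : ⁅θ a, x⁆ ^ 3 ∈ WW := by
      refine ⟨pow_mem h4 3, fun v => ⟨?_, ?_⟩⟩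
      · have h3 : (3 : ZMod 3) = 0 := by decide
        rw [pow_three, evf_mul fp (by omega) h4 (Subgroup.mul_mem _ h4 h4),
          evf_mul fp (by omega) h4 h4]
        linear_combination (evf 7 fp ⁅θ a, x⁆ v) * h3
      · have h3 : (3 : ZMod 3) = 0 := by decide
        rw [pow_three, evf_mul fq (by omega) h4 (Subgroup.mul_mem _ h4 h4),
          evf_mul fq (by omega) h4 h4]
        linear_combination (evf 7 fq ⁅θ a, x⁆ v) * h3
    have h6 := L7_le_WW (Cg_iff.1 h2)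
    rw [map_pow]
    have h7 := WW.mul_mem h5 (WW.inv_mem h6)
    simpa using h7

/-- the quotient of the seventh term by `SC` has exponent three -/
lemma cube_mem_SC {g : F} (hg : g ∈ L F 6) : g ^ 3 ∈ SC := by
  have key : L F 6 ≤ (⟨⟨⟨{g | g ∈ L F 6 ∧ g ^ 3 ∈ SC}, by
      rintro a b ⟨ha, ha'⟩ ⟨hb, hb'⟩
      refine ⟨Subgroup.mul_mem _ ha hb, ?_⟩
      have hc : Commute (QuotientGroup.mk' SC a) (QuotientGroup.mk' SC b) :=
        Pool.Agent.Helper429.commute_mk _ (L7_le_SC (comm_mem_L ha hb (by omega)))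
      rw [← QuotientGroup.eq_one_iff] at ha' hb' ⊢
      change QuotientGroup.mk' SC ((a * b) ^ 3) = 1
      change QuotientGroup.mk' SC (a ^ 3) = 1 at ha'
      change QuotientGroup.mk' SC (b ^ 3) = 1 at hb'
      rw [map_pow, map_mul, hc.mul_pow, ← map_pow, ← map_pow, ha', hb', one_mul]⟩,
      ⟨Subgroup.one_mem _, by rw [one_pow]; exact Subgroup.one_mem _⟩⟩, by
      rintro a ⟨ha, ha'⟩
      exact ⟨Subgroup.inv_mem _ ha, by rw [inv_pow]; exact Subgroup.inv_mem _ ha'⟩⟩ :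
      Subgroup F) := by
    change ⁅L F 5, ⊤⁆ ≤ _
    rw [Subgroup.commutator_le]
    intro a ha b _
    refine ⟨comm_mem_L (j := 0) ha (Subgroup.mem_top b) (by omega), ?_⟩
    have h2 : Cg 7 ⁅a ^ 3, b⁆ (⁅a, b⁆ ^ 3) :=
      Cg_npow_left (j := 0) ha (Subgroup.mem_top b) (by omega) 3
    have h3 : ⁅a ^ 3, b⁆ ∈ SC :=
      Subgroup.commutator_mem_commutator (cube_mem_SS ha) (Subgroup.mem_top b)
    have h4 := SC.mul_mem h3 (L7_le_SC (Cg_iff.1 h2))
    rwa [mul_inv_cancel_left] at h4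
  exact (key hg).2

end Pool.Agent.H53R3
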