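import Mathlib
import Pool.Agent.H53R3.Defs

set_option autoImplicit false

/-!
Basic definitions for the combinatorial part.
-/

namespace Pool.Agent.H53R3

open scoped commutatorElement
open Pool.Agent.Helper429 (L X keep kill rnm er asc adr evP Cg)

/-- the reversed list of the values of a permutation; `er y (rl n σ)` is the left normed
commutator `[y (σ 0), y (σ 1), …, y (σ (n-1))]` -/
def rl (n : ℕ) (σ : Equiv.Perm (Fin n)) : List ℕ := (List.ofFn fun j : Fin n => (σ j : ℕ)).reverse

/-- formal combinations of permutations -/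
abbrev LP (n : ℕ) : Type := List (ℤ × Equiv.Perm (Fin n))

/-- the product of left normed commutators attached to a formal combination -/
def wd (n : ℕ) {G : Type*} [Group G] (y : ℕ → G) (D : LP n) : G :=
  (D.map fun q => er y (rl n q.2) ^ q.1).prod

/-- sum of a function over a formal combination -/
def SM {n : ℕ} (D : LP n) (f : Equiv.Perm (Fin n) → ZMod 3) : ZMod 3 :=
  (D.map fun q => (q.1 : ZMod 3) * f q.2).sum

/-- the permutation attached to a list -/
noncomputable def prm (n : ℕ) (l : List ℕ) : Equiv.Perm (Fin n) :=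
  if h : ∃ π : Equiv.Perm (Fin n), l = List.ofFn (fun j : Fin n => (π j : ℕ)) then h.choose else 1

/-- the expansion of the left normed commutator `[x₀, …, x_{n-1}]` as a polynomial -/
def xl (n : ℕ) : List (ℤ × List ℕ) := asc (rl n 1)

/-- value of the functional `φ` at the left normed commutator in the order `τ` -/
noncomputable def Phi {n : ℕ} (φ : Equiv.Perm (Fin n) → ZMod 3) (τ : Equiv.Perm (Fin n)) : ZMod 3 :=
  ((xl n).map fun q => (q.1 : ZMod 3) * φ (τ * prm n q.2)).sum

/-- `1` if the symbol `s` is in one of the first three positions -/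
def A3 {n : ℕ} [NeZero n] (s : Fin n) (τ : Equiv.Perm (Fin n)) : ZMod 3 :=
  if τ 0 = s ∨ τ 1 = s ∨ τ 2 = s then 1 else 0

/-- `1` if the symbol `s` is in one of the positions `3, 4, 5` -/
def B3 {n : ℕ} [NeZero n] (s : Fin n) (τ : Equiv.Perm (Fin n)) : ZMod 3 :=
  if τ 3 = s ∨ τ 4 = s ∨ τ 5 = s then 1 else 0

/-- `1` on the last three symbols of seven -/
def Yq (s : Fin 7) : ZMod 3 := if 4 ≤ (s : ℕ) then 1 else 0

/-- the difference of the indicators of the first two positions -/
def dd {n : ℕ} [NeZero n] (s : Fin n) (τ : Equiv.Perm (Fin n)) : ZMod 3 :=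
  (if τ 0 = s then 1 else 0) - (if τ 1 = s then 1 else 0)

/-- the antisymmetric matrix attached to a formal combination -/
def Psi (D : LP 7) (p q : Fin 7) : ZMod 3 :=
  SM D (fun σ => sg σ * (A3 p σ * B3 q σ - A3 q σ * B3 p σ))

/-- embedding of permutations of six letters, fixing the last letter -/
def em6 (ρ : Equiv.Perm (Fin 6)) : Equiv.Perm (Fin 7) :=
  (finSuccEquivLast (n := 6)).symm.permCongr (Equiv.optionCongr ρ)

/-- the words `y ∘ σ` followed by `c` -/
def sn (y : Fin 6 → ℕ) (σ : Equiv.Perm (Fin 6)) (c : ℕ) : Fin 7 → ℕ :=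
  Fin.snoc (α := fun _ => ℕ) (fun j => y (σ j)) c

/-- the formal combination of `[[x₀,x₁,x₂],[x₃,x₄,x₅]]` -/
def wrdP : LP 6 :=
  [(1, 1), (-1, Equiv.swap 3 4), (-1, (Equiv.swap 3 5) * (Equiv.swap 4 5)),
   (1, Equiv.swap 3 5)]

/-- functions satisfying the relations of left normed commutators modulo `SC` -/
structure Good (G : (Fin 7 → ℕ) → ZMod 3) : Prop where
  /-- membership in `SS` -/
  rel1 : ∀ D : LP 6, wd 6 FreeGroup.of D ∈ SS → ∀ (y : Fin 6 → ℕ) (c : ℕ),
    SM D (fun σ => G (sn y σ c)) = 0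
  /-- antisymmetry of brackets of words of lengths four and three -/
  rel43 : ∀ y : Fin 7 → ℕ,
    ((adr [6,5,4]).map fun q => (q.1 : ZMod 3) * G (fun j => y ⟨([0,1,2,3] ++ q.2).getD j 0 % 7, Nat.mod_lt _ (by norm_num)⟩)).sum +
    ((adr [3,2,1,0]).map fun q => (q.1 : ZMod 3) * G (fun j => y ⟨([4,5,6] ++ q.2).getD j 0 % 7, Nat.mod_lt _ (by norm_num)⟩)).sum = 0
  /-- antisymmetry of brackets of words of lengths five and two -/
  rel52 : ∀ y : Fin 7 → ℕ,
    ((adr [6,5]).map fun q => (q.1 : ZMod 3) * G (fun j => y ⟨([0,1,2,3,4] ++ q.2).getD j 0 % 7, Nat.mod_lt _ (by norm_num)⟩)).sum +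
    ((adr [4,3,2,1,0]).map fun q => (q.1 : ZMod 3) * G (fun j => y ⟨([5,6] ++ q.2).getD j 0 % 7, Nat.mod_lt _ (by norm_num)⟩)).sum = 0

/-- the laws of the free group of rank five of the variety `[𝔘, 𝔈]` -/
def RW : Subgroup F where
  carrier := {g | ∀ (φ : F →* FreeGroup (Fin 5)) (ψ : FreeGroup (Fin 5) →* F), ψ (φ g) ∈ SC}
  one_mem' := by intro φ ψ; rw [map_one, map_one]; exact SC.one_mem
  mul_mem' := by intro a b ha hb φ ψ; rw [map_mul, map_mul]; exact SC.mul_mem (ha φ ψ) (hb φ ψ)
  inv_mem' := by intro a ha φ ψ; rw [map_inv, map_inv]; exact SC.inv_mem (ha φ ψ)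

end Pool.Agent.H53R3
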