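import Mathlib
import Pool.Agent.H53R3.Base

set_option autoImplicit false

/-!
Task Kv: the functional `evf` on products of left normed commutators.
-/

namespace Pool.Agent.H53R3

open scoped commutatorElement
open Pool.Agent.Helper429 (L X keep kill rnm er asc adr evP Cg pmul pneg er_map er_mem')

/-! ### permutations attached to the terms -/

lemma kv_exists_perm {n : ℕ} {l : List ℕ} (h1 : l.length = n) (h2 : l.Nodup) (h3 : ∀ x ∈ l, x < n) :
    ∃ π : Equiv.Perm (Fin n), l = List.ofFn (fun j : Fin n => (π j : ℕ)) := by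
  subst h1
  let f : Fin l.length → Fin l.length := fun j => ⟨l.get j, h3 _ (List.get_mem _ _)⟩
  have hf : Function.Injective f := by
    intro i j hij
    have : l.get i = l.get j := congrArg Fin.val hij
    exact (List.nodup_iff_injective_get.1 h2) this
  refine ⟨Equiv.ofBijective f (Finite.injective_iff_bijective.1 hf), ?_⟩
  exact (List.ofFn_get l).symm

lemma kv_prm_spec {n : ℕ} {l : List ℕ}
    (h : ∃ π : Equiv.Perm (Fin n), l = List.ofFn (fun j : Fin n => (π j : ℕ))) :
    l = List.ofFn (fun j : Fin n => (prm n l j : ℕ)) := by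
  unfold prm
  rw [dif_pos h]
  exact h.choose_spec

/-- the terms of `asc r` are rearrangements of `r` -/
lemma kv_asc_perm (r : List ℕ) : ∀ q ∈ asc r, q.2.Perm r := by
  induction r with
  | nil => simp [asc]
  | cons z r ih =>
    cases r with
    | nil =>
      intro q hq
      simp only [asc, List.mem_singleton] at hq
      rw [hq]
    | cons x r =>
      intro q hq
      simp only [asc, List.mem_append] at hq
      rcases hq with hq | hq
      · obtain ⟨q1, h1, h2⟩ := List.mem_flatMap.1 hq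
        obtain ⟨q2, h3, rfl⟩ := List.mem_map.1 h2
        rw [List.mem_singleton] at h3
        rw [h3]
        exact (List.perm_append_singleton z q1.2).trans ((ih q1 h1).cons z)
      · obtain ⟨q0, h0, rfl⟩ := List.mem_map.1 hq
        obtain ⟨q1, h1, h2⟩ := List.mem_flatMap.1 h0
        obtain ⟨q2, h3, rfl⟩ := List.mem_map.1 h2
        rw [List.mem_singleton] at h1
        rw [h1]
        exact (ih q2 h3).cons z

lemma kv_pmul_map (t : ℕ → ℕ) (E E' : List (ℤ × List ℕ)) :
    pmul (E.map fun q => (q.1, q.2.map t)) (E'.map fun q => (q.1, q.2.map t)) =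
      (pmul E E').map fun q => (q.1, q.2.map t) := by
  unfold pmul
  rw [List.map_flatMap, List.flatMap_map]
  congr 1
  funext q
  rw [List.map_map, List.map_map]
  congr 1
  funext q'
  simp

lemma kv_pneg_map (t : ℕ → ℕ) (E : List (ℤ × List ℕ)) :
    pneg (E.map fun q => (q.1, q.2.map t)) = (pneg E).map fun q => (q.1, q.2.map t) := by
  unfold pneg
  rw [List.map_map, List.map_map]
  rfl

lemma kv_asc_map (t : ℕ → ℕ) (r : List ℕ) :
    asc (r.map t) = (asc r).map fun q => (q.1, q.2.map t) := by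
  induction r with
  | nil => simp [asc]
  | cons z r ih =>
    cases r with
    | nil => simp [asc]
    | cons x r =>
      simp only [List.map_cons, asc] at ih ⊢
      rw [ih, List.map_append, ← kv_pneg_map, ← kv_pmul_map, ← kv_pmul_map]
      simp

lemma kv_rl_eq (n : ℕ) (s : Equiv.Perm (Fin n)) : rl n s = (rl n 1).map (tl n s) := by
  unfold rl
  rw [List.map_reverse, List.map_ofFn]
  congr 2
  funext j
  simp [tl]

lemma kv_rl_len (n : ℕ) (s : Equiv.Perm (Fin n)) : (rl n s).length = n := by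
  simp [rl]

lemma kv_xl_perm (n : ℕ) : ∀ q ∈ xl n, ∃ π : Equiv.Perm (Fin n),
    q.2 = List.ofFn (fun j : Fin n => (π j : ℕ)) := by
  intro q hq
  have h := kv_asc_perm _ q hq
  apply kv_exists_perm
  · rw [h.length_eq, kv_rl_len]
  · rw [h.nodup_iff]
    unfold rl
    rw [List.nodup_reverse, List.nodup_ofFn]
    intro i j hij
    exact Fin.ext hij
  · intro x hx
    have hx' := h.subset hx
    unfold rl at hx'
    rw [List.mem_reverse, List.mem_ofFn] at hx'
    obtain ⟨j, rfl⟩ := hx'
    exact j.2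

/-! ### representations -/

lemma kv_rep_er (r : List ℕ) (hr : r ≠ []) : Rep r.length (er FreeGroup.of r) (asc r) := by
  induction r with
  | nil => exact absurd rfl hr
  | cons z r ih =>
    cases r with
    | nil => exact Rep.gen z
    | cons x r =>
      have h1 := ih (by simp)
      exact Rep.comm h1 (Rep.gen z)

lemma kv_mon_ofFn {R : Type} [CommRing R] (s : ℕ → ℕ → R) {n : ℕ} (g : Fin n → ℕ) (i : ℕ) :
    mon s i (List.ofFn g) = ∏ j : Fin n, s (g j) (i + j) := by
  induction n generalizing i with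
  | zero => simp [mon]
  | succ n ih =>
    rw [List.ofFn_succ, mon, ih, Fin.prod_univ_succ]
    congr 1
    refine Finset.prod_congr rfl fun j _ => ?_
    rw [Fin.val_succ]
    congr 1
    ring

lemma kv_lam_er {R : Type} [CommRing R] {n : ℕ} (hn : 1 ≤ n) (hn7 : n ≤ 7)
    (s : Equiv.Perm (Fin n)) (w : ℕ → ℕ → R) : lam n (er FreeGroup.of (rl n s)) w =
      ((xl n).map fun q => (q.1 : R) * ∏ j : Fin n, w (s (prm n q.2 j)) j).sum := by
  have h0 : rl n s ≠ [] := by
    intro h
    have := kv_rl_len n s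
    rw [h] at this
    simp at this
    omega
  have h1 := kv_rep_er (rl n s) h0
  rw [kv_rl_len] at h1
  rw [lam_rep h1 hn7, kv_rl_eq, kv_asc_map]
  unfold pev
  rw [List.map_map]
  refine congrArg List.sum (List.map_congr_left ?_)
  intro q hq
  simp only [Function.comp]
  rw [zsmul_eq_mul]
  congr 1
  have h2 := kv_prm_spec (kv_xl_perm n q hq)
  conv_lhs => rw [h2]
  rw [List.map_ofFn, kv_mon_ofFn]
  refine Finset.prod_congr rfl fun j _ => ?_
  simp [tl]

lemma kv_sum_swap {ι α : Type*} [Fintype ι] {R : Type*} [AddCommMonoid R] (E : List α)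
    (f : α → ι → R) : (E.map fun q => ∑ τ, f q τ).sum = ∑ τ, (E.map fun q => f q τ).sum := by
  induction E with
  | nil => simp
  | cons q E ih => simp only [List.map_cons, List.sum_cons, ih, Finset.sum_add_distrib]

lemma kv_evf_er {n : ℕ} (hn : 1 ≤ n) (hn7 : n ≤ 7) (φ : Equiv.Perm (Fin n) → ZMod 3)
    (s : Equiv.Perm (Fin n)) (v : ℕ → ℕ → ZMod 3) :
    evf n φ (er FreeGroup.of (rl n s)) v =
      ∑ τ : Equiv.Perm (Fin n), (∏ x : Fin n, v x (τ x)) * Phi φ (τ * s) := by
  unfold evf
  have e1 : ∀ τ : Equiv.Perm (Fin n), φ τ * lam n (er FreeGroup.of (rl n s))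
      (fun x i => v x (tl n τ i)) = ((xl n).map fun q => (q.1 : ZMod 3) *
        (φ τ * ∏ j : Fin n, v (s (prm n q.2 j)) (τ j))).sum := by
    intro τ
    rw [kv_lam_er hn hn7, ← List.sum_map_mul_left]
    refine congrArg List.sum (List.map_congr_left ?_)
    intro q _
    simp only [tl_fin]
    ring
  rw [Finset.sum_congr rfl fun τ _ => e1 τ, ← kv_sum_swap]
  have e2 : ∀ τ : Equiv.Perm (Fin n), (∏ x : Fin n, v x (τ x)) * Phi φ (τ * s) =
      ((xl n).map fun q => (q.1 : ZMod 3) * ((∏ x : Fin n, v x (τ x)) *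
        φ (τ * s * prm n q.2))).sum := by
    intro τ
    unfold Phi
    rw [← List.sum_map_mul_left]
    refine congrArg List.sum (List.map_congr_left ?_)
    intro q _
    ring
  rw [Finset.sum_congr rfl fun τ _ => e2 τ, ← kv_sum_swap]
  refine congrArg List.sum (List.map_congr_left ?_)
  intro q _
  rw [← Finset.mul_sum, ← Finset.mul_sum]
  congr 1
  rw [← Equiv.sum_comp (Equiv.mulRight (s * prm n q.2))]
  refine Finset.sum_congr rfl fun τ _ => ?_
  simp only [Equiv.coe_mulRight]
  have e3 : ∏ j : Fin n, v (s (prm n q.2 j)) ((τ * (s * prm n q.2)) j) =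
      ∏ x : Fin n, v x (τ x) := by
    rw [← Equiv.prod_comp (s * prm n q.2) (fun x : Fin n => v x (τ x))]
    rfl
  rw [e3, mul_assoc]
  ring

lemma kv_evf_zpow {n : ℕ} (φ : Equiv.Perm (Fin (n + 1)) → ZMod 3) (hn : n < 7) {a : F}
    (ha : a ∈ L F n) (k : ℤ) (v : ℕ → ℕ → ZMod 3) :
    evf (n + 1) φ (a ^ k) v = (k : ZMod 3) * evf (n + 1) φ a v := by
  have h : ∀ m : ℕ, evf (n + 1) φ (a ^ m) v = (m : ZMod 3) * evf (n + 1) φ a v := by
    intro m
    induction m with
    | zero => rw [pow_zero, evf_one]; simp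
    | succ m ih =>
      rw [pow_succ, evf_mul φ hn (Subgroup.pow_mem _ ha m) ha, ih]
      push_cast
      ring
  cases k with
  | ofNat m =>
    rw [Int.ofNat_eq_natCast, zpow_natCast, h m]
    push_cast
    rfl
  | negSucc m =>
    rw [zpow_negSucc, evf_inv φ hn (Subgroup.pow_mem _ ha _), h (m + 1), Int.negSucc_eq]
    push_cast
    ring

theorem evf_wd {n : ℕ} (hn : 1 ≤ n) (hn7 : n ≤ 7) (φ : Equiv.Perm (Fin n) → ZMod 3) (D : LP n)
    (v : ℕ → ℕ → ZMod 3) : evf n φ (wd n FreeGroup.of D) v =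
      ∑ τ : Equiv.Perm (Fin n), (∏ x : Fin n, v x (τ x)) * SM D (fun σ => Phi φ (τ * σ)) := by
  obtain ⟨m, rfl⟩ : ∃ m, n = m + 1 := ⟨n - 1, by omega⟩
  have hL : ∀ s : Equiv.Perm (Fin (m + 1)), er FreeGroup.of (rl (m + 1) s) ∈ L F m := fun s =>
    er_mem' _ (kv_rl_len (m + 1) s)
  have hw : ∀ D : LP (m + 1), wd (m + 1) FreeGroup.of D ∈ L F m := by
    intro D
    unfold wd
    apply Subgroup.list_prod_mem
    intro g hg
    obtain ⟨q, _, rfl⟩ := List.mem_map.1 hg
    exact Subgroup.zpow_mem _ (hL q.2) _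
  induction D with
  | nil =>
    have : wd (m + 1) FreeGroup.of ([] : LP (m + 1)) = (1 : F) := by simp [wd]
    rw [this, evf_one]
    symm
    apply Finset.sum_eq_zero
    intro τ _
    simp [SM]
  | cons q D ih =>
    have e1 : wd (m + 1) FreeGroup.of (q :: D) =
        (er FreeGroup.of (rl (m + 1) q.2) : F) ^ q.1 * wd (m + 1) FreeGroup.of D := by
      simp [wd]
    rw [e1, evf_mul φ (by omega) (Subgroup.zpow_mem _ (hL q.2) _) (hw D), ih,
      kv_evf_zpow φ (by omega) (hL q.2), kv_evf_er hn hn7, Finset.mul_sum,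
      ← Finset.sum_add_distrib]
    refine Finset.sum_congr rfl fun τ _ => ?_
    simp only [SM, List.map_cons, List.sum_cons]
    ring

end Pool.Agent.H53R3
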