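import Mathlib
import Pool.Agent.H53R3.Base

set_option autoImplicit false

/-!
Normal forms of words involving all letters of a finite set.
-/

namespace Pool.Agent.H53R3

open scoped commutatorElement
open Pool.Agent.Helper429 (L X keep kill rnm er asc adr evP Cg)
open Pool.Agent.Helper429 (comm_mem_L L_anti Cg_iff Cg_mul_left Cg_mul_right Cg_congr_left
  Cg_congr_right Cg_zpow_left Cg_comm er_mem er_mem' evP_cons evP_append evP_mem expand er_bl PP)

theorem X_mem_L {T : Finset ℕ} {g : F} (h : X T g) {k : ℕ} (hk : k + 1 ≤ T.card) : g ∈ L F k := by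
  induction h generalizing k with
  | triv g => simp at hk
  | gen i =>
    rw [Finset.card_singleton] at hk
    obtain rfl : k = 0 := by omega
    exact Subgroup.mem_top _
  | one T => exact Subgroup.one_mem _
  | mul _ _ iha ihb => exact Subgroup.mul_mem _ (iha hk) (ihb hk)
  | inv _ iha => exact Subgroup.inv_mem _ (iha hk)
  | @comm S T a b ha hb iha ihb =>
    rcases Finset.eq_empty_or_nonempty S with rfl | hS
    · rw [Finset.empty_union] at hk
      exact comm_mem_L (i := 0) (Subgroup.mem_top a) (ihb hk) (by omega)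
    · rcases Finset.eq_empty_or_nonempty T with rfl | hT
      · rw [Finset.union_empty] at hk
        exact comm_mem_L (j := 0) (iha hk) (Subgroup.mem_top b) (by omega)
      · have h1 := Finset.card_pos.2 hS
        have h2 := Finset.card_pos.2 hT
        have h3 := Finset.card_union_le S T
        exact comm_mem_L (iha (k := S.card - 1) (by omega)) (ihb (k := T.card - 1) (by omega))
          (by omega)

lemma nf_len_rl {n : ℕ} (σ : Equiv.Perm (Fin n)) : (rl n σ).length = n := by
  simp [rl]

theorem wd_mem_L {n : ℕ} (hn : 1 ≤ n) {G : Type*} [Group G] (y : ℕ → G) (D : LP n) :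
    wd n y D ∈ L G (n - 1) := by
  unfold wd
  apply Subgroup.list_prod_mem
  intro g hg
  rw [List.mem_map] at hg
  obtain ⟨q, _, rfl⟩ := hg
  exact Subgroup.zpow_mem _ (er_mem' y (by rw [nf_len_rl]; omega)) _

lemma nf_Cg_zpow_right {G : Type*} [Group G] {i j n : ℕ} {a c : G} (ha : a ∈ L G i) (hc : c ∈ L G j)
    (h : n ≤ i + j + 2) (k : ℤ) : Cg n ⁅c, a ^ k⁆ (⁅c, a⁆ ^ k) := by
  have h1 := (Cg_zpow_left ha hc h k).inv
  rw [commutatorElement_inv, ← inv_zpow, commutatorElement_inv] at h1
  exact h1

/-- `g` is modulo `L F T.card` a product of left normed commutators in the letters of `T` -/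
def nfp (T : Finset ℕ) (g : F) : Prop :=
  ∃ D : List (ℤ × List ℕ), Cg T.card g (evP FreeGroup.of D) ∧
    ∀ q ∈ D, q.2.Nodup ∧ q.2.toFinset = T

lemma nf_len {T : Finset ℕ} {D : List (ℤ × List ℕ)} (h : ∀ q ∈ D, q.2.Nodup ∧ q.2.toFinset = T) :
    ∀ q ∈ D, q.2.length = T.card := by
  intro q hq
  rw [← (h q hq).2, List.toFinset_card_of_nodup (h q hq).1]

lemma nfp_one {T : Finset ℕ} : nfp T 1 := ⟨[], Cg.refl _ _, by simp⟩

lemma nfp_congr {T : Finset ℕ} {g g' : F} (h : Cg T.card g g') (h' : nfp T g') : nfp T g := by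
  obtain ⟨D, h1, h2⟩ := h'
  exact ⟨D, h.trans h1, h2⟩

lemma nfp_mul {T : Finset ℕ} {a b : F} (ha : nfp T a) (hb : nfp T b) : nfp T (a * b) := by
  obtain ⟨D, h1, h2⟩ := ha
  obtain ⟨E, h3, h4⟩ := hb
  refine ⟨D ++ E, ?_, ?_⟩
  · rw [evP_append]; exact h1.mul h3
  · intro q hq
    rcases List.mem_append.1 hq with h | h
    · exact h2 q h
    · exact h4 q h

/-- elements of `L F (n-1)` commute modulo `L F n` -/
lemma nf_comm {n : ℕ} {a b : F} (ha : a ∈ L F (n - 1)) (hb : b ∈ L F (n - 1)) :
    Cg n (a * b) (b * a) := by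
  rcases Nat.eq_zero_or_pos n with rfl | hn
  · rw [Cg_iff]; exact Subgroup.mem_top _
  · exact Cg_comm ha hb (by omega)

lemma nf_scale {n : ℕ} (c : ℤ) {D : List (ℤ × List ℕ)} (hD : ∀ q ∈ D, q.2.length = n) :
    Cg n ((evP (FreeGroup.of : ℕ → F) D) ^ c) (evP FreeGroup.of (D.map (fun q => (c * q.1, q.2)))) := by
  induction D with
  | nil => simp only [evP, List.map_nil, List.prod_nil, one_zpow]; exact Cg.refl _ _
  | cons q D ih =>
    have ih' := ih (fun q hq => hD q (List.mem_cons_of_mem _ hq))
    rcases Nat.eq_zero_or_pos n with rfl | hn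
    · rw [Cg_iff]; exact Subgroup.mem_top _
    rw [List.map_cons, evP_cons, evP_cons]
    have h1 : er (FreeGroup.of : ℕ → F) q.2 ^ q.1 ∈ L F (n - 1) :=
      Subgroup.zpow_mem _ (er_mem' _ (by rw [hD q List.mem_cons_self]; omega)) _
    have h2 : evP (FreeGroup.of : ℕ → F) D ∈ L F (n - 1) :=
      evP_mem _ (fun q hq => by rw [hD q (List.mem_cons_of_mem _ hq)]; omega)
    have h3 : Commute (QuotientGroup.mk' (L F n) (er (FreeGroup.of : ℕ → F) q.2 ^ q.1))
        (QuotientGroup.mk' (L F n) (evP (FreeGroup.of : ℕ → F) D)) := by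
      have := nf_comm h1 h2
      unfold Cg at this
      rw [map_mul, map_mul] at this
      exact this
    unfold Cg at ih' ⊢
    rw [map_zpow, map_mul, h3.mul_zpow, map_mul, ← ih', map_zpow, map_zpow, map_zpow, ← zpow_mul,
      mul_comm c]

lemma nfp_zpow {T : Finset ℕ} {a : F} (ha : nfp T a) (c : ℤ) : nfp T (a ^ c) := by
  obtain ⟨D, h1, h2⟩ := ha
  refine ⟨D.map (fun q => (c * q.1, q.2)), (h1.zpow c).trans (nf_scale c (nf_len h2)), ?_⟩
  intro q hq
  rw [List.mem_map] at hq
  obtain ⟨p, hp, rfl⟩ := hq
  exact h2 p hp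

lemma nf_adr_perm (r : List ℕ) : ∀ q ∈ adr r, q.2.Perm r := by
  induction r with
  | nil => intro q hq; simp [adr] at hq
  | cons z r ih =>
    cases r with
    | nil => intro q hq; simp [adr] at hq; subst hq; exact List.Perm.refl _
    | cons x r =>
      intro q hq
      simp only [adr, List.mem_append, List.mem_map] at hq
      rcases hq with ⟨p, hp, rfl⟩ | ⟨p, hp, rfl⟩
      · have h1 := ih p hp
        have h2 : (p.2 ++ [z]).Perm (z :: p.2) := by
          simpa using (List.perm_append_comm (l₁ := p.2) (l₂ := [z]))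
        exact h2.trans (h1.cons z)
      · exact (ih p hp).cons z

/-- bracket of two left normed commutators -/
lemma nfp_er {S T : Finset ℕ} (hST : Disjoint S T) {u v : List ℕ} (hu : u.Nodup)
    (hu' : u.toFinset = S) (hv : v.Nodup) (hv' : v.toFinset = T) (hS : S.Nonempty)
    (hT : T.Nonempty) :
    nfp (S ∪ T) ⁅er (FreeGroup.of : ℕ → F) u, er (FreeGroup.of : ℕ → F) v⁆ := by
  cases u with
  | nil => simp at hu'; subst hu'; simp at hS
  | cons x r =>
    cases v with
    | nil => simp at hv'; subst hv'; simp at hT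
    | cons x' r' =>
      have h1 := er_mem (FreeGroup.of : ℕ → F) x r
      have c1 : S.card = r.length + 1 := by
        rw [← hu', List.toFinset_card_of_nodup hu, List.length_cons]
      have c2 : T.card = r'.length + 1 := by
        rw [← hv', List.toFinset_card_of_nodup hv, List.length_cons]
      have c3 : (S ∪ T).card = r.length + r'.length + 2 := by
        rw [Finset.card_union_of_disjoint hST, c1, c2]; omega
      have h2 := expand (FreeGroup.of : ℕ → F) x' r' h1 (n := (S ∪ T).card) (by omega)
      refine ⟨(adr (x' :: r')).map (fun q => (q.1, q.2.reverse ++ (x :: r))), ?_, ?_⟩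
      · refine h2.trans ?_
        have h3 : PP (FreeGroup.of : ℕ → F) (er FreeGroup.of (x :: r)) (adr (x' :: r')) =
            evP FreeGroup.of ((adr (x' :: r')).map (fun q => (q.1, q.2.reverse ++ (x :: r)))) := by
          unfold PP evP
          rw [List.map_map]
          congr 1
          apply List.map_congr_left
          intro q hq
          simp only [Function.comp]
          rw [er_bl]
        rw [h3]
        exact Cg.refl _ _
      · intro q hq
        rw [List.mem_map] at hq
        obtain ⟨p, hp, rfl⟩ := hq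
        have h4 := nf_adr_perm _ p hp
        have h5 : (p.2.reverse ++ (x :: r)).Perm ((x' :: r') ++ (x :: r)) :=
          List.Perm.append ((List.reverse_perm _).trans h4) (List.Perm.refl _)
        constructor
        · show (p.2.reverse ++ (x :: r)).Nodup
          rw [h5.nodup_iff, List.nodup_append]
          refine ⟨hv, hu, ?_⟩
          intro a ha b hb hab
          subst hab
          rw [Finset.disjoint_left] at hST
          apply hST (a := a)
          · rw [← hu', List.mem_toFinset]; exact hb
          · rw [← hv', List.mem_toFinset]; exact ha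
        · show (p.2.reverse ++ (x :: r)).toFinset = S ∪ T
          rw [List.toFinset_eq_of_perm _ _ h5, List.toFinset_append, hu', hv', Finset.union_comm]

/-- bracket of products of left normed commutators -/
lemma nfp_evP {S T : Finset ℕ} (hST : Disjoint S T) {D E : List (ℤ × List ℕ)}
    (hD : ∀ q ∈ D, q.2.Nodup ∧ q.2.toFinset = S) (hE : ∀ q ∈ E, q.2.Nodup ∧ q.2.toFinset = T)
    (hS : S.Nonempty) (hT : T.Nonempty) :
    nfp (S ∪ T) ⁅evP (FreeGroup.of : ℕ → F) D, evP (FreeGroup.of : ℕ → F) E⁆ := by
  have c1 := Finset.card_pos.2 hS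
  have c2 := Finset.card_pos.2 hT
  have c3 : (S ∪ T).card = (S.card - 1) + (T.card - 1) + 2 := by
    rw [Finset.card_union_of_disjoint hST]; omega
  have mE : evP (FreeGroup.of : ℕ → F) E ∈ L F (T.card - 1) :=
    evP_mem _ (fun q hq => by rw [nf_len hE q hq]; omega)
  induction D with
  | nil =>
    have : evP (FreeGroup.of : ℕ → F) [] = 1 := rfl
    rw [this, commutatorElement_one_left]
    exact nfp_one
  | cons q D ih =>
    have ih' := ih (fun q hq => hD q (List.mem_cons_of_mem _ hq))
    have m1 : er (FreeGroup.of : ℕ → F) q.2 ∈ L F (S.card - 1) :=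
      er_mem' _ (by rw [nf_len hD q List.mem_cons_self]; omega)
    have m2 : evP (FreeGroup.of : ℕ → F) D ∈ L F (S.card - 1) :=
      evP_mem _ (fun q hq => by rw [nf_len hD q (List.mem_cons_of_mem _ hq)]; omega)
    rw [evP_cons]
    refine nfp_congr (Cg_mul_left m2 (Subgroup.zpow_mem _ m1 _) mE (by omega)) ?_
    refine nfp_mul ?_ ih'
    refine nfp_congr (Cg_zpow_left m1 mE (by omega) _) ?_
    refine nfp_zpow ?_ _
    clear ih ih' mE
    induction E with
    | nil =>
      have : evP (FreeGroup.of : ℕ → F) [] = 1 := rfl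
      rw [this, commutatorElement_one_right]
      exact nfp_one
    | cons p E ihE =>
      have ih' := ihE (fun q hq => hE q (List.mem_cons_of_mem _ hq))
      have m3 : er (FreeGroup.of : ℕ → F) p.2 ∈ L F (T.card - 1) :=
        er_mem' _ (by rw [nf_len hE p List.mem_cons_self]; omega)
      have m4 : evP (FreeGroup.of : ℕ → F) E ∈ L F (T.card - 1) :=
        evP_mem _ (fun q hq => by rw [nf_len hE q (List.mem_cons_of_mem _ hq)]; omega)
      rw [evP_cons]
      refine nfp_congr (Cg_mul_right m1 (Subgroup.zpow_mem _ m3 _) m4 (by omega)) ?_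
      refine nfp_mul ?_ ih'
      refine nfp_congr (nf_Cg_zpow_right m3 m1 (by omega) _) ?_
      refine nfp_zpow ?_ _
      exact nfp_er hST (hD q List.mem_cons_self).1 (hD q List.mem_cons_self).2
        (hE p List.mem_cons_self).1 (hE p List.mem_cons_self).2 hS hT

lemma nfp_of_mem {T : Finset ℕ} {g : F} (h : g ∈ L F T.card) : nfp T g := by
  apply nfp_congr _ nfp_one
  apply Cg.symm
  rw [Cg_iff]
  simpa using h

lemma X_nfp {T : Finset ℕ} {g : F} (h : X T g) (hT : T.Nonempty) : nfp T g := by
  induction h with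
  | triv g => simp at hT
  | gen i =>
    refine ⟨[(1, [i])], ?_, ?_⟩
    · simp only [evP, List.map_cons, List.map_nil, List.prod_cons, List.prod_nil, er, zpow_one,
        mul_one]
      exact Cg.refl _ _
    · intro q hq
      simp at hq
      subst hq
      simp
  | one T => exact nfp_one
  | mul _ _ iha ihb => exact nfp_mul (iha hT) (ihb hT)
  | inv _ iha => simpa using nfp_zpow (iha hT) (-1)
  | @comm S T a b ha hb iha ihb =>
    rcases Finset.eq_empty_or_nonempty S with rfl | hS
    · rw [Finset.empty_union] at hT ⊢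
      apply nfp_of_mem
      have := Finset.card_pos.2 hT
      exact comm_mem_L (i := 0) (Subgroup.mem_top a) (X_mem_L hb (k := T.card - 1) (by omega))
        (by omega)
    · rcases Finset.eq_empty_or_nonempty T with rfl | hT'
      · rw [Finset.union_empty] at hT ⊢
        apply nfp_of_mem
        have := Finset.card_pos.2 hT
        exact comm_mem_L (j := 0) (X_mem_L ha (k := S.card - 1) (by omega)) (Subgroup.mem_top b)
          (by omega)
      · have h1 := Finset.card_pos.2 hS
        have h2 := Finset.card_pos.2 hT'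
        have ma := X_mem_L ha (k := S.card - 1) (by omega)
        have mb := X_mem_L hb (k := T.card - 1) (by omega)
        by_cases hd : Disjoint S T
        · obtain ⟨D, hD, hD'⟩ := iha hS
          obtain ⟨E, hE, hE'⟩ := ihb hT'
          have c3 : (S ∪ T).card = (S.card - 1) + (T.card - 1) + 2 := by
            rw [Finset.card_union_of_disjoint hd]; omega
          have mD : evP (FreeGroup.of : ℕ → F) D ∈ L F (S.card - 1) :=
            evP_mem _ (fun q hq => by rw [nf_len hD' q hq]; omega)
          have e1 : S.card - 1 + 1 = S.card := by omega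
          have e2 : T.card - 1 + 1 = T.card := by omega
          refine nfp_congr (Cg_congr_left (n := (S ∪ T).card) ma (by rw [e1]; exact hD) mb
            (by omega)) ?_
          refine nfp_congr (Cg_congr_right (n := (S ∪ T).card) mb (by rw [e2]; exact hE) mD
            (by omega)) ?_
          exact nfp_evP hd hD' hE' hS hT'
        · apply nfp_of_mem
          have h3 : (S ∪ T).card + (S ∩ T).card = S.card + T.card := Finset.card_union_add_card_inter S T
          have h4 : 0 < (S ∩ T).card := by
            rw [Finset.card_pos, Finset.nonempty_iff_ne_empty]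
            intro h
            exact hd (Finset.disjoint_iff_inter_eq_empty.2 h)
          exact comm_mem_L ma mb (by omega)

lemma nf_exists_perm {n : ℕ} {l : List ℕ} (h1 : l.length = n) (h2 : l.Nodup)
    (h3 : ∀ x ∈ l, x < n) :
    ∃ π : Equiv.Perm (Fin n), l = List.ofFn (fun j : Fin n => (π j : ℕ)) := by
  have hb : ∀ j : Fin n, l[(j : ℕ)]'(by omega) < n := fun j => h3 _ (List.getElem_mem _)
  let g : Fin n → Fin n := fun j => ⟨l[(j : ℕ)]'(by omega), hb j⟩
  have hinj : Function.Injective g := by
    intro a b hab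
    have h4 : l[(a : ℕ)]'(by omega) = l[(b : ℕ)]'(by omega) := congrArg Fin.val hab
    exact Fin.ext ((List.Nodup.getElem_inj_iff h2).1 h4)
  refine ⟨Equiv.ofBijective g (Finite.injective_iff_bijective.1 hinj), ?_⟩
  apply List.ext_getElem
  · simp [h1]
  · intro i hi hi'
    rw [List.getElem_ofFn]
    rfl

lemma nf_exists_rl {n : ℕ} {l : List ℕ} (h1 : l.Nodup) (h2 : l.toFinset = Finset.range n) :
    ∃ π : Equiv.Perm (Fin n), l = rl n π := by
  have h3 : l.length = n := by
    rw [← List.toFinset_card_of_nodup h1, h2, Finset.card_range]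
  obtain ⟨π, hπ⟩ := nf_exists_perm (n := n) (l := l.reverse) (by simpa using h3)
    (List.nodup_reverse.2 h1) (by
      intro x hx
      rw [List.mem_reverse, ← List.mem_toFinset, h2, Finset.mem_range] at hx
      exact hx)
  refine ⟨π, ?_⟩
  unfold rl
  rw [← hπ, List.reverse_reverse]

theorem X_nf {n : ℕ} (hn : 1 ≤ n) {g : F} (h : X (Finset.range n) g) :
    ∃ D : LP n, Cg n g (wd n FreeGroup.of D) := by
  obtain ⟨D, h1, h2⟩ := X_nfp h (Finset.nonempty_range_iff.2 (by omega))
  rw [Finset.card_range] at h1
  choose! f hf using fun (l : List ℕ) (h : l.Nodup ∧ l.toFinset = Finset.range n) =>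
    nf_exists_rl h.1 h.2
  refine ⟨D.map (fun q => (q.1, f q.2)), ?_⟩
  have e : wd n (FreeGroup.of : ℕ → F) (D.map (fun q => (q.1, f q.2))) = evP FreeGroup.of D := by
    unfold wd evP
    rw [List.map_map]
    congr 1
    apply List.map_congr_left
    intro q hq
    simp only [Function.comp]
    rw [← hf q.2 (h2 q hq)]
  rw [e]
  exact h1

end Pool.Agent.H53R3
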