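import Mathlib
import Pool.Agent.H53R3.Kv

set_option autoImplicit false

/-!
Task Ph7: the functionals of degree seven, finite verifications.
-/

namespace Pool.Agent.H53R3

open scoped commutatorElement
open Pool.Agent.Helper429 (asc sgL pt allP mem_allP cast_eq_of_mod)

/-- the inversion sign as a double product -/
lemma ph7_sgL {n : ℕ} (f : Fin n → ℕ) :
    sgL (List.ofFn f) = ∏ i, ∏ j ∈ Finset.Ioi i, (if f i < f j then (1 : ℤ) else -1) := by
  induction n with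
  | zero => simp [sgL]
  | succ n ih =>
    rw [List.ofFn_succ, sgL, ih, Fin.prod_univ_succ, Fin.prod_Ioi_zero, List.map_ofFn,
      List.prod_ofFn]
    congr 1
    refine Finset.prod_congr rfl fun i _ => ?_
    rw [Fin.prod_Ioi_succ]

lemma ph7_sgL_perm {n : ℕ} (π : Equiv.Perm (Fin n)) :
    sgL (List.ofFn fun j : Fin n => (π j : ℕ)) = (Equiv.Perm.sign π : ℤ) := by
  rw [ph7_sgL, Equiv.Perm.sign_eq_prod_prod_Ioi]
  push_cast
  refine Finset.prod_congr rfl fun i _ => Finset.prod_congr rfl fun j _ => ?_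
  simp only [Fin.val_fin_lt]
  split_ifs <;> rfl

/-- the basic word of length seven -/
def l7 : List ℕ := [6, 5, 4, 3, 2, 1, 0]

lemma ph7_xl : xl 7 = asc l7 := by
  unfold xl rl
  congr 1

lemma ph7_sg_mul {n : ℕ} (τ ω : Equiv.Perm (Fin n)) : sg (τ * ω) = sg τ * sg ω := by
  simp [sg, Equiv.Perm.sign_mul]

lemma ph7_lt : ∀ q ∈ asc l7, ∀ x ∈ q.2, x < 7 := by
  intro q hq x hx
  have h := (kv_asc_perm _ q hq).subset hx
  simp [l7] at h
  omega

def KP (η : ℕ → ℕ) : ℤ := ((asc l7).map fun q => q.1 * (sgL q.2 * hp (q.2.map η))).sum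

def KQ (η : ℕ → ℕ) : ℤ := ((asc l7).map fun q => q.1 * hq (q.2.map η)).sum

def patP : List (List ℕ) := (allP 7).filter fun l => l.count 0 == 1 && l.count 1 == 1

def patQ : List (List ℕ) := (allP 7).filter fun l => l.count 0 == 4 && l.count 1 == 3

def iA (s : ℕ) (l : List ℕ) : ℤ :=
  if l.getD 0 0 = s ∨ l.getD 1 0 = s ∨ l.getD 2 0 = s then 1 else 0

def iB (s : ℕ) (l : List ℕ) : ℤ :=
  if l.getD 3 0 = s ∨ l.getD 4 0 = s ∨ l.getD 5 0 = s then 1 else 0

lemma chkP : patP.all (fun l => decide ((KP (pt l) - (iA 0 l * iB 1 l - iA 1 l * iB 0 l)) % 3 = 0))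
    = true := by
  decide +kernel

lemma chkQ : patQ.all (fun l => decide ((KQ (pt l) -
    ((l.getD 0 0 : ℤ) - (l.getD 1 0 : ℤ)) * (1 - (l.getD 6 0 : ℤ))) % 3 = 0)) = true := by
  decide +kernel

/-- the pattern list -/
def pll (k : ℕ → ℕ) (τ : Equiv.Perm (Fin 7)) : List ℕ := List.ofFn fun j : Fin 7 => k (τ j : ℕ)

lemma pll_perm (k : ℕ → ℕ) (τ : Equiv.Perm (Fin 7)) :
    (pll k τ).Perm (List.ofFn fun j : Fin 7 => k (j : ℕ)) := by
  have h1 := Equiv.Perm.ofFn_comp_perm τ (fun j : Fin 7 => k (j : ℕ))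
  exact h1

lemma pll_getD (k : ℕ → ℕ) (τ : Equiv.Perm (Fin 7)) (j : Fin 7) :
    (pll k τ).getD j 0 = k (τ j) := by
  unfold pll
  rw [List.getD_eq_getElem _ _ (by simp), List.getElem_ofFn]

lemma pt_pll (k : ℕ → ℕ) (τ : Equiv.Perm (Fin 7)) {x : ℕ} (hx : x < 7) :
    pt (pll k τ) x = k (tl 7 τ x) := by
  have h := pll_getD k τ ⟨x, hx⟩
  unfold pt
  simp only at h
  rw [h]
  simp [tl, hx]

lemma patP_mem (τ : Equiv.Perm (Fin 7)) : pll kp τ ∈ patP := by
  have hperm := pll_perm kp τ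
  have e : (List.ofFn fun j : Fin 7 => kp (j : ℕ)) = [0, 1, 2, 2, 2, 2, 2] := by decide
  rw [e] at hperm
  unfold patP
  rw [List.mem_filter]
  constructor
  · apply mem_allP
    · simp [pll]
    · intro x hx
      have := hperm.subset hx
      simp at this
      omega
  · rw [hperm.count_eq, hperm.count_eq]
    decide

lemma patQ_mem (τ : Equiv.Perm (Fin 7)) : pll kq τ ∈ patQ := by
  have hperm := pll_perm kq τ
  have e : (List.ofFn fun j : Fin 7 => kq (j : ℕ)) = [0, 0, 0, 0, 1, 1, 1] := by decide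
  rw [e] at hperm
  unfold patQ
  rw [List.mem_filter]
  constructor
  · apply mem_allP
    · simp [pll]
    · intro x hx
      have := hperm.subset hx
      simp at this
      omega
  · rw [hperm.count_eq, hperm.count_eq]
    decide

lemma ph7_map_eq (k : ℕ → ℕ) (τ : Equiv.Perm (Fin 7)) {q : ℤ × List ℕ} (hq : q ∈ xl 7) :
    (List.ofFn fun j : Fin 7 => k ((τ * prm 7 q.2) j : ℕ)) = q.2.map (pt (pll k τ)) := by
  have hp := kv_prm_spec (kv_xl_perm 7 q hq)
  conv_rhs => rw [hp, List.map_ofFn]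
  congr 1
  funext j
  simp only [Function.comp]
  rw [pt_pll k τ (Fin.is_lt _), tl_fin]
  rfl

lemma ph7_cast {a b : ℤ} (h : (a - b) % 3 = 0) : ((a : ℤ) : ZMod 3) = ((b : ℤ) : ZMod 3) :=
  cast_eq_of_mod h

lemma kp_zero (x : Fin 7) : kp (x : ℕ) = 0 ↔ x = 0 := by
  revert x; decide

lemma kp_one (x : Fin 7) : kp (x : ℕ) = 1 ↔ x = 1 := by
  revert x; decide

theorem Phi_fp (τ : Equiv.Perm (Fin 7)) :
    Phi fp τ = sg τ * (A3 0 τ * B3 1 τ - A3 1 τ * B3 0 τ) := by
  have h1 : Phi fp τ = sg τ * ((KP (pt (pll kp τ)) : ℤ) : ZMod 3) := by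
    unfold Phi KP
    rw [← ph7_xl]
    push_cast
    rw [← List.sum_map_mul_left, List.map_map]
    refine congrArg List.sum (List.map_congr_left ?_)
    intro q hq
    have hp := kv_prm_spec (kv_xl_perm 7 q hq)
    simp only [Function.comp]
    have e1 : sgL q.2 = (Equiv.Perm.sign (prm 7 q.2) : ℤ) := by
      conv_lhs => rw [hp]
      exact ph7_sgL_perm _
    have e2 := ph7_map_eq kp τ hq
    rw [e1, ← e2]
    unfold fp
    rw [ph7_sg_mul]
    push_cast
    ring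
  have h2 := chkP
  rw [List.all_eq_true] at h2
  have h3 := ph7_cast (of_decide_eq_true (h2 _ (patP_mem τ)))
  rw [h1]
  refine congrArg (fun z : ZMod 3 => sg τ * z) ?_
  rw [h3]
  have g : ∀ j : Fin 7, (pll kp τ).getD j 0 = kp (τ j) := pll_getD kp τ
  have g0 := g 0
  have g1 := g 1
  have g2 := g 2
  have g3 := g 3
  have g4 := g 4
  have g5 := g 5
  have hA : ∀ (s : Fin 7) (s' : ℕ), (∀ x : Fin 7, kp (x : ℕ) = s' ↔ x = s) →
      ((iA s' (pll kp τ) : ℤ) : ZMod 3) = A3 s τ := by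
    intro s s' hs
    unfold iA A3
    have g0' : (pll kp τ).getD 0 0 = kp (τ 0) := g0
    have g1' : (pll kp τ).getD 1 0 = kp (τ 1) := g1
    have g2' : (pll kp τ).getD 2 0 = kp (τ 2) := g2
    rw [g0', g1', g2']
    simp only [hs]
    split_ifs <;> simp
  have hB : ∀ (s : Fin 7) (s' : ℕ), (∀ x : Fin 7, kp (x : ℕ) = s' ↔ x = s) →
      ((iB s' (pll kp τ) : ℤ) : ZMod 3) = B3 s τ := by
    intro s s' hs
    unfold iB B3
    have g0' : (pll kp τ).getD 3 0 = kp (τ 3) := g3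
    have g1' : (pll kp τ).getD 4 0 = kp (τ 4) := g4
    have g2' : (pll kp τ).getD 5 0 = kp (τ 5) := g5
    rw [g0', g1', g2']
    simp only [hs]
    split_ifs <;> simp
  push_cast
  rw [hA 0 0 kp_zero, hA 1 1 kp_one, hB 0 0 kp_zero, hB 1 1 kp_one]

lemma Yq_kq (x : Fin 7) : Yq x = ((kq (x : ℕ) : ℕ) : ZMod 3) := by
  revert x; decide

theorem Phi_fq (τ : Equiv.Perm (Fin 7)) :
    Phi fq τ = (Yq (τ 0) - Yq (τ 1)) * (1 - Yq (τ 6)) := by
  have h1 : Phi fq τ = ((KQ (pt (pll kq τ)) : ℤ) : ZMod 3) := by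
    unfold Phi KQ
    rw [← ph7_xl]
    push_cast
    rw [List.map_map]
    refine congrArg List.sum (List.map_congr_left ?_)
    intro q hq
    simp only [Function.comp]
    have e2 := ph7_map_eq kq τ hq
    rw [← e2]
    unfold fq
    push_cast
    ring
  have h2 := chkQ
  rw [List.all_eq_true] at h2
  have h3 := ph7_cast (of_decide_eq_true (h2 _ (patQ_mem τ)))
  rw [h1, h3]
  have g0 : (pll kq τ).getD 0 0 = kq (τ 0) := pll_getD kq τ 0
  have g1 : (pll kq τ).getD 1 0 = kq (τ 1) := pll_getD kq τ 1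
  have g6 : (pll kq τ).getD 6 0 = kq (τ 6) := pll_getD kq τ 6
  rw [g0, g1, g6, Yq_kq, Yq_kq, Yq_kq]
  push_cast
  ring

end Pool.Agent.H53R3
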