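import Mathlib
import Pool.Agent.H53R3.Kv
import Pool.Agent.H53R3.Nf
import Pool.Agent.H53R3.Ph7

set_option autoImplicit false

/-!
Task Crit: a criterion for membership in `SS`.
-/

namespace Pool.Agent.H53R3

open scoped commutatorElement
open Pool.Agent.Helper429 (L X keep kill rnm er asc adr evP Cg Cg_mul_left Cg_zpow_left Cg_iff
  comm_mem_L map_er er_mem')

/-! ### words -/

lemma crit_er_congr {G : Type*} [Group G] {y y' : ℕ → G} {r : List ℕ} (h : ∀ j ∈ r, y j = y' j) :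
    er y r = er y' r := by
  induction r with
  | nil => rfl
  | cons z r ih =>
    cases r with
    | nil => simp only [er]; exact h z (by simp)
    | cons x r =>
      simp only [er]
      rw [ih (fun j hj => h j (List.mem_cons_of_mem _ hj)), h z (by simp)]

lemma crit_rl_lt {n : ℕ} (σ : Equiv.Perm (Fin n)) {j : ℕ} (hj : j ∈ rl n σ) : j < n := by
  unfold rl at hj
  rw [List.mem_reverse, List.mem_ofFn] at hj
  obtain ⟨i, rfl⟩ := hj
  exact (σ i).2

lemma crit_wd_congr {n : ℕ} {G : Type*} [Group G] {y y' : ℕ → G} (h : ∀ j < n, y j = y' j)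
    (D : LP n) : wd n y D = wd n y' D := by
  unfold wd
  congr 1
  apply List.map_congr_left
  intro q _
  rw [crit_er_congr (fun j hj => h j (crit_rl_lt q.2 hj))]

lemma crit_map_wd {n : ℕ} {G H : Type*} [Group G] [Group H] (θ : G →* H) (y : ℕ → G) (D : LP n) :
    θ (wd n y D) = wd n (fun x => θ (y x)) D := by
  unfold wd
  rw [map_list_prod, List.map_map]
  congr 1
  apply List.map_congr_left
  intro q _
  simp only [Function.comp_apply]
  rw [map_zpow, map_er]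

lemma crit_em6_castSucc (ρ : Equiv.Perm (Fin 6)) (j : Fin 6) :
    em6 ρ j.castSucc = (ρ j).castSucc := by
  simp [em6, Equiv.permCongr_apply]

lemma crit_em6_last (ρ : Equiv.Perm (Fin 6)) : em6 ρ (Fin.last 6) = Fin.last 6 := by
  unfold em6
  rw [Equiv.permCongr_apply, Equiv.symm_symm, finSuccEquivLast_last]
  rfl

lemma crit_rl7 (ρ : Equiv.Perm (Fin 6)) : rl 7 (em6 ρ) = 6 :: rl 6 ρ := by
  unfold rl
  rw [List.ofFn_succ', List.concat_eq_append, List.reverse_append, crit_em6_last]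
  simp only [List.reverse_cons, List.reverse_nil, List.nil_append, List.singleton_append]
  congr 2
  apply List.ofFn_inj.2
  funext j
  rw [crit_em6_castSucc]
  rfl

lemma crit_er_cons {G : Type*} [Group G] (y : ℕ → G) (z : ℕ) {r : List ℕ} (hr : r ≠ []) :
    ⁅er y r, y z⁆ = er y (z :: r) := by
  cases r with
  | nil => exact absurd rfl hr
  | cons x r => rfl

lemma crit_comm {G : Type*} [Group G] (y : ℕ → G) (D : LP 6) :
    Cg 7 ⁅wd 6 y D, y 6⁆ (wd 7 y (D.map fun q => (q.1, em6 q.2))) := by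
  induction D with
  | nil =>
    simp only [wd, List.map_nil, List.prod_nil, commutatorElement_one_left]
    exact Cg.refl _ _
  | cons q D ih =>
    have e1 : wd 6 y (q :: D) = er y (rl 6 q.2) ^ q.1 * wd 6 y D := by simp [wd]
    have e2 : wd 7 y ((q :: D).map fun q => (q.1, em6 q.2)) =
        er y (rl 7 (em6 q.2)) ^ q.1 * wd 7 y (D.map fun q => (q.1, em6 q.2)) := by simp [wd]
    rw [e1, e2]
    have h1 : er y (rl 6 q.2) ∈ L G 5 := er_mem' y (by rw [kv_rl_len])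
    have h2 : wd 6 y D ∈ L G 5 := wd_mem_L (by norm_num) y D
    have h3 := Cg_mul_left (i := 5) (j := 0) (n := 7) h2 (Subgroup.zpow_mem _ h1 q.1)
      (Subgroup.mem_top (y 6)) (by omega)
    refine h3.trans (Cg.mul ?_ ih)
    have h4 := Cg_zpow_left (i := 5) (j := 0) (n := 7) h1 (Subgroup.mem_top (y 6)) (by omega) q.1
    have h5 : rl 6 q.2 ≠ [] := by
      intro h
      have := kv_rl_len 6 q.2
      rw [h] at this
      simp at this
    rw [crit_er_cons y 6 h5] at h4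
    rw [crit_rl7]
    exact h4

/-! ### sums -/

lemma crit_SM_map (D : LP 6) (f : Equiv.Perm (Fin 7) → ZMod 3) :
    SM (D.map fun q => (q.1, em6 q.2)) f = SM D (fun ρ => f (em6 ρ)) := by
  simp [SM, List.map_map, Function.comp_def]

lemma crit_SM_congr {n : ℕ} (D : LP n) {f g : Equiv.Perm (Fin n) → ZMod 3} (h : ∀ σ, f σ = g σ) :
    SM D f = SM D g := by
  have : f = g := funext h
  rw [this]

lemma crit_SM_mul {n : ℕ} (D : LP n) (c : ZMod 3) (f : Equiv.Perm (Fin n) → ZMod 3) :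
    SM D (fun σ => c * f σ) = c * SM D f := by
  induction D with
  | nil => simp [SM]
  | cons q D ih =>
    simp only [SM, List.map_cons, List.sum_cons] at ih ⊢
    rw [ih]
    ring

lemma crit_SM_sub {n : ℕ} (D : LP n) (f g : Equiv.Perm (Fin n) → ZMod 3) :
    SM D (fun σ => f σ - g σ) = SM D f - SM D g := by
  induction D with
  | nil => simp [SM]
  | cons q D ih =>
    simp only [SM, List.map_cons, List.sum_cons] at ih ⊢
    rw [ih]
    ring

lemma crit_SM_zero {n : ℕ} (D : LP n) : SM D (fun _ => 0) = 0 := by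
  induction D with
  | nil => simp [SM]
  | cons q D ih => simp only [SM, List.map_cons, List.sum_cons, mul_zero, zero_add] at ih ⊢; exact ih

lemma crit_SM_sum {n : ℕ} {ι : Type*} (s : Finset ι) (D : LP n)
    (f : ι → Equiv.Perm (Fin n) → ZMod 3) :
    SM D (fun σ => ∑ a ∈ s, f a σ) = ∑ a ∈ s, SM D (f a) := by
  induction D with
  | nil => simp [SM]
  | cons q D ih =>
    simp only [SM, List.map_cons, List.sum_cons] at ih ⊢
    rw [ih, Finset.mul_sum, Finset.sum_add_distrib]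

lemma crit_sg_mul {n : ℕ} (τ σ : Equiv.Perm (Fin n)) : sg (τ * σ) = sg τ * sg σ := by
  simp [sg, Equiv.Perm.sign_mul]

lemma crit_sg_em6 (ρ : Equiv.Perm (Fin 6)) : sg (em6 ρ) = sg ρ := by
  unfold sg em6
  rw [Equiv.Perm.sign_permCongr, Equiv.optionCongr_sign]

lemma crit_A3_mul {n : ℕ} [NeZero n] (s : Fin n) (τ σ : Equiv.Perm (Fin n)) :
    A3 s (τ * σ) = A3 (τ⁻¹ s) σ := by
  unfold A3
  exact if_congr (by simp only [Equiv.Perm.mul_apply, Equiv.Perm.eq_inv_iff_eq]) rfl rfl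

lemma crit_B3_mul {n : ℕ} [NeZero n] (s : Fin n) (τ σ : Equiv.Perm (Fin n)) :
    B3 s (τ * σ) = B3 (τ⁻¹ s) σ := by
  unfold B3
  exact if_congr (by simp only [Equiv.Perm.mul_apply, Equiv.Perm.eq_inv_iff_eq]) rfl rfl

lemma crit_A3_last (ρ : Equiv.Perm (Fin 6)) : A3 (Fin.last 6) (em6 ρ) = 0 := by
  unfold A3
  have h0 := crit_em6_castSucc ρ 0
  have h1 := crit_em6_castSucc ρ 1
  have h2 := crit_em6_castSucc ρ 2
  have e0 : (0 : Fin 7) = (0 : Fin 6).castSucc := rfl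
  have e1 : (1 : Fin 7) = (1 : Fin 6).castSucc := rfl
  have e2 : (2 : Fin 7) = (2 : Fin 6).castSucc := rfl
  rw [e0, e1, e2, h0, h1, h2]
  rw [if_neg]
  rintro (h | h | h) <;> exact absurd h (Fin.castSucc_lt_last _).ne

lemma crit_B3_last (ρ : Equiv.Perm (Fin 6)) : B3 (Fin.last 6) (em6 ρ) = 0 := by
  unfold B3
  have h0 := crit_em6_castSucc ρ 3
  have h1 := crit_em6_castSucc ρ 4
  have h2 := crit_em6_castSucc ρ 5
  have e0 : (3 : Fin 7) = (3 : Fin 6).castSucc := rfl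
  have e1 : (4 : Fin 7) = (4 : Fin 6).castSucc := rfl
  have e2 : (5 : Fin 7) = (5 : Fin 6).castSucc := rfl
  rw [e0, e1, e2, h0, h1, h2]
  rw [if_neg]
  rintro (h | h | h) <;> exact absurd h (Fin.castSucc_lt_last _).ne

lemma crit_A3_castSucc (p : Fin 6) (ρ : Equiv.Perm (Fin 6)) : A3 p.castSucc (em6 ρ) = A3 p ρ := by
  unfold A3
  have h0 := crit_em6_castSucc ρ 0
  have h1 := crit_em6_castSucc ρ 1
  have h2 := crit_em6_castSucc ρ 2
  have e0 : (0 : Fin 7) = (0 : Fin 6).castSucc := rfl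
  have e1 : (1 : Fin 7) = (1 : Fin 6).castSucc := rfl
  have e2 : (2 : Fin 7) = (2 : Fin 6).castSucc := rfl
  rw [e0, e1, e2, h0, h1, h2]
  simp only [Fin.castSucc_inj]

lemma crit_B3_castSucc (p : Fin 6) (ρ : Equiv.Perm (Fin 6)) :
    B3 p.castSucc (em6 ρ) = 1 - A3 p ρ := by
  have h0 := crit_em6_castSucc ρ 3
  have h1 := crit_em6_castSucc ρ 4
  have h2 := crit_em6_castSucc ρ 5
  have e0 : (3 : Fin 7) = (3 : Fin 6).castSucc := rfl
  have e1 : (4 : Fin 7) = (4 : Fin 6).castSucc := rfl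
  have e2 : (5 : Fin 7) = (5 : Fin 6).castSucc := rfl
  unfold A3 B3
  rw [e0, e1, e2, h0, h1, h2]
  simp only [Fin.castSucc_inj]
  obtain ⟨i, rfl⟩ := ρ.surjective p
  simp only [EmbeddingLike.apply_eq_iff_eq]
  fin_cases i <;> simp

lemma crit_sub (p q : Fin 6) (ρ : Equiv.Perm (Fin 6)) :
    A3 p.castSucc (em6 ρ) * B3 q.castSucc (em6 ρ) - A3 q.castSucc (em6 ρ) * B3 p.castSucc (em6 ρ) =
      A3 p ρ - A3 q ρ := by
  rw [crit_A3_castSucc, crit_A3_castSucc, crit_B3_castSucc, crit_B3_castSucc]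
  ring

lemma crit_fp (D : LP 6)
    (ha : ∀ a b : Fin 6, SM D (fun σ => sg σ * A3 a σ) = SM D (fun σ => sg σ * A3 b σ))
    (τ : Equiv.Perm (Fin 7)) :
    SM (D.map fun q => (q.1, em6 q.2)) (fun σ => Phi fp (τ * σ)) = 0 := by
  rw [crit_SM_map]
  have e1 : ∀ ρ : Equiv.Perm (Fin 6), Phi fp (τ * em6 ρ) = sg τ * (sg ρ *
      (A3 (τ⁻¹ 0) (em6 ρ) * B3 (τ⁻¹ 1) (em6 ρ) - A3 (τ⁻¹ 1) (em6 ρ) * B3 (τ⁻¹ 0) (em6 ρ))) := by
    intro ρ
    rw [Phi_fp, crit_sg_mul, crit_A3_mul, crit_A3_mul, crit_B3_mul, crit_B3_mul, crit_sg_em6,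
      mul_assoc]
  rw [crit_SM_congr D e1, crit_SM_mul]
  generalize τ⁻¹ 0 = p
  generalize τ⁻¹ 1 = q
  have key : SM D (fun ρ => sg ρ * (A3 p (em6 ρ) * B3 q (em6 ρ) - A3 q (em6 ρ) * B3 p (em6 ρ))) =
      0 := by
    refine Fin.lastCases ?_ (fun p => ?_) p
    · have : ∀ ρ : Equiv.Perm (Fin 6), sg ρ * (A3 (Fin.last 6) (em6 ρ) * B3 q (em6 ρ) -
          A3 q (em6 ρ) * B3 (Fin.last 6) (em6 ρ)) = 0 := by
        intro ρ
        rw [crit_A3_last, crit_B3_last]
        ring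
      rw [crit_SM_congr D this, crit_SM_zero]
    · refine Fin.lastCases ?_ (fun q => ?_) q
      · have : ∀ ρ : Equiv.Perm (Fin 6), sg ρ * (A3 p.castSucc (em6 ρ) * B3 (Fin.last 6) (em6 ρ) -
            A3 (Fin.last 6) (em6 ρ) * B3 p.castSucc (em6 ρ)) = 0 := by
          intro ρ
          rw [crit_A3_last, crit_B3_last]
          ring
        rw [crit_SM_congr D this, crit_SM_zero]
      · have : ∀ ρ : Equiv.Perm (Fin 6), sg ρ * (A3 p.castSucc (em6 ρ) * B3 q.castSucc (em6 ρ) -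
            A3 q.castSucc (em6 ρ) * B3 p.castSucc (em6 ρ)) = sg ρ * A3 p ρ - sg ρ * A3 q ρ := by
          intro ρ
          rw [crit_sub]
          ring
        rw [crit_SM_congr D this, crit_SM_sub, ha p q, sub_self]
  rw [key, mul_zero]

lemma crit_Yq_sum (τ : Equiv.Perm (Fin 7)) :
    ∑ a : Fin 6, Yq (τ a.castSucc) = - Yq (τ (Fin.last 6)) := by
  have h1 : ∑ b : Fin 7, Yq (τ b) = ∑ b : Fin 7, Yq b := Equiv.sum_comp τ Yq
  have h2 : ∑ b : Fin 7, Yq b = 0 := by decide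
  rw [Fin.sum_univ_castSucc, h2] at h1
  linear_combination h1

lemma crit_Yq_mul (s : Fin 7) : (1 - Yq s) * Yq s = 0 := by
  unfold Yq
  split_ifs <;> ring

lemma crit_fq (D : LP 6) (hd : ∀ a b : Fin 6, SM D (dd a) = SM D (dd b))
    (τ : Equiv.Perm (Fin 7)) :
    SM (D.map fun q => (q.1, em6 q.2)) (fun σ => Phi fq (τ * σ)) = 0 := by
  rw [crit_SM_map]
  have e1 : ∀ ρ : Equiv.Perm (Fin 6), Phi fq (τ * em6 ρ) = (1 - Yq (τ (Fin.last 6))) *
      ∑ a : Fin 6, Yq (τ a.castSucc) * dd a ρ := by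
    intro ρ
    have h0 := crit_em6_castSucc ρ 0
    have h1 := crit_em6_castSucc ρ 1
    have h6 := crit_em6_last ρ
    have e0 : (0 : Fin 7) = (0 : Fin 6).castSucc := rfl
    have e1 : (1 : Fin 7) = (1 : Fin 6).castSucc := rfl
    have e6 : (6 : Fin 7) = Fin.last 6 := rfl
    rw [Phi_fq, Equiv.Perm.mul_apply, Equiv.Perm.mul_apply, Equiv.Perm.mul_apply, e0, e1, e6, h0,
      h1, h6]
    have h7 : ∑ a : Fin 6, Yq (τ a.castSucc) * dd a ρ =
        Yq (τ (ρ 0).castSucc) - Yq (τ (ρ 1).castSucc) := by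
      unfold dd
      simp only [mul_sub, Finset.sum_sub_distrib, mul_ite, mul_one, mul_zero,
        Finset.sum_ite_eq, Finset.mem_univ, if_true]
    rw [h7]
    ring
  rw [crit_SM_congr D e1, crit_SM_mul, crit_SM_sum]
  have e2 : ∀ a : Fin 6, SM D (fun ρ => Yq (τ a.castSucc) * dd a ρ) =
      Yq (τ a.castSucc) * SM D (dd 0) := by
    intro a
    rw [crit_SM_mul, hd a 0]
  rw [Finset.sum_congr rfl (fun a _ => e2 a), ← Finset.sum_mul, crit_Yq_sum]
  linear_combination (-(SM D (dd 0))) * crit_Yq_mul (τ (Fin.last 6))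

/-! ### the criterion -/

theorem wd_comm (D : LP 6)
    (ha : ∀ a b : Fin 6, SM D (fun σ => sg σ * A3 a σ) = SM D (fun σ => sg σ * A3 b σ))
    (hd : ∀ a b : Fin 6, SM D (dd a) = SM D (dd b)) (θ : F →* F) (x : F) :
    ⁅θ (wd 6 FreeGroup.of D), x⁆ ∈ WW := by
  have base : ⁅wd 6 FreeGroup.of D, (FreeGroup.of 6 : F)⁆ ∈ WW := by
    have h1 := crit_comm (FreeGroup.of : ℕ → F) D
    have h2 : wd 7 (FreeGroup.of : ℕ → F) (D.map fun q => (q.1, em6 q.2)) ∈ WW := by
      refine mem_WW.2 ⟨wd_mem_L (n := 7) (by norm_num) _ _, fun v => ⟨?_, ?_⟩⟩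
      · rw [evf_wd (by norm_num) le_rfl]
        apply Finset.sum_eq_zero
        intro τ _
        rw [crit_fp D ha τ, mul_zero]
      · rw [evf_wd (by norm_num) le_rfl]
        apply Finset.sum_eq_zero
        intro τ _
        rw [crit_fq D hd τ, mul_zero]
    have h3 := L7_le_WW (Cg_iff.1 h1)
    have h4 := WW.mul_mem h2 (WW.inv_mem h3)
    simpa using h4
  let θ' : F →* F := FreeGroup.lift fun j => if j < 6 then θ (FreeGroup.of j) else x
  have h := WW_map base θ'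
  rw [map_commutatorElement, crit_map_wd] at h
  have e1 : wd 6 (fun j => θ' (FreeGroup.of j)) D = θ (wd 6 FreeGroup.of D) := by
    rw [crit_map_wd]
    apply crit_wd_congr
    intro j hj
    simp [θ', hj]
  have e2 : θ' (FreeGroup.of 6) = x := by simp [θ']
  rw [e1, e2] at h
  exact h

theorem wd_mem_SS (D : LP 6) (hK : ∀ τ, SM D (fun σ => Phi fh (τ * σ)) = 0)
    (ha : ∀ a b : Fin 6, SM D (fun σ => sg σ * A3 a σ) = SM D (fun σ => sg σ * A3 b σ))
    (hd : ∀ a b : Fin 6, SM D (dd a) = SM D (dd b)) : wd 6 FreeGroup.of D ∈ SS := by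
  have h5 : wd 6 (FreeGroup.of : ℕ → F) D ∈ L F 5 := wd_mem_L (n := 6) (by norm_num) _ _
  refine mem_SS.2 ⟨h5, fun θ => ⟨fun v => ?_, fun x => wd_comm D ha hd θ x⟩⟩
  rw [evf_map fh (by omega) h5, evf_wd (by norm_num) (by norm_num)]
  apply Finset.sum_eq_zero
  intro τ _
  rw [hK τ, mul_zero]

end Pool.Agent.H53R3
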