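import Mathlib
import Pool.Agent.H53R3.Base
import Pool.Agent.Helper429.Kap

set_option autoImplicit false

/-!
The functional of degree six: finite verifications.
-/

namespace Pool.Agent.H53R3

open scoped commutatorElement
open Pool.Agent.Helper429 (asc sgL sgL_ofFn code pt balP l0 cast_eq_of_mod et pl pl_mem pt_pl okE okE_spec okE_asc)

def TB6 : ℕ := 1769402525477131631555375665105852397532543464499973555353504667833964729538253771663589539500130897116678081137094249399327029393649895461639711123310643683496963262588053303425999971624579904847628984292028779108921619529839459131119127645473558576870294194947485672453172351927751411169376720895591839113418310205165292954819808467487963484368641861729499632108558785732088426471379300031373285310637015040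

def hT6 (n : ℕ) : ℤ := (((TB6 >>> (2 * n)) &&& 3 : ℕ) : ℤ)

lemma xl6 : xl 6 = asc l0 := by
  unfold xl rl
  congr 1

/-- the value of the functional on patterns -/
def KH (η : ℕ → ℕ) : ℤ := ((asc l0).map fun q => q.1 * (sgL q.2 * hh (q.2.map η))).sum

def KT (η : ℕ → ℕ) : ℤ := hT6 (code [η 0, η 1, η 2, η 3, η 4, η 5])

lemma chk_KT : balP.all (fun l => decide ((KH (pt l) - KT (pt l)) % 3 = 0)) = true := by
  decide +kernel

lemma prm_spec {n : ℕ} {l : List ℕ} (h : ∃ π : Equiv.Perm (Fin n), l = List.ofFn (fun j : Fin n => (π j : ℕ))) :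
    l = List.ofFn (fun j : Fin n => (prm n l j : ℕ)) := by
  unfold prm
  rw [dif_pos h]
  exact h.choose_spec

lemma asc_len (x : ℕ) (r : List ℕ) : ∀ q ∈ asc (x :: r), q.2.length = r.length + 1 := by
  have := (Pool.Agent.Helper429.Rep.er (x :: r) (by simp)).1
  intro q hq
  exact this q hq

lemma xl6_perm {q : ℤ × List ℕ} (hq : q ∈ asc l0) :
    ∃ π : Equiv.Perm (Fin 6), q.2 = List.ofFn (fun j : Fin 6 => (π j : ℕ)) := by
  have h := okE_spec okE_asc q hq
  exact Pool.Agent.Helper429.exists_perm (asc_len _ _ q hq) h.1 h.2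

lemma sg_mul' {n : ℕ} (τ ω : Equiv.Perm (Fin n)) : sg (τ * ω) = sg τ * sg ω := by
  simp [sg, Equiv.Perm.sign_mul]

lemma Phi_fh (τ : Equiv.Perm (Fin 6)) : Phi fh τ = sg τ * ((KT (et τ) : ℤ) : ZMod 3) := by
  have h1 : Phi fh τ = sg τ * ((KH (et τ) : ℤ) : ZMod 3) := by
    unfold Phi KH
    rw [xl6]
    push_cast
    rw [← List.sum_map_mul_left, List.map_map]
    congr 1
    apply List.map_congr_left
    intro q hq
    have hp := prm_spec (xl6_perm hq)
    simp only [Function.comp]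
    have e1 : sgL q.2 = (Equiv.Perm.sign (prm 6 q.2) : ℤ) := by
      conv_lhs => rw [hp]
      exact sgL_ofFn _
    have e2 : q.2.map (et τ) = List.ofFn fun j : Fin 6 => ((τ * prm 6 q.2) j : ℕ) / 2 := by
      conv_lhs => rw [hp, List.map_ofFn]
      congr 1
      funext j
      simp [et, Pool.Agent.Helper429.tl]
    rw [e1, e2]
    unfold fh
    rw [sg_mul']
    push_cast
    ring
  rw [h1]
  refine congrArg (fun z : ZMod 3 => sg τ * z) ?_
  have h2 : KH (et τ) = KH (pt (pl τ)) := by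
    unfold KH
    refine congrArg List.sum (List.map_congr_left ?_)
    intro q hq
    have : q.2.map (et τ) = q.2.map (pt (pl τ)) :=
      List.map_congr_left (fun x hx => (pt_pl τ ((okE_spec okE_asc q hq).2 x hx)).symm)
    rw [this]
  have h3 : KT (et τ) = KT (pt (pl τ)) := by
    unfold KT
    rw [pt_pl τ (by norm_num), pt_pl τ (by norm_num), pt_pl τ (by norm_num), pt_pl τ (by norm_num),
      pt_pl τ (by norm_num), pt_pl τ (by norm_num)]
  rw [h2, h3]
  have h4 := chk_KT
  rw [List.all_eq_true] at h4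
  have h5 := of_decide_eq_true (h4 _ (pl_mem τ))
  generalize KH (pt (pl τ)) = a at h5 ⊢
  generalize KT (pt (pl τ)) = b at h5 ⊢
  exact cast_eq_of_mod h5

/-- the part of `Phi fh` besides the `A`-part -/
noncomputable def bS (τ : Equiv.Perm (Fin 6)) : ZMod 3 := Phi fh τ - sg τ * (A3 0 τ + A3 1 τ)

/-- the list of a permutation -/
def lp (τ : Equiv.Perm (Fin 6)) : List ℕ := List.ofFn fun j : Fin 6 => (τ j : ℕ)

lemma lp_mem (τ : Equiv.Perm (Fin 6)) : lp τ ∈ (List.range 6).permutations' := by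
  rw [List.mem_permutations']
  have h1 := Equiv.Perm.ofFn_comp_perm τ (fun j : Fin 6 => (j : ℕ))
  have h2 : List.ofFn ((fun j : Fin 6 => (j : ℕ)) ∘ τ) = lp τ := rfl
  rw [h2] at h1
  exact h1.trans (by decide)

def cA (s : ℕ) (l : List ℕ) : ℤ :=
  if l.getD 0 0 = s ∨ l.getD 1 0 = s ∨ l.getD 2 0 = s then 1 else 0

def cd (s : ℕ) (l : List ℕ) : ℤ :=
  (if l.getD 0 0 = s then 1 else 0) - (if l.getD 1 0 = s then 1 else 0)

def cF (l : List ℕ) : ℤ := sgL l * hT6 (code (l.map (· / 2)))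

def TS (l : List ℕ) : ℤ := cF l - sgL l * (cA 0 l + cA 1 l)

lemma lp_getD (τ : Equiv.Perm (Fin 6)) (j : Fin 6) : (lp τ).getD j 0 = τ j := by
  unfold lp
  rw [List.getD_eq_getElem _ _ (by simp), List.getElem_ofFn]

lemma A3_lp (s : Fin 6) (τ : Equiv.Perm (Fin 6)) : A3 s τ = ((cA s (lp τ) : ℤ) : ZMod 3) := by
  unfold A3 cA
  have h0 := lp_getD τ 0
  have h1 := lp_getD τ 1
  have h2 := lp_getD τ 2
  simp only [Fin.val_zero, Fin.val_one, Fin.val_two] at h0 h1 h2
  rw [h0, h1, h2]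
  simp only [Fin.val_inj]
  split_ifs <;> simp

lemma dd_lp (s : Fin 6) (τ : Equiv.Perm (Fin 6)) : dd s τ = ((cd s (lp τ) : ℤ) : ZMod 3) := by
  unfold dd cd
  have h0 := lp_getD τ 0
  have h1 := lp_getD τ 1
  simp only [Fin.val_zero, Fin.val_one] at h0 h1
  rw [h0, h1]
  simp only [Fin.val_inj]
  push_cast
  split_ifs <;> simp

lemma Phi_lp (τ : Equiv.Perm (Fin 6)) : Phi fh τ = ((cF (lp τ) : ℤ) : ZMod 3) := by
  rw [Phi_fh]
  unfold cF KT
  have e1 : sgL (lp τ) = (Equiv.Perm.sign τ : ℤ) := sgL_ofFn τ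
  have e2 : (lp τ).map (· / 2) = [et τ 0, et τ 1, et τ 2, et τ 3, et τ 4, et τ 5] := by
    simp [lp, List.ofFn_succ, et, Pool.Agent.Helper429.tl]
  rw [e1, e2]
  push_cast
  rfl

lemma bS_lp (τ : Equiv.Perm (Fin 6)) : bS τ = ((TS (lp τ) : ℤ) : ZMod 3) := by
  unfold bS TS
  rw [Phi_lp, A3_lp, A3_lp]
  have e1 : sgL (lp τ) = (Equiv.Perm.sign τ : ℤ) := sgL_ofFn τ
  rw [e1]
  push_cast
  rfl

def sw (a b : ℕ) (x : ℕ) : ℕ := if x = a then b else if x = b then a else x

lemma eq_neg_add_of_add_eq' {a b c : ZMod 3} (h : a + b - c = 0) : a = -b + c := by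
  linear_combination h

lemma lp_swap (a b : Fin 6) (τ : Equiv.Perm (Fin 6)) : lp (Equiv.swap a b * τ) = (lp τ).map (sw a b) := by
  unfold lp
  rw [List.map_ofFn]
  congr 1
  funext j
  simp only [Equiv.Perm.mul_apply, Function.comp, Equiv.swap_apply_def, sw, Fin.val_inj]
  split_ifs <;> rfl

def P6 : List (List ℕ) := (List.range 6).permutations'

lemma chk01 : P6.all (fun l => decide ((TS (l.map (sw 0 1)) + TS l) % 3 = 0)) = true := by
  decide +kernel
lemma chk23 : P6.all (fun l => decide ((TS (l.map (sw 2 3)) + TS l) % 3 = 0)) = true := by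
  decide +kernel
lemma chk45 : P6.all (fun l => decide ((TS (l.map (sw 4 5)) + TS l) % 3 = 0)) = true := by
  decide +kernel
lemma chk12 : P6.all (fun l => decide ((TS (l.map (sw 1 2)) + TS l - (cd 4 l - cd 5 l)) % 3 = 0)) = true := by
  decide +kernel
lemma chk34 : P6.all (fun l => decide ((TS (l.map (sw 3 4)) + TS l - (cd 0 l - cd 1 l)) % 3 = 0)) = true := by
  decide +kernel

lemma use_chk {f : List ℕ → ℤ} (h : P6.all (fun l => decide (f l % 3 = 0)) = true)
    (τ : Equiv.Perm (Fin 6)) : ((f (lp τ) : ℤ) : ZMod 3) = 0 := by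
  rw [List.all_eq_true] at h
  have h5 := of_decide_eq_true (h _ (lp_mem τ))
  have := cast_eq_of_mod (a := f (lp τ)) (b := 0) (by omega)
  simpa using this

theorem bS_swap01 (τ : Equiv.Perm (Fin 6)) : bS (Equiv.swap 0 1 * τ) = - bS τ := by
  have h := use_chk chk01 τ
  rw [bS_lp, bS_lp, lp_swap]
  push_cast at h
  exact eq_neg_of_add_eq_zero_left h
theorem bS_swap23 (τ : Equiv.Perm (Fin 6)) : bS (Equiv.swap 2 3 * τ) = - bS τ := by
  have h := use_chk chk23 τ
  rw [bS_lp, bS_lp, lp_swap]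
  push_cast at h
  exact eq_neg_of_add_eq_zero_left h
theorem bS_swap45 (τ : Equiv.Perm (Fin 6)) : bS (Equiv.swap 4 5 * τ) = - bS τ := by
  have h := use_chk chk45 τ
  rw [bS_lp, bS_lp, lp_swap]
  push_cast at h
  exact eq_neg_of_add_eq_zero_left h
theorem bS_swap12 (τ : Equiv.Perm (Fin 6)) :
    bS (Equiv.swap 1 2 * τ) = - bS τ + (dd 4 τ - dd 5 τ) := by
  have h := use_chk chk12 τ
  rw [bS_lp, bS_lp, lp_swap, dd_lp, dd_lp]
  push_cast at h
  have h' := h
  clear h
  change _ = _ at h'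
  exact eq_neg_add_of_add_eq' h'
theorem bS_swap34 (τ : Equiv.Perm (Fin 6)) :
    bS (Equiv.swap 3 4 * τ) = - bS τ + (dd 0 τ - dd 1 τ) := by
  have h := use_chk chk34 τ
  rw [bS_lp, bS_lp, lp_swap, dd_lp, dd_lp]
  push_cast at h
  have h' := h
  clear h
  change _ = _ at h'
  exact eq_neg_add_of_add_eq' h'

/-- rearrangement of a list -/
def ra (w l : List ℕ) : List ℕ := w.map fun i => l.getD i 0

lemma lp_mul (τ ω : Equiv.Perm (Fin 6)) : lp (τ * ω) = ra (lp ω) (lp τ) := by
  unfold ra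
  have h0 : lp ω = List.ofFn fun j : Fin 6 => (ω j : ℕ) := rfl
  rw [h0, List.map_ofFn]
  unfold lp
  congr 1
  funext j
  simp only [Equiv.Perm.mul_apply, Function.comp]
  have := lp_getD τ (ω j)
  unfold lp at this
  exact this.symm

lemma chkw : P6.all (fun l => decide ((cF l - cF (ra [0,1,2,4,3,5] l) - cF (ra [0,1,2,5,3,4] l) +
    cF (ra [0,1,2,5,4,3] l) - sgL l) % 3 = 0)) = true := by
  decide +kernel

theorem wrd_K (τ : Equiv.Perm (Fin 6)) : SM wrdP (fun σ => Phi fh (τ * σ)) = sg τ := by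
  have h := use_chk chkw τ
  have e1 : sgL (lp τ) = (Equiv.Perm.sign τ : ℤ) := sgL_ofFn τ
  have e2 : lp (Equiv.swap 3 4) = [0,1,2,4,3,5] := by decide
  have e3 : lp (Equiv.swap 3 5 * Equiv.swap 4 5) = [0,1,2,5,3,4] := by decide
  have e4 : lp (Equiv.swap 3 5) = [0,1,2,5,4,3] := by decide
  unfold SM wrdP
  simp only [List.map_cons, List.map_nil, List.sum_cons, List.sum_nil, Phi_lp, lp_mul τ, e2, e3, e4]
  rw [e1] at h
  have e5 : ra (lp 1) (lp τ) = lp τ := by rw [← lp_mul, mul_one]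
  rw [e5]
  push_cast at h ⊢
  unfold sg
  linear_combination h

end Pool.Agent.H53R3
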