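import Mathlib
import Pool.Agent.H53R3.Crit
import Pool.Agent.H53R3.Ph6

set_option autoImplicit false

/-!
The certificate: the commutator of `[[x₀,x₁,x₂],[x₃,x₄,x₅]]` with `x₆`.
-/

namespace Pool.Agent.H53R3

open scoped commutatorElement
open Pool.Agent.Helper429 (asc adr sgL sgL_ofFn code pt balP l0 cast_eq_of_mod et pl pl_mem pt_pl)

def certRels : List (ℤ × List ℕ × List ℕ) :=
  [(1, [1,4,0,5], [3,6,2]),
   (1, [1,4,2,3], [5,6,0]),
   (1, [3,5,0,2], [1,4,6]),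
   (-1, [0,3,1,6], [2,5,4]),
   (1, [1,4,0,2], [3,6,5]),
   (-1, [1,4,0,6], [3,5,2]),
   (-1, [2,5,1,6], [0,3,4])]

def ct0 : List (ℤ × List ℕ) :=
  [(-1, [2,5,1,4,0,3]),
   (1, [2,5,1,4,3,0]),
   (1, [0,3,1,2,4,5]),
   (-1, [0,3,1,2,5,4]),
   (-1, [0,3,5,1,2,4]),
   (1, [0,3,5,1,4,2]),
   (1, [1,4,3,5,0,2]),
   (-1, [2,5,4,1,0,3]),
   (1, [2,5,4,1,3,0]),
   (1, [2,4,1,5,0,3]),
   (-1, [2,4,1,5,3,0]),
   (-1, [1,4,0,5,3,2])]

def ct1 : List (ℤ × List ℕ) :=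
  [(-1, [2,5,1,4,0,3]),
   (-1, [4,5,0,2,1,3]),
   (1, [2,4,0,1,5,3]),
   (1, [1,4,3,5,0,2]),
   (-1, [1,4,3,5,2,0]),
   (-1, [2,5,4,1,0,3]),
   (1, [2,4,1,5,0,3]),
   (1, [0,2,3,5,1,4]),
   (-1, [0,2,3,5,4,1])]

def ct2 : List (ℤ × List ℕ) :=
  [(1, [1,3,0,4,2,5]),
   (-1, [1,3,0,4,5,2]),
   (-1, [4,5,0,2,1,3]),
   (1, [4,5,0,2,3,1]),
   (1, [1,3,5,2,4,0]),
   (-1, [1,3,5,4,2,0]),
   (-1, [1,3,5,0,2,4]),
   (1, [1,3,5,0,4,2]),
   (-1, [0,2,1,5,3,4]),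
   (1, [2,5,4,1,3,0]),
   (-1, [2,5,4,3,1,0]),
   (-1, [2,5,4,0,1,3]),
   (1, [2,5,4,0,3,1]),
   (-1, [1,3,0,5,2,4]),
   (1, [1,3,0,5,4,2]),
   (1, [0,2,3,5,1,4])]

def ct3 : List (ℤ × List ℕ) :=
  [(1, [1,3,0,4,2,5]),
   (1, [4,5,0,1,3,2]),
   (-1, [4,5,0,3,1,2]),
   (-1, [4,5,0,2,1,3]),
   (1, [4,5,0,2,3,1]),
   (-1, [1,3,5,2,0,4]),
   (-1, [2,4,3,5,1,0]),
   (1, [1,3,0,2,4,5]),
   (-1, [1,3,0,5,2,4]),
   (1, [2,4,1,5,3,0])]

def ct4 : List (ℤ × List ℕ) :=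
  [(1, [3,5,2,4,0,1]),
   (1, [4,5,0,3,2,1]),
   (-1, [3,4,0,2,5,1]),
   (-1, [0,3,1,5,2,4]),
   (1, [0,3,1,5,4,2]),
   (1, [3,5,4,2,0,1]),
   (-1, [3,4,2,5,0,1]),
   (-1, [2,4,1,5,0,3]),
   (1, [2,4,1,5,3,0])]

def ct5 : List (ℤ × List ℕ) :=
  [(1, [3,5,2,1,4,0]),
   (-1, [3,5,2,4,1,0]),
   (-1, [3,5,2,0,1,4]),
   (1, [3,5,2,0,4,1]),
   (1, [1,4,2,3,0,5]),
   (1, [1,4,5,2,0,3]),
   (1, [0,3,1,5,4,2]),
   (1, [1,4,0,2,3,5]),
   (-1, [1,4,0,2,5,3]),
   (1, [1,4,0,5,2,3]),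
   (-1, [0,3,4,5,1,2])]

def ct6 : List (ℤ × List ℕ) :=
  [(-1, [1,4,0,5,2,3]),
   (-1, [1,4,2,3,0,5]),
   (1, [3,5,0,2,1,4]),
   (-1, [3,5,0,2,4,1]),
   (-1, [2,5,4,0,3,1]),
   (1, [2,5,4,3,0,1]),
   (1, [2,5,4,1,0,3]),
   (-1, [2,5,4,1,3,0]),
   (-1, [1,4,0,2,5,3]),
   (-1, [3,5,2,1,4,0]),
   (1, [3,5,2,4,1,0]),
   (1, [3,5,2,0,1,4]),
   (-1, [3,5,2,0,4,1]),
   (-1, [0,3,4,2,5,1]),
   (1, [0,3,4,5,2,1]),
   (1, [0,3,4,1,2,5]),
   (-1, [0,3,4,1,5,2])]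


/-- expansion of a relation -/
def cRel (t : ℤ × List ℕ × List ℕ) : List (ℤ × List ℕ) :=
  (((adr t.2.2.reverse).map fun q => (q.1, t.2.1 ++ q.2)) ++
    ((adr t.2.1.reverse).map fun q => (q.1, t.2.2 ++ q.2))).map fun q => (t.1 * q.1, q.2)

def cdl (c x : ℕ) : ℕ := if x < c then x else x + 1

def clft (c : ℕ) (D : List (ℤ × List ℕ)) : List (ℤ × List ℕ) :=
  D.map fun q => (q.1, q.2.map (cdl c) ++ [c])

def cAll : List (ℤ × List ℕ) :=
  clft 0 ct0 ++ clft 1 ct1 ++ clft 2 ct2 ++ clft 3 ct3 ++ clft 4 ct4 ++ clft 5 ct5 ++ clft 6 ct6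

lemma cert_perm : (certRels.flatMap cRel).Perm cAll := by
  have h : ((certRels.flatMap cRel).isPerm cAll) = true := by decide +kernel
  exact List.isPerm_iff.1 h

/-- value of a function on a list of letters -/
def gvl (G : (Fin 7 → ℕ) → ZMod 3) (z : Fin 7 → ℕ) (l : List ℕ) : ZMod 3 :=
  G fun j : Fin 7 => z ⟨l.getD j 0 % 7, Nat.mod_lt _ (by norm_num)⟩

def SGV (G : (Fin 7 → ℕ) → ZMod 3) (z : Fin 7 → ℕ) (D : List (ℤ × List ℕ)) : ZMod 3 :=
  (D.map fun q => (q.1 : ZMod 3) * gvl G z q.2).sum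

lemma SGV_append (G : (Fin 7 → ℕ) → ZMod 3) (z : Fin 7 → ℕ) (D E : List (ℤ × List ℕ)) :
    SGV G z (D ++ E) = SGV G z D + SGV G z E := by simp [SGV]

lemma SGV_perm (G : (Fin 7 → ℕ) → ZMod 3) (z : Fin 7 → ℕ) {D E : List (ℤ × List ℕ)}
    (h : D.Perm E) : SGV G z D = SGV G z E := (h.map _).sum_eq

lemma SGV_scale (G : (Fin 7 → ℕ) → ZMod 3) (z : Fin 7 → ℕ) (c : ℤ) (D : List (ℤ × List ℕ)) :
    SGV G z (D.map fun q => (c * q.1, q.2)) = c * SGV G z D := by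
  unfold SGV
  rw [← List.sum_map_mul_left, List.map_map]
  refine congrArg List.sum (List.map_congr_left ?_)
  intro q _
  simp only [Function.comp]
  push_cast
  ring

lemma SGV_flatMap (G : (Fin 7 → ℕ) → ZMod 3) (z : Fin 7 → ℕ) {α : Type} (f : α → List (ℤ × List ℕ))
    (R : List α) (h : ∀ t ∈ R, SGV G z (f t) = 0) : SGV G z (R.flatMap f) = 0 := by
  induction R with
  | nil => simp [SGV]
  | cons t R ih =>
    rw [List.flatMap_cons, SGV_append, h t List.mem_cons_self,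
      ih (fun t ht => h t (List.mem_cons_of_mem _ ht)), add_zero]

/-- relabelling by a list -/
def rbl (t : List ℕ) (l : List ℕ) : List ℕ := l.map fun i => t.getD i 0

lemma gvl_rbl (G : (Fin 7 → ℕ) → ZMod 3) (z : Fin 7 → ℕ) (t l : List ℕ) (h1 : l.length = 7)
    (h2 : ∀ x ∈ l, x < 7) :
    gvl G (fun j => z ⟨t.getD j 0 % 7, Nat.mod_lt _ (by norm_num)⟩) l = gvl G z (rbl t l) := by
  unfold gvl
  congr 1
  funext j
  refine congrArg z (Fin.ext ?_)
  have hj : (j : ℕ) < l.length := by rw [h1]; exact j.2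
  have h3 : l.getD j 0 % 7 = l.getD j 0 := by
    rw [List.getD_eq_getElem _ _ hj]
    exact Nat.mod_eq_of_lt (h2 _ (List.getElem_mem _))
  have h4 : (rbl t l).getD j 0 = t.getD (l.getD j 0) 0 := by
    unfold rbl
    rw [List.getD_eq_getElem _ _ hj, List.getD_eq_getElem _ _ (by simpa using hj), List.getElem_map]
  simp only [h3, h4]

lemma SGV_rbl (G : (Fin 7 → ℕ) → ZMod 3) (z : Fin 7 → ℕ) (t : List ℕ) (D : List (ℤ × List ℕ))
    (h : ∀ q ∈ D, q.2.length = 7 ∧ ∀ x ∈ q.2, x < 7) :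
    SGV G (fun j => z ⟨t.getD j 0 % 7, Nat.mod_lt _ (by norm_num)⟩) D =
      SGV G z (D.map fun q => (q.1, rbl t q.2)) := by
  unfold SGV
  rw [List.map_map]
  refine congrArg List.sum (List.map_congr_left ?_)
  intro q hq
  simp only [Function.comp]
  rw [gvl_rbl G z t q.2 (h q hq).1 (h q hq).2]

def bRel : List (ℤ × List ℕ) := cRel (1, [0,1,2,3], [4,5,6])

lemma bRel_ok : ∀ q ∈ bRel, q.2.length = 7 ∧ ∀ x ∈ q.2, x < 7 := by decide +kernel

lemma SGV_bRel {G : (Fin 7 → ℕ) → ZMod 3} (hG : Good G) (z : Fin 7 → ℕ) : SGV G z bRel = 0 := by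
  have h := hG.rel43 z
  unfold bRel cRel
  rw [SGV_scale]
  simp only [List.reverse_cons, List.reverse_nil, List.nil_append, List.cons_append]
  rw [SGV_append]
  unfold SGV
  rw [List.map_map, List.map_map]
  rw [Int.cast_one, one_mul]
  exact h

lemma cRel_rbl : ∀ t ∈ certRels, cRel t =
    (bRel.map fun q => (q.1, rbl (t.2.1 ++ t.2.2) q.2)).map fun q => (t.1 * q.1, q.2) := by
  decide +kernel

lemma SGV_cRel {G : (Fin 7 → ℕ) → ZMod 3} (hG : Good G) (z : Fin 7 → ℕ) :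
    ∀ t ∈ certRels, SGV G z (cRel t) = 0 := by
  intro t ht
  rw [cRel_rbl t ht, SGV_scale, ← SGV_rbl G z _ bRel bRel_ok, SGV_bRel hG, mul_zero]

lemma SGV_cAll {G : (Fin 7 → ℕ) → ZMod 3} (hG : Good G) (z : Fin 7 → ℕ) : SGV G z cAll = 0 := by
  rw [← SGV_perm G z cert_perm]
  exact SGV_flatMap G z cRel certRels (SGV_cRel hG z)

/-- conversion to formal combinations of permutations -/
noncomputable def toLP (D : List (ℤ × List ℕ)) : LP 6 := D.map fun q => (q.1, prm 6 q.2)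

def okL (D : List (ℤ × List ℕ)) : Prop := ∀ q ∈ D, q.2.length = 6 ∧ q.2.Nodup ∧ ∀ x ∈ q.2, x < 6

instance (D : List (ℤ × List ℕ)) : Decidable (okL D) := by unfold okL; infer_instance

lemma okL_prm {D : List (ℤ × List ℕ)} (h : okL D) {q : ℤ × List ℕ} (hq : q ∈ D) :
    lp (prm 6 q.2) = q.2 :=
  (prm_spec (Pool.Agent.Helper429.exists_perm (h q hq).1 (h q hq).2.1 (h q hq).2.2)).symm

lemma SM_toLP {D : List (ℤ × List ℕ)} (f : Equiv.Perm (Fin 6) → ZMod 3) (g : List ℕ → ZMod 3)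
    (h : ∀ q ∈ D, f (prm 6 q.2) = g q.2) : SM (toLP D) f = (D.map fun q => (q.1 : ZMod 3) * g q.2).sum := by
  unfold SM toLP
  rw [List.map_map]
  refine congrArg List.sum (List.map_congr_left ?_)
  intro q hq
  simp only [Function.comp]
  rw [h q hq]

/-- integral version -/
def IS (D : List (ℤ × List ℕ)) (g : List ℕ → ℤ) : ℤ := (D.map fun q => q.1 * g q.2).sum

lemma IS_cast (D : List (ℤ × List ℕ)) (g : List ℕ → ℤ) :
    (D.map fun q => (q.1 : ZMod 3) * ((g q.2 : ℤ) : ZMod 3)).sum = ((IS D g : ℤ) : ZMod 3) := by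
  unfold IS
  induction D with
  | nil => simp
  | cons q D ih => rw [List.map_cons, List.sum_cons, List.map_cons, List.sum_cons, ih]; push_cast; ring

lemma SM_int {D : List (ℤ × List ℕ)} (f : Equiv.Perm (Fin 6) → ZMod 3) (g : List ℕ → ℤ)
    (h : ∀ q ∈ D, f (prm 6 q.2) = ((g q.2 : ℤ) : ZMod 3)) : SM (toLP D) f = ((IS D g : ℤ) : ZMod 3) := by
  rw [SM_toLP f (fun l => ((g l : ℤ) : ZMod 3)) h, IS_cast]

def gK (η : ℕ → ℕ) (l : List ℕ) : ℤ := sgL l * hT6 (code (l.map η))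

lemma SM_K {D : List (ℤ × List ℕ)} (h : okL D) (τ : Equiv.Perm (Fin 6)) :
    SM (toLP D) (fun σ => Phi fh (τ * σ)) = sg τ * ((IS D (gK (pt (pl τ))) : ℤ) : ZMod 3) := by
  rw [← IS_cast, ← List.sum_map_mul_left]
  unfold SM toLP
  rw [List.map_map]
  refine congrArg List.sum (List.map_congr_left ?_)
  intro q hq
  simp only [Function.comp]
  rw [Phi_fh, sg_mul']
  have hp := okL_prm h hq
  have e1 : sgL q.2 = (Equiv.Perm.sign (prm 6 q.2) : ℤ) := by
    conv_lhs => rw [← hp]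
    exact sgL_ofFn _
  have e2 : KT (et (τ * prm 6 q.2)) = hT6 (code (q.2.map (pt (pl τ)))) := by
    unfold KT
    have e3 : q.2.map (pt (pl τ)) = q.2.map (et τ) :=
      List.map_congr_left (fun x hx => pt_pl τ ((h q hq).2.2 x hx))
    rw [e3]
    conv_rhs => rw [← hp]
    simp [lp, List.ofFn_succ, et, Pool.Agent.Helper429.tl]
  rw [e2]
  unfold gK
  rw [e1]
  push_cast
  ring

/-- the finite verification for a part of the certificate; `s` is the multiple of the word -/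
def chkPart (D : List (ℤ × List ℕ)) (s : ℤ) : Bool :=
  balP.all (fun l => decide ((IS D (gK (pt l)) - s) % 3 = 0)) &&
  (List.range 6).all (fun a => decide ((IS D (fun l => sgL l * cA a l) - IS D (fun l => sgL l * cA 0 l)) % 3 = 0)) &&
  (List.range 6).all (fun a => decide ((IS D (cd a) - IS D (cd 0)) % 3 = 0))

lemma chk_ct0 : chkPart ct0 0 = true := by decide +kernel
lemma chk_ct1 : chkPart ct1 0 = true := by decide +kernel
lemma chk_ct2 : chkPart ct2 0 = true := by decide +kernel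
lemma chk_ct3 : chkPart ct3 0 = true := by decide +kernel
lemma chk_ct4 : chkPart ct4 0 = true := by decide +kernel
lemma chk_ct5 : chkPart ct5 0 = true := by decide +kernel
lemma chk_ct6 : chkPart ct6 1 = true := by decide +kernel

lemma ok_ct0 : okL ct0 := by decide +kernel
lemma ok_ct1 : okL ct1 := by decide +kernel
lemma ok_ct2 : okL ct2 := by decide +kernel
lemma ok_ct3 : okL ct3 := by decide +kernel
lemma ok_ct4 : okL ct4 := by decide +kernel
lemma ok_ct5 : okL ct5 := by decide +kernel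
lemma ok_ct6 : okL ct6 := by decide +kernel

lemma chkPart_spec {D : List (ℤ × List ℕ)} {s : ℤ} (hD : okL D) (h : chkPart D s = true) :
    (∀ τ, SM (toLP D) (fun σ => Phi fh (τ * σ)) = sg τ * (s : ZMod 3)) ∧
    (∀ a : Fin 6, SM (toLP D) (fun σ => sg σ * A3 a σ) = SM (toLP D) (fun σ => sg σ * A3 0 σ)) ∧
    (∀ a : Fin 6, SM (toLP D) (dd a) = SM (toLP D) (dd 0)) := by
  unfold chkPart at h
  rw [Bool.and_eq_true, Bool.and_eq_true, List.all_eq_true, List.all_eq_true, List.all_eq_true] at h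
  obtain ⟨⟨h1, h2⟩, h3⟩ := h
  have hA : ∀ a : Fin 6, SM (toLP D) (fun σ => sg σ * A3 a σ) =
      ((IS D (fun l => sgL l * cA a l) : ℤ) : ZMod 3) := by
    intro a
    apply SM_int _ (fun l => sgL l * cA a l)
    intro q hq
    have hp := okL_prm hD hq
    have e1 : sgL q.2 = (Equiv.Perm.sign (prm 6 q.2) : ℤ) := by
      conv_lhs => rw [← hp]
      exact sgL_ofFn _
    rw [A3_lp, hp, e1]
    push_cast
    rfl
  have hdd : ∀ a : Fin 6, SM (toLP D) (dd a) = ((IS D (cd a) : ℤ) : ZMod 3) := by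
    intro a
    apply SM_int _ (cd a)
    intro q hq
    have hp := okL_prm hD hq
    rw [dd_lp, hp]
  refine ⟨fun τ => ?_, fun a => ?_, fun a => ?_⟩
  · rw [SM_K hD τ]
    have h4 := of_decide_eq_true (h1 _ (pl_mem τ))
    rw [cast_eq_of_mod h4]
  · rw [hA, hA]
    have h4 := of_decide_eq_true (h2 a (List.mem_range.2 a.2))
    exact cast_eq_of_mod h4
  · rw [hdd, hdd]
    have h4 := of_decide_eq_true (h3 a (List.mem_range.2 a.2))
    exact cast_eq_of_mod h4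

lemma SGV_clft (G : (Fin 7 → ℕ) → ZMod 3) (z : Fin 7 → ℕ) {D : List (ℤ × List ℕ)} (hD : okL D)
    (c : Fin 7) : SGV G z (clft c D) = SM (toLP D)
      (fun σ => G (sn (fun j => z ⟨cdl c j % 7, Nat.mod_lt _ (by norm_num)⟩) σ (z c))) := by
  unfold SGV clft SM toLP
  rw [List.map_map, List.map_map]
  refine congrArg List.sum (List.map_congr_left ?_)
  intro q hq
  simp only [Function.comp]
  congr 1
  unfold gvl
  congr 1
  funext j
  have hp := okL_prm hD hq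
  have hlen := (hD q hq).1
  unfold sn
  induction j using Fin.lastCases with
  | last =>
    rw [Fin.snoc_last]
    congr 1
    apply Fin.ext
    have h5 : (List.map (cdl c) q.2 ++ [(c : ℕ)]).getD (Fin.last 6 : Fin 7) 0 = c := by
      rw [List.getD_append_right _ _ _ _ (by simp [hlen])]
      simp [hlen]
    simp only [h5]
    exact Nat.mod_eq_of_lt c.2
  | cast j =>
    rw [Fin.snoc_castSucc]
    congr 1
    apply Fin.ext
    have hj : (j : ℕ) < q.2.length := by rw [hlen]; exact j.2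
    have h5 : q.2[(j : ℕ)] = (prm 6 q.2 j : ℕ) := by
      have := lp_getD (prm 6 q.2) j
      rw [hp, List.getD_eq_getElem _ _ hj] at this
      exact this
    have h6 : (List.map (cdl c) q.2 ++ [(c : ℕ)]).getD (Fin.castSucc j : Fin 7) 0 =
        cdl c (prm 6 q.2 j) := by
      simp only [Fin.val_castSucc]
      rw [List.getD_append _ _ _ _ (by simpa using hj),
        List.getD_eq_getElem _ _ (by simpa using hj), List.getElem_map, h5]
    simp only [h6]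

lemma SM_append {n : ℕ} (D E : LP n) (f : Equiv.Perm (Fin n) → ZMod 3) :
    SM (D ++ E) f = SM D f + SM E f := by simp [SM]

lemma part_zero {G : (Fin 7 → ℕ) → ZMod 3} (hG : Good G) (z : Fin 7 → ℕ) {D : List (ℤ × List ℕ)}
    (hD : okL D) (h : chkPart D 0 = true) (c : Fin 7) : SGV G z (clft c D) = 0 := by
  obtain ⟨h1, h2, h3⟩ := chkPart_spec hD h
  rw [SGV_clft G z hD]
  apply hG.rel1
  apply wd_mem_SS
  · intro τ; rw [h1]; simp
  · intro a b; rw [h2 a, h2 b]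
  · intro a b; rw [h3 a, h3 b]

/-- the negative of the word -/
def nwrd : LP 6 := wrdP.map fun q => (-q.1, q.2)

lemma SM_nwrd (f : Equiv.Perm (Fin 6) → ZMod 3) : SM nwrd f = - SM wrdP f := by
  unfold SM nwrd wrdP
  simp only [List.map_cons, List.map_nil, List.sum_cons, List.sum_nil]
  push_cast
  ring

lemma wrd_al (a : Fin 6) : SM wrdP (fun σ => sg σ * A3 a σ) = 0 := by
  unfold SM wrdP
  simp only [List.map_cons, List.map_nil, List.sum_cons, List.sum_nil]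
  revert a
  decide +kernel

lemma wrd_dl (a : Fin 6) : SM wrdP (dd a) = 0 := by
  unfold SM wrdP
  simp only [List.map_cons, List.map_nil, List.sum_cons, List.sum_nil]
  revert a
  decide +kernel

theorem good_wrd {G : (Fin 7 → ℕ) → ZMod 3} (hG : Good G) (y : Fin 6 → ℕ) (c : ℕ) :
    SM wrdP (fun σ => G (sn y σ c)) = 0 := by
  let z : Fin 7 → ℕ := Fin.snoc (α := fun _ => ℕ) y c
  have h := SGV_cAll hG z
  unfold cAll at h
  rw [SGV_append, SGV_append, SGV_append, SGV_append, SGV_append, SGV_append] at h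
  have p0 := part_zero hG z ok_ct0 chk_ct0 0
  have p1 := part_zero hG z ok_ct1 chk_ct1 1
  have p2 := part_zero hG z ok_ct2 chk_ct2 2
  have p3 := part_zero hG z ok_ct3 chk_ct3 3
  have p4 := part_zero hG z ok_ct4 chk_ct4 4
  have p5 := part_zero hG z ok_ct5 chk_ct5 5
  have p6 := SGV_clft G z ok_ct6 6
  have e1 : ((0 : Fin 7) : ℕ) = 0 := rfl
  have e2 : ((1 : Fin 7) : ℕ) = 1 := rfl
  have e3 : ((2 : Fin 7) : ℕ) = 2 := rfl
  have e4 : ((3 : Fin 7) : ℕ) = 3 := rfl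
  have e5 : ((4 : Fin 7) : ℕ) = 4 := rfl
  have e6 : ((5 : Fin 7) : ℕ) = 5 := rfl
  have e7 : ((6 : Fin 7) : ℕ) = 6 := rfl
  rw [e1] at p0
  rw [e2] at p1
  rw [e3] at p2
  rw [e4] at p3
  rw [e5] at p4
  rw [e6] at p5
  rw [e7] at p6
  rw [p0, p1, p2, p3, p4, p5, p6] at h
  have hy : (fun j : Fin 6 => z ⟨cdl 6 j % 7, Nat.mod_lt _ (by norm_num)⟩) = y := by
    funext j
    have : (⟨cdl 6 j % 7, Nat.mod_lt _ (by norm_num)⟩ : Fin 7) = Fin.castSucc j := by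
      apply Fin.ext
      simp only [cdl, Fin.val_castSucc]
      have := j.2
      rw [if_pos this]
      omega
    rw [this]
    exact Fin.snoc_castSucc (α := fun _ => ℕ) _ _ _
  have hz : z 6 = c := Fin.snoc_last (α := fun _ => ℕ) c y
  rw [hy, hz] at h
  obtain ⟨h1, h2, h3⟩ := chkPart_spec ok_ct6 chk_ct6
  have hmem : wd 6 FreeGroup.of (toLP ct6 ++ nwrd) ∈ SS := by
    apply wd_mem_SS
    · intro τ
      rw [SM_append, SM_nwrd, h1, wrd_K]
      simp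
    · intro a b
      rw [SM_append, SM_append, SM_nwrd, SM_nwrd, wrd_al, wrd_al, h2 a, h2 b]
    · intro a b
      rw [SM_append, SM_append, SM_nwrd, SM_nwrd, wrd_dl, wrd_dl, h3 a, h3 b]
  have h4 := hG.rel1 _ hmem y c
  rw [SM_append, SM_nwrd] at h4
  simp only [zero_add] at h
  rw [h, zero_add, neg_eq_zero] at h4
  exact h4

end Pool.Agent.H53R3
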