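import Mathlib
import Pool.Agent.H53R3.Cert

set_option autoImplicit false

/-!
Formal combinations whose functionals of degree seven vanish.
-/

namespace Pool.Agent.H53R3

open scoped commutatorElement

lemma SM_congr {n : ℕ} {D : LP n} {f g : Equiv.Perm (Fin n) → ZMod 3} (h : ∀ σ, f σ = g σ) :
    SM D f = SM D g := by
  have : f = g := funext h
  rw [this]

lemma SM_add {n : ℕ} (D : LP n) (f g : Equiv.Perm (Fin n) → ZMod 3) :
    SM D (fun σ => f σ + g σ) = SM D f + SM D g := by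
  unfold SM
  induction D with
  | nil => simp
  | cons q D ih =>
    simp only [List.map_cons, List.sum_cons] at ih ⊢
    rw [ih]; ring

lemma SM_mul {n : ℕ} (D : LP n) (c : ZMod 3) (f : Equiv.Perm (Fin n) → ZMod 3) :
    SM D (fun σ => c * f σ) = c * SM D f := by
  unfold SM
  induction D with
  | nil => simp
  | cons q D ih =>
    simp only [List.map_cons, List.sum_cons] at ih ⊢
    rw [ih]; ring

lemma SM_neg {n : ℕ} (D : LP n) (f : Equiv.Perm (Fin n) → ZMod 3) :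
    SM D (fun σ => - f σ) = - SM D f := by
  have := SM_mul D (-1) f
  simpa using this

lemma SM_sub {n : ℕ} (D : LP n) (f g : Equiv.Perm (Fin n) → ZMod 3) :
    SM D (fun σ => f σ - g σ) = SM D f - SM D g := by
  have h1 := SM_add D f (fun σ => - g σ)
  rw [SM_neg] at h1
  rw [sub_eq_add_neg, ← h1]
  exact SM_congr fun σ => sub_eq_add_neg _ _

lemma A3_mul {n : ℕ} [NeZero n] (s : Fin n) (τ σ : Equiv.Perm (Fin n)) :
    A3 s (τ * σ) = A3 (τ⁻¹ s) σ := by
  unfold A3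
  have h : ∀ j, ((τ * σ) j = s) = (σ j = τ⁻¹ s) := fun j => by
    rw [Equiv.Perm.mul_apply, Equiv.Perm.eq_inv_iff_eq]
  congr 1
  rw [h, h, h]

lemma B3_mul {n : ℕ} [NeZero n] (s : Fin n) (τ σ : Equiv.Perm (Fin n)) :
    B3 s (τ * σ) = B3 (τ⁻¹ s) σ := by
  unfold B3
  have h : ∀ j, ((τ * σ) j = s) = (σ j = τ⁻¹ s) := fun j => by
    rw [Equiv.Perm.mul_apply, Equiv.Perm.eq_inv_iff_eq]
  congr 1
  rw [h, h, h]

lemma dd_mul {n : ℕ} [NeZero n] (s : Fin n) (τ σ : Equiv.Perm (Fin n)) :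
    dd s (τ * σ) = dd (τ⁻¹ s) σ := by
  unfold dd
  have h : ∀ j, ((τ * σ) j = s) = (σ j = τ⁻¹ s) := fun j => by
    rw [Equiv.Perm.mul_apply, Equiv.Perm.eq_inv_iff_eq]
  congr 2
  · rw [h]
  · rw [h]

lemma sg_one {n : ℕ} : sg (1 : Equiv.Perm (Fin n)) = 1 := by simp [sg]

lemma sg_swap {n : ℕ} {a b : Fin n} (h : a ≠ b) : sg (Equiv.swap a b) = -1 := by
  simp [sg, Equiv.Perm.sign_swap h]

lemma kb_sign (D : LP 6) (hd : ∀ a b : Fin 6, SM D (dd a) = SM D (dd b)) (τ : Equiv.Perm (Fin 6)) :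
    SM D (fun σ => bS (τ * σ)) = sg τ * SM D (fun σ => bS (1 * σ)) := by
  have hmem : τ ∈ Submonoid.closure (Set.range fun i : Fin 5 => Equiv.swap i.castSucc i.succ) := by
    rw [Equiv.Perm.mclosure_swap_castSucc_succ]; trivial
  have hdd : ∀ (ρ : Equiv.Perm (Fin 6)) (a b : Fin 6),
      SM D (fun σ => dd a (ρ * σ) - dd b (ρ * σ)) = 0 := by
    intro ρ a b
    rw [SM_sub]
    have e1 : SM D (fun σ => dd a (ρ * σ)) = SM D (dd (ρ⁻¹ a)) := SM_congr fun σ => dd_mul a ρ σ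
    have e2 : SM D (fun σ => dd b (ρ * σ)) = SM D (dd (ρ⁻¹ b)) := SM_congr fun σ => dd_mul b ρ σ
    rw [e1, e2, hd (ρ⁻¹ a) (ρ⁻¹ b), sub_self]
  induction hmem using Submonoid.closure_induction_left with
  | one => rw [sg_one, one_mul]
  | mul_left x hx y _ ih =>
    obtain ⟨i, rfl⟩ := hx
    have hne : (i.castSucc : Fin 6) ≠ i.succ := by
      intro h
      have := congrArg Fin.val h
      simp at this
    rw [sg_mul', sg_swap hne]
    have key : SM D (fun σ => bS (Equiv.swap i.castSucc i.succ * y * σ)) =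
        - SM D (fun σ => bS (y * σ)) := by
      rw [← SM_neg]
      have hc : i = 0 ∨ i = 1 ∨ i = 2 ∨ i = 3 ∨ i = 4 := by
        revert i; decide
      rcases hc with rfl | rfl | rfl | rfl | rfl
      · exact SM_congr fun σ => by rw [mul_assoc]; exact bS_swap01 (y * σ)
      · have e : SM D (fun σ => bS (Equiv.swap (Fin.castSucc 1) (Fin.succ 1) * y * σ)) =
            SM D (fun σ => - bS (y * σ) + (dd 4 (y * σ) - dd 5 (y * σ))) :=
          SM_congr fun σ => by rw [mul_assoc]; exact bS_swap12 (y * σ)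
        rw [e, SM_add, hdd, add_zero]
      · exact SM_congr fun σ => by rw [mul_assoc]; exact bS_swap23 (y * σ)
      · have e : SM D (fun σ => bS (Equiv.swap (Fin.castSucc 3) (Fin.succ 3) * y * σ)) =
            SM D (fun σ => - bS (y * σ) + (dd 0 (y * σ) - dd 1 (y * σ))) :=
          SM_congr fun σ => by rw [mul_assoc]; exact bS_swap34 (y * σ)
        rw [e, SM_add, hdd, add_zero]
      · exact SM_congr fun σ => by rw [mul_assoc]; exact bS_swap45 (y * σ)
    rw [key, ih]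
    ring

lemma K_sign (D : LP 6)
    (ha : ∀ a b : Fin 6, SM D (fun σ => sg σ * A3 a σ) = SM D (fun σ => sg σ * A3 b σ))
    (hd : ∀ a b : Fin 6, SM D (dd a) = SM D (dd b)) :
    ∃ c : ZMod 3, ∀ τ, SM D (fun σ => Phi fh (τ * σ)) = sg τ * c := by
  refine ⟨SM D (fun σ => bS (1 * σ)) + (SM D (fun σ => sg σ * A3 0 σ) + SM D (fun σ => sg σ * A3 0 σ)),
    fun τ => ?_⟩
  have e1 : SM D (fun σ => Phi fh (τ * σ)) = SM D (fun σ => bS (τ * σ) +
      sg τ * (sg σ * A3 (τ⁻¹ 0) σ + sg σ * A3 (τ⁻¹ 1) σ)) := by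
    apply SM_congr
    intro σ
    have h1 : bS (τ * σ) = Phi fh (τ * σ) - sg (τ * σ) * (A3 0 (τ * σ) + A3 1 (τ * σ)) := rfl
    rw [h1, sg_mul', A3_mul, A3_mul]
    ring
  rw [e1, SM_add, SM_mul, SM_add, kb_sign D hd, ha (τ⁻¹ 0) 0, ha (τ⁻¹ 1) 0]
  ring

/-- a multiple of the word -/
def mwrd (c : ℤ) : LP 6 := wrdP.map fun q => (c * q.1, q.2)

lemma SM_mwrd (c : ℤ) (f : Equiv.Perm (Fin 6) → ZMod 3) : SM (mwrd c) f = c * SM wrdP f := by
  unfold SM mwrd wrdP
  simp only [List.map_cons, List.map_nil, List.sum_cons, List.sum_nil]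
  push_cast
  ring

theorem good_B {G : (Fin 7 → ℕ) → ZMod 3} (hG : Good G) (D : LP 6)
    (ha : ∀ a b : Fin 6, SM D (fun σ => sg σ * A3 a σ) = SM D (fun σ => sg σ * A3 b σ))
    (hd : ∀ a b : Fin 6, SM D (dd a) = SM D (dd b)) (y : Fin 6 → ℕ) (c : ℕ) :
    SM D (fun σ => G (sn y σ c)) = 0 := by
  obtain ⟨k, hk⟩ := K_sign D ha hd
  have hcast : (((-(k.val : ℤ)) : ℤ) : ZMod 3) = -k := by
    push_cast
    rw [ZMod.natCast_zmod_val]
  have hmem : wd 6 FreeGroup.of (D ++ mwrd (-(k.val : ℤ))) ∈ SS := by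
    apply wd_mem_SS
    · intro τ
      rw [SM_append, SM_mwrd, hk, wrd_K, hcast]
      ring
    · intro a b
      rw [SM_append, SM_append, SM_mwrd, SM_mwrd, wrd_al, wrd_al, ha a b]
    · intro a b
      rw [SM_append, SM_append, SM_mwrd, SM_mwrd, wrd_dl, wrd_dl, hd a b]
  have h4 := hG.rel1 _ hmem y c
  rw [SM_append, SM_mwrd, good_wrd hG, mul_zero, add_zero] at h4
  exact h4

end Pool.Agent.H53R3
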