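import Mathlib
import Pool.Agent.H53R3.Base

set_option autoImplicit false

namespace Pool.Agent.H53R3

open scoped commutatorElement
open Pool.Agent.Helper429 (L X keep kill rnm er asc adr evP Cg)

lemma clc_term {G : (Fin 7 → ℕ) → ZMod 3} (P Q : Fin 7 → Fin 7 → ZMod 3)
    (hPQ : ∀ σ : Equiv.Perm (Fin 7), G (fun j => (σ j : ℕ)) =
        P (σ 6) (σ 0) - P (σ 6) (σ 1) + sg σ * (Q (σ 6) (σ 0) + Q (σ 6) (σ 1) + Q (σ 6) (σ 2)))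
    (σ : Equiv.Perm (Fin 7)) (l : List ℕ) (π : Equiv.Perm (Fin 7))
    (h : ∀ j : Fin 7, (⟨l.getD j 0 % 7, Nat.mod_lt _ (by norm_num)⟩ : Fin 7) = π j) (e : ℤ)
    (he : (Equiv.Perm.sign π : ℤ) = e) (a b c d : Fin 7) (ha : π 6 = a) (hb : π 0 = b) (hc : π 1 = c)
    (hd : π 2 = d) :
    G (fun j => ((σ ⟨l.getD j 0 % 7, Nat.mod_lt _ (by norm_num)⟩ : Fin 7) : ℕ)) =
      P (σ a) (σ b) - P (σ a) (σ c) +
        sg σ * (e : ZMod 3) * (Q (σ a) (σ b) + Q (σ a) (σ c) + Q (σ a) (σ d)) := by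
  have h1 : (fun j : Fin 7 => ((σ ⟨l.getD j 0 % 7, Nat.mod_lt _ (by norm_num)⟩ : Fin 7) : ℕ)) =
      fun j => (((σ * π) j : Fin 7) : ℕ) := by
    funext j
    rw [h j, Equiv.Perm.mul_apply]
  rw [h1, hPQ]
  simp only [Equiv.Perm.mul_apply, ha, hb, hc, hd, sg, map_mul, Units.val_mul, he, Int.cast_mul]

lemma clc_t0 : ∃ π : Equiv.Perm (Fin 7),
    (∀ j : Fin 7, (⟨([0, 1, 2, 3, 4, 5, 6] : List ℕ).getD j 0 % 7, Nat.mod_lt _ (by norm_num)⟩ : Fin 7) = π j) ∧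
    (Equiv.Perm.sign π : ℤ) = 1 ∧ π 6 = 6 ∧ π 0 = 0 ∧ π 1 = 1 ∧ π 2 = 2 := by
  exact ⟨1, by decide, by decide, by decide, by decide, by decide, by decide⟩

lemma clc_t1 : ∃ π : Equiv.Perm (Fin 7),
    (∀ j : Fin 7, (⟨([0, 1, 2, 3, 4, 6, 5] : List ℕ).getD j 0 % 7, Nat.mod_lt _ (by norm_num)⟩ : Fin 7) = π j) ∧
    (Equiv.Perm.sign π : ℤ) = -1 ∧ π 6 = 5 ∧ π 0 = 0 ∧ π 1 = 1 ∧ π 2 = 2 := by
  exact ⟨Equiv.swap 5 6, by decide, by decide, by decide, by decide, by decide, by decide⟩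

lemma clc_t2 : ∃ π : Equiv.Perm (Fin 7),
    (∀ j : Fin 7, (⟨([5, 6, 0, 1, 2, 3, 4] : List ℕ).getD j 0 % 7, Nat.mod_lt _ (by norm_num)⟩ : Fin 7) = π j) ∧
    (Equiv.Perm.sign π : ℤ) = 1 ∧ π 6 = 4 ∧ π 0 = 5 ∧ π 1 = 6 ∧ π 2 = 0 := by
  exact ⟨Equiv.swap 0 5 * Equiv.swap 1 6 * Equiv.swap 2 5 * Equiv.swap 3 6 * Equiv.swap 4 5 * Equiv.swap 5 6, by decide, by decide, by decide, by decide, by decide, by decide⟩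

lemma clc_t3 : ∃ π : Equiv.Perm (Fin 7),
    (∀ j : Fin 7, (⟨([5, 6, 1, 0, 2, 3, 4] : List ℕ).getD j 0 % 7, Nat.mod_lt _ (by norm_num)⟩ : Fin 7) = π j) ∧
    (Equiv.Perm.sign π : ℤ) = -1 ∧ π 6 = 4 ∧ π 0 = 5 ∧ π 1 = 6 ∧ π 2 = 1 := by
  exact ⟨Equiv.swap 0 5 * Equiv.swap 1 6 * Equiv.swap 2 6 * Equiv.swap 3 5 * Equiv.swap 4 6, by decide, by decide, by decide, by decide, by decide, by decide⟩

lemma clc_t4 : ∃ π : Equiv.Perm (Fin 7),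
    (∀ j : Fin 7, (⟨([5, 6, 2, 0, 1, 3, 4] : List ℕ).getD j 0 % 7, Nat.mod_lt _ (by norm_num)⟩ : Fin 7) = π j) ∧
    (Equiv.Perm.sign π : ℤ) = 1 ∧ π 6 = 4 ∧ π 0 = 5 ∧ π 1 = 6 ∧ π 2 = 2 := by
  exact ⟨Equiv.swap 0 5 * Equiv.swap 1 6 * Equiv.swap 3 5 * Equiv.swap 4 6, by decide, by decide, by decide, by decide, by decide, by decide⟩

lemma clc_t5 : ∃ π : Equiv.Perm (Fin 7),
    (∀ j : Fin 7, (⟨([5, 6, 2, 1, 0, 3, 4] : List ℕ).getD j 0 % 7, Nat.mod_lt _ (by norm_num)⟩ : Fin 7) = π j) ∧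
    (Equiv.Perm.sign π : ℤ) = -1 ∧ π 6 = 4 ∧ π 0 = 5 ∧ π 1 = 6 ∧ π 2 = 2 := by
  exact ⟨Equiv.swap 0 5 * Equiv.swap 1 6 * Equiv.swap 3 6 * Equiv.swap 4 5 * Equiv.swap 5 6, by decide, by decide, by decide, by decide, by decide, by decide⟩

lemma clc_t6 : ∃ π : Equiv.Perm (Fin 7),
    (∀ j : Fin 7, (⟨([5, 6, 3, 0, 1, 2, 4] : List ℕ).getD j 0 % 7, Nat.mod_lt _ (by norm_num)⟩ : Fin 7) = π j) ∧
    (Equiv.Perm.sign π : ℤ) = -1 ∧ π 6 = 4 ∧ π 0 = 5 ∧ π 1 = 6 ∧ π 2 = 3 := by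
  exact ⟨Equiv.swap 0 5 * Equiv.swap 1 6 * Equiv.swap 2 3 * Equiv.swap 3 5 * Equiv.swap 4 6, by decide, by decide, by decide, by decide, by decide, by decide⟩

lemma clc_t7 : ∃ π : Equiv.Perm (Fin 7),
    (∀ j : Fin 7, (⟨([5, 6, 3, 1, 0, 2, 4] : List ℕ).getD j 0 % 7, Nat.mod_lt _ (by norm_num)⟩ : Fin 7) = π j) ∧
    (Equiv.Perm.sign π : ℤ) = 1 ∧ π 6 = 4 ∧ π 0 = 5 ∧ π 1 = 6 ∧ π 2 = 3 := by
  exact ⟨Equiv.swap 0 5 * Equiv.swap 1 6 * Equiv.swap 2 3 * Equiv.swap 3 6 * Equiv.swap 4 5 * Equiv.swap 5 6, by decide, by decide, by decide, by decide, by decide, by decide⟩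

lemma clc_t8 : ∃ π : Equiv.Perm (Fin 7),
    (∀ j : Fin 7, (⟨([5, 6, 3, 2, 0, 1, 4] : List ℕ).getD j 0 % 7, Nat.mod_lt _ (by norm_num)⟩ : Fin 7) = π j) ∧
    (Equiv.Perm.sign π : ℤ) = -1 ∧ π 6 = 4 ∧ π 0 = 5 ∧ π 1 = 6 ∧ π 2 = 3 := by
  exact ⟨Equiv.swap 0 5 * Equiv.swap 1 6 * Equiv.swap 2 3 * Equiv.swap 4 5 * Equiv.swap 5 6, by decide, by decide, by decide, by decide, by decide, by decide⟩

lemma clc_t9 : ∃ π : Equiv.Perm (Fin 7),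
    (∀ j : Fin 7, (⟨([5, 6, 3, 2, 1, 0, 4] : List ℕ).getD j 0 % 7, Nat.mod_lt _ (by norm_num)⟩ : Fin 7) = π j) ∧
    (Equiv.Perm.sign π : ℤ) = 1 ∧ π 6 = 4 ∧ π 0 = 5 ∧ π 1 = 6 ∧ π 2 = 3 := by
  exact ⟨Equiv.swap 0 5 * Equiv.swap 1 6 * Equiv.swap 2 3 * Equiv.swap 4 6, by decide, by decide, by decide, by decide, by decide, by decide⟩

lemma clc_t10 : ∃ π : Equiv.Perm (Fin 7),
    (∀ j : Fin 7, (⟨([5, 6, 4, 0, 1, 2, 3] : List ℕ).getD j 0 % 7, Nat.mod_lt _ (by norm_num)⟩ : Fin 7) = π j) ∧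
    (Equiv.Perm.sign π : ℤ) = 1 ∧ π 6 = 3 ∧ π 0 = 5 ∧ π 1 = 6 ∧ π 2 = 4 := by
  exact ⟨Equiv.swap 0 5 * Equiv.swap 1 6 * Equiv.swap 2 4 * Equiv.swap 3 5 * Equiv.swap 4 6 * Equiv.swap 5 6, by decide, by decide, by decide, by decide, by decide, by decide⟩

lemma clc_t11 : ∃ π : Equiv.Perm (Fin 7),
    (∀ j : Fin 7, (⟨([5, 6, 4, 1, 0, 2, 3] : List ℕ).getD j 0 % 7, Nat.mod_lt _ (by norm_num)⟩ : Fin 7) = π j) ∧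
    (Equiv.Perm.sign π : ℤ) = -1 ∧ π 6 = 3 ∧ π 0 = 5 ∧ π 1 = 6 ∧ π 2 = 4 := by
  exact ⟨Equiv.swap 0 5 * Equiv.swap 1 6 * Equiv.swap 2 4 * Equiv.swap 3 6 * Equiv.swap 4 5, by decide, by decide, by decide, by decide, by decide, by decide⟩

lemma clc_t12 : ∃ π : Equiv.Perm (Fin 7),
    (∀ j : Fin 7, (⟨([5, 6, 4, 2, 0, 1, 3] : List ℕ).getD j 0 % 7, Nat.mod_lt _ (by norm_num)⟩ : Fin 7) = π j) ∧
    (Equiv.Perm.sign π : ℤ) = 1 ∧ π 6 = 3 ∧ π 0 = 5 ∧ π 1 = 6 ∧ π 2 = 4 := by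
  exact ⟨Equiv.swap 0 5 * Equiv.swap 1 6 * Equiv.swap 2 4 * Equiv.swap 3 4 * Equiv.swap 4 5 * Equiv.swap 5 6, by decide, by decide, by decide, by decide, by decide, by decide⟩

lemma clc_t13 : ∃ π : Equiv.Perm (Fin 7),
    (∀ j : Fin 7, (⟨([5, 6, 4, 2, 1, 0, 3] : List ℕ).getD j 0 % 7, Nat.mod_lt _ (by norm_num)⟩ : Fin 7) = π j) ∧
    (Equiv.Perm.sign π : ℤ) = -1 ∧ π 6 = 3 ∧ π 0 = 5 ∧ π 1 = 6 ∧ π 2 = 4 := by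
  exact ⟨Equiv.swap 0 5 * Equiv.swap 1 6 * Equiv.swap 2 4 * Equiv.swap 3 4 * Equiv.swap 4 6, by decide, by decide, by decide, by decide, by decide, by decide⟩

lemma clc_t14 : ∃ π : Equiv.Perm (Fin 7),
    (∀ j : Fin 7, (⟨([5, 6, 4, 3, 0, 1, 2] : List ℕ).getD j 0 % 7, Nat.mod_lt _ (by norm_num)⟩ : Fin 7) = π j) ∧
    (Equiv.Perm.sign π : ℤ) = -1 ∧ π 6 = 2 ∧ π 0 = 5 ∧ π 1 = 6 ∧ π 2 = 4 := by
  exact ⟨Equiv.swap 0 5 * Equiv.swap 1 6 * Equiv.swap 2 4 * Equiv.swap 4 5 * Equiv.swap 5 6, by decide, by decide, by decide, by decide, by decide, by decide⟩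

lemma clc_t15 : ∃ π : Equiv.Perm (Fin 7),
    (∀ j : Fin 7, (⟨([5, 6, 4, 3, 1, 0, 2] : List ℕ).getD j 0 % 7, Nat.mod_lt _ (by norm_num)⟩ : Fin 7) = π j) ∧
    (Equiv.Perm.sign π : ℤ) = 1 ∧ π 6 = 2 ∧ π 0 = 5 ∧ π 1 = 6 ∧ π 2 = 4 := by
  exact ⟨Equiv.swap 0 5 * Equiv.swap 1 6 * Equiv.swap 2 4 * Equiv.swap 4 6, by decide, by decide, by decide, by decide, by decide, by decide⟩

lemma clc_t16 : ∃ π : Equiv.Perm (Fin 7),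
    (∀ j : Fin 7, (⟨([5, 6, 4, 3, 2, 0, 1] : List ℕ).getD j 0 % 7, Nat.mod_lt _ (by norm_num)⟩ : Fin 7) = π j) ∧
    (Equiv.Perm.sign π : ℤ) = -1 ∧ π 6 = 1 ∧ π 0 = 5 ∧ π 1 = 6 ∧ π 2 = 4 := by
  exact ⟨Equiv.swap 0 5 * Equiv.swap 1 6 * Equiv.swap 2 4, by decide, by decide, by decide, by decide, by decide, by decide⟩

lemma clc_t17 : ∃ π : Equiv.Perm (Fin 7),
    (∀ j : Fin 7, (⟨([5, 6, 4, 3, 2, 1, 0] : List ℕ).getD j 0 % 7, Nat.mod_lt _ (by norm_num)⟩ : Fin 7) = π j) ∧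
    (Equiv.Perm.sign π : ℤ) = 1 ∧ π 6 = 0 ∧ π 0 = 5 ∧ π 1 = 6 ∧ π 2 = 4 := by
  exact ⟨Equiv.swap 0 5 * Equiv.swap 1 6 * Equiv.swap 2 4 * Equiv.swap 5 6, by decide, by decide, by decide, by decide, by decide, by decide⟩

lemma clc_s3 (g : Fin 7 → ZMod 3) : ∑ i ∈ ({0, 1, 2} : Finset (Fin 7)), g i = g 0 + g 1 + g 2 := by
  rw [Finset.sum_insert (by decide), Finset.sum_insert (by decide), Finset.sum_singleton]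
  ring

lemma clc_e3 (g : Fin 7 → ZMod 3) : ∑ i ∈ ({4, 5, 6} : Finset (Fin 7)), g i = g 4 + g 5 + g 6 := by
  rw [Finset.sum_insert (by decide), Finset.sum_insert (by decide), Finset.sum_singleton]
  ring

lemma clc_main {G : (Fin 7 → ℕ) → ZMod 3} (hG : Good G) (P Q : Fin 7 → Fin 7 → ZMod 3)
    (hPQ : ∀ σ : Equiv.Perm (Fin 7), G (fun j => (σ j : ℕ)) =
        P (σ 6) (σ 0) - P (σ 6) (σ 1) + sg σ * (Q (σ 6) (σ 0) + Q (σ 6) (σ 1) + Q (σ 6) (σ 2)))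
    (σ : Equiv.Perm (Fin 7)) :
    ((P (σ 6) (σ 0) - P (σ 0) (σ 6)) - (P (σ 6) (σ 1) - P (σ 1) (σ 6)) -
      (P (σ 5) (σ 0) - P (σ 0) (σ 5)) + (P (σ 5) (σ 1) - P (σ 1) (σ 5))) +
      sg σ * ∑ i ∈ ({0, 1, 2} : Finset (Fin 7)), ∑ j ∈ ({4, 5, 6} : Finset (Fin 7)),
        (Q (σ i) (σ j) + Q (σ j) (σ i)) = 0 := by
  have h := hG.rel52 (fun j => (σ j : ℕ))
  simp only [adr, List.map_cons, List.map_nil, List.cons_append, List.nil_append, List.sum_cons,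
    List.sum_nil] at h
  obtain ⟨π0, a0, b0, c0, d0, e0, f0⟩ := clc_t0
  rw [clc_term P Q hPQ σ [0, 1, 2, 3, 4, 5, 6] π0 a0 _ b0 _ _ _ _ c0 d0 e0 f0] at h
  obtain ⟨π1, a1, b1, c1, d1, e1, f1⟩ := clc_t1
  rw [clc_term P Q hPQ σ [0, 1, 2, 3, 4, 6, 5] π1 a1 _ b1 _ _ _ _ c1 d1 e1 f1] at h
  obtain ⟨π2, a2, b2, c2, d2, e2, f2⟩ := clc_t2
  rw [clc_term P Q hPQ σ [5, 6, 0, 1, 2, 3, 4] π2 a2 _ b2 _ _ _ _ c2 d2 e2 f2] at h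
  obtain ⟨π3, a3, b3, c3, d3, e3, f3⟩ := clc_t3
  rw [clc_term P Q hPQ σ [5, 6, 1, 0, 2, 3, 4] π3 a3 _ b3 _ _ _ _ c3 d3 e3 f3] at h
  obtain ⟨π4, a4, b4, c4, d4, e4, f4⟩ := clc_t4
  rw [clc_term P Q hPQ σ [5, 6, 2, 0, 1, 3, 4] π4 a4 _ b4 _ _ _ _ c4 d4 e4 f4] at h
  obtain ⟨π5, a5, b5, c5, d5, e5, f5⟩ := clc_t5
  rw [clc_term P Q hPQ σ [5, 6, 2, 1, 0, 3, 4] π5 a5 _ b5 _ _ _ _ c5 d5 e5 f5] at h
  obtain ⟨π6, a6, b6, c6, d6, e6, f6⟩ := clc_t6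
  rw [clc_term P Q hPQ σ [5, 6, 3, 0, 1, 2, 4] π6 a6 _ b6 _ _ _ _ c6 d6 e6 f6] at h
  obtain ⟨π7, a7, b7, c7, d7, e7, f7⟩ := clc_t7
  rw [clc_term P Q hPQ σ [5, 6, 3, 1, 0, 2, 4] π7 a7 _ b7 _ _ _ _ c7 d7 e7 f7] at h
  obtain ⟨π8, a8, b8, c8, d8, e8, f8⟩ := clc_t8
  rw [clc_term P Q hPQ σ [5, 6, 3, 2, 0, 1, 4] π8 a8 _ b8 _ _ _ _ c8 d8 e8 f8] at h
  obtain ⟨π9, a9, b9, c9, d9, e9, f9⟩ := clc_t9
  rw [clc_term P Q hPQ σ [5, 6, 3, 2, 1, 0, 4] π9 a9 _ b9 _ _ _ _ c9 d9 e9 f9] at h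
  obtain ⟨π10, a10, b10, c10, d10, e10, f10⟩ := clc_t10
  rw [clc_term P Q hPQ σ [5, 6, 4, 0, 1, 2, 3] π10 a10 _ b10 _ _ _ _ c10 d10 e10 f10] at h
  obtain ⟨π11, a11, b11, c11, d11, e11, f11⟩ := clc_t11
  rw [clc_term P Q hPQ σ [5, 6, 4, 1, 0, 2, 3] π11 a11 _ b11 _ _ _ _ c11 d11 e11 f11] at h
  obtain ⟨π12, a12, b12, c12, d12, e12, f12⟩ := clc_t12
  rw [clc_term P Q hPQ σ [5, 6, 4, 2, 0, 1, 3] π12 a12 _ b12 _ _ _ _ c12 d12 e12 f12] at h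
  obtain ⟨π13, a13, b13, c13, d13, e13, f13⟩ := clc_t13
  rw [clc_term P Q hPQ σ [5, 6, 4, 2, 1, 0, 3] π13 a13 _ b13 _ _ _ _ c13 d13 e13 f13] at h
  obtain ⟨π14, a14, b14, c14, d14, e14, f14⟩ := clc_t14
  rw [clc_term P Q hPQ σ [5, 6, 4, 3, 0, 1, 2] π14 a14 _ b14 _ _ _ _ c14 d14 e14 f14] at h
  obtain ⟨π15, a15, b15, c15, d15, e15, f15⟩ := clc_t15
  rw [clc_term P Q hPQ σ [5, 6, 4, 3, 1, 0, 2] π15 a15 _ b15 _ _ _ _ c15 d15 e15 f15] at h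
  obtain ⟨π16, a16, b16, c16, d16, e16, f16⟩ := clc_t16
  rw [clc_term P Q hPQ σ [5, 6, 4, 3, 2, 0, 1] π16 a16 _ b16 _ _ _ _ c16 d16 e16 f16] at h
  obtain ⟨π17, a17, b17, c17, d17, e17, f17⟩ := clc_t17
  rw [clc_term P Q hPQ σ [5, 6, 4, 3, 2, 1, 0] π17 a17 _ b17 _ _ _ _ c17 d17 e17 f17] at h
  have h3 : (3 : ZMod 3) = 0 := by decide
  simp only [clc_s3, clc_e3]
  push_cast at h
  linear_combination h + sg σ * (Q (σ 2) (σ 4) + Q (σ 2) (σ 5) + Q (σ 2) (σ 6) + Q (σ 4) (σ 2)) * h3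

theorem good_C {G : (Fin 7 → ℕ) → ZMod 3} (hG : Good G) (P Q : Fin 7 → Fin 7 → ZMod 3)
    (hPQ : ∀ σ : Equiv.Perm (Fin 7), G (fun j => (σ j : ℕ)) =
        P (σ 6) (σ 0) - P (σ 6) (σ 1) + sg σ * (Q (σ 6) (σ 0) + Q (σ 6) (σ 1) + Q (σ 6) (σ 2))) :
    (∀ σ : Equiv.Perm (Fin 7),
      (P (σ 6) (σ 0) - P (σ 0) (σ 6)) - (P (σ 6) (σ 1) - P (σ 1) (σ 6)) -
      (P (σ 5) (σ 0) - P (σ 0) (σ 5)) + (P (σ 5) (σ 1) - P (σ 1) (σ 5)) = 0) ∧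
    (∀ σ : Equiv.Perm (Fin 7),
      ∑ i ∈ ({0, 1, 2} : Finset (Fin 7)), ∑ j ∈ ({4, 5, 6} : Finset (Fin 7)),
        (Q (σ i) (σ j) + Q (σ j) (σ i)) = 0) := by
  have h3 : (3 : ZMod 3) = 0 := by decide
  -- the sum attached to one of the first four positions
  have hk : ∀ σ : Equiv.Perm (Fin 7),
      (∑ i ∈ ({0, 1, 2} : Finset (Fin 7)), ∑ j ∈ ({4, 5, 6} : Finset (Fin 7)),
        (Q (σ i) (σ j) + Q (σ j) (σ i))) +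
      (∑ i ∈ ({0, 1, 2} : Finset (Fin 7)), ∑ j ∈ ({4, 5, 6} : Finset (Fin 7)),
        (Q ((σ * Equiv.swap 2 3 : Equiv.Perm (Fin 7)) i) ((σ * Equiv.swap 2 3 : Equiv.Perm (Fin 7)) j) +
          Q ((σ * Equiv.swap 2 3 : Equiv.Perm (Fin 7)) j) ((σ * Equiv.swap 2 3 : Equiv.Perm (Fin 7)) i))) = 0 := by
    intro σ
    have h1 := clc_main hG P Q hPQ σ
    have h2 := clc_main hG P Q hPQ (σ * Equiv.swap 2 3 : Equiv.Perm (Fin 7))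
    have hs : sg (σ * Equiv.swap 2 3 : Equiv.Perm (Fin 7)) = - sg σ := by
      simp [sg, Equiv.Perm.sign_mul]
    have h6 : (σ * Equiv.swap 2 3 : Equiv.Perm (Fin 7)) 6 = σ 6 := rfl
    have h5 : (σ * Equiv.swap 2 3 : Equiv.Perm (Fin 7)) 5 = σ 5 := rfl
    have h0 : (σ * Equiv.swap 2 3 : Equiv.Perm (Fin 7)) 0 = σ 0 := rfl
    have h1' : (σ * Equiv.swap 2 3 : Equiv.Perm (Fin 7)) 1 = σ 1 := rfl
    rw [hs, h6, h5, h0, h1'] at h2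
    have hss : sg σ * sg σ = 1 := by
      rcases Int.units_eq_one_or (Equiv.Perm.sign σ) with h | h <;> simp [sg, h]
    linear_combination (sg σ) * h1 - (sg σ) * h2 - (∑ i ∈ ({0, 1, 2} : Finset (Fin 7)), ∑ j ∈ ({4, 5, 6} : Finset (Fin 7)),
        (Q (σ i) (σ j) + Q (σ j) (σ i)) + (∑ i ∈ ({0, 1, 2} : Finset (Fin 7)), ∑ j ∈ ({4, 5, 6} : Finset (Fin 7)),
        (Q ((σ * Equiv.swap 2 3 : Equiv.Perm (Fin 7)) i) ((σ * Equiv.swap 2 3 : Equiv.Perm (Fin 7)) j) +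
          Q ((σ * Equiv.swap 2 3 : Equiv.Perm (Fin 7)) j) ((σ * Equiv.swap 2 3 : Equiv.Perm (Fin 7)) i)))) * hss
  have hK : ∀ σ : Equiv.Perm (Fin 7),
      ∑ i ∈ ({0, 1, 2} : Finset (Fin 7)), ∑ j ∈ ({4, 5, 6} : Finset (Fin 7)),
        (Q (σ i) (σ j) + Q (σ j) (σ i)) = 0 := by
    intro σ
    have k1 := hk σ
    have k2 := hk (σ * Equiv.swap 1 2)
    have k3 := hk (σ * Equiv.swap 2 3 * Equiv.swap 1 2)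
    simp only [clc_s3, clc_e3, Equiv.Perm.mul_apply] at k1 k2 k3 ⊢
    have a0 : (Equiv.swap (2 : Fin 7) 3) 0 = 0 := by decide
    have a1 : (Equiv.swap (2 : Fin 7) 3) 1 = 1 := by decide
    have a2 : (Equiv.swap (2 : Fin 7) 3) 2 = 3 := by decide
    have a3 : (Equiv.swap (2 : Fin 7) 3) 3 = 2 := by decide
    have a4 : (Equiv.swap (2 : Fin 7) 3) 4 = 4 := by decide
    have a5 : (Equiv.swap (2 : Fin 7) 3) 5 = 5 := by decide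
    have a6 : (Equiv.swap (2 : Fin 7) 3) 6 = 6 := by decide
    have b0 : (Equiv.swap (1 : Fin 7) 2) 0 = 0 := by decide
    have b1 : (Equiv.swap (1 : Fin 7) 2) 1 = 2 := by decide
    have b2 : (Equiv.swap (1 : Fin 7) 2) 2 = 1 := by decide
    have b3 : (Equiv.swap (1 : Fin 7) 2) 3 = 3 := by decide
    have b4 : (Equiv.swap (1 : Fin 7) 2) 4 = 4 := by decide
    have b5 : (Equiv.swap (1 : Fin 7) 2) 5 = 5 := by decide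
    have b6 : (Equiv.swap (1 : Fin 7) 2) 6 = 6 := by decide
    simp only [a0, a1, a2, a3, a4, a5, a6, b0, b1, b2, b3, b4, b5, b6] at k1 k2 k3 ⊢
    -- `k012 + k013 = 0`, `k012 + k023 = 0`, `k013 + k023 = 0`
    generalize Q (σ 0) (σ 4) + Q (σ 4) (σ 0) + (Q (σ 0) (σ 5) + Q (σ 5) (σ 0)) + (Q (σ 0) (σ 6) + Q (σ 6) (σ 0)) = x0 at *
    generalize Q (σ 1) (σ 4) + Q (σ 4) (σ 1) + (Q (σ 1) (σ 5) + Q (σ 5) (σ 1)) + (Q (σ 1) (σ 6) + Q (σ 6) (σ 1)) = x1 at *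
    generalize Q (σ 2) (σ 4) + Q (σ 4) (σ 2) + (Q (σ 2) (σ 5) + Q (σ 5) (σ 2)) + (Q (σ 2) (σ 6) + Q (σ 6) (σ 2)) = x2 at *
    generalize Q (σ 3) (σ 4) + Q (σ 4) (σ 3) + (Q (σ 3) (σ 5) + Q (σ 5) (σ 3)) + (Q (σ 3) (σ 6) + Q (σ 6) (σ 3)) = x3 at *
    linear_combination 2 * k1 + 2 * k2 - 2 * k3 - (x0 + x1 + x2) * h3
  refine ⟨fun σ => ?_, hK⟩
  have h1 := clc_main hG P Q hPQ σ
  rw [hK σ, mul_zero, add_zero] at h1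
  exact h1

end Pool.Agent.H53R3
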