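import Mathlib
import Pool.Agent.H53R3.Base
import Pool.Agent.H53R3.Ph7

set_option autoImplicit false

namespace Pool.Agent.H53R3

open scoped commutatorElement
open Pool.Agent.Helper429 (L X keep kill rnm er asc adr evP Cg)

lemma cld_SM_congr {n : ℕ} (D : LP n) {f g : Equiv.Perm (Fin n) → ZMod 3} (h : ∀ σ, f σ = g σ) :
    SM D f = SM D g := by
  have : f = g := funext h
  rw [this]

lemma cld_SM_add {n : ℕ} (D : LP n) (f g : Equiv.Perm (Fin n) → ZMod 3) :
    SM D (fun σ => f σ + g σ) = SM D f + SM D g := by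
  unfold SM
  induction D with
  | nil => simp
  | cons q D ih =>
    simp only [List.map_cons, List.sum_cons] at ih ⊢
    rw [ih]; ring

lemma cld_SM_smul {n : ℕ} (D : LP n) (c : ZMod 3) (f : Equiv.Perm (Fin n) → ZMod 3) :
    SM D (fun σ => c * f σ) = c * SM D f := by
  unfold SM
  induction D with
  | nil => simp
  | cons q D ih =>
    simp only [List.map_cons, List.sum_cons] at ih ⊢
    rw [ih]; ring

lemma cld_SM_zero {n : ℕ} (D : LP n) : SM D (fun _ => 0) = 0 := by
  have := cld_SM_smul D 0 (fun _ => 0)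
  simpa using this

lemma cld_SM_sum {n : ℕ} (D : LP n) {ι : Type*} (s : Finset ι)
    (f : ι → Equiv.Perm (Fin n) → ZMod 3) :
    SM D (fun σ => ∑ i ∈ s, f i σ) = ∑ i ∈ s, SM D (f i) := by
  classical
  induction s using Finset.induction_on with
  | empty => simpa using cld_SM_zero D
  | insert a s ha ih =>
    rw [Finset.sum_insert ha, ← ih, ← cld_SM_add]
    exact cld_SM_congr D fun σ => Finset.sum_insert ha

lemma cld_SM_sub {n : ℕ} (D : LP n) (f g : Equiv.Perm (Fin n) → ZMod 3) :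
    SM D (fun σ => f σ - g σ) = SM D f - SM D g := by
  have h := cld_SM_add D f (fun σ => (-1) * g σ)
  rw [cld_SM_smul] at h
  rw [sub_eq_add_neg, show -SM D g = -1 * SM D g by ring, ← h]
  exact cld_SM_congr D fun σ => by ring

/-- antisymmetric functions with the four letter relation are differences -/
lemma cld_anti (B : Fin 7 → Fin 7 → ZMod 3) (ha : ∀ i j, i ≠ j → B j i = - B i j)
    (h : ∀ i j k l : Fin 7, i ≠ j → i ≠ k → i ≠ l → j ≠ k → j ≠ l → k ≠ l →
      B i k - B j k - B i l + B j l = 0) :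
    ∃ g : Fin 7 → ZMod 3, ∀ i j, i ≠ j → B i j = g i - g j := by
  have h3 : (3 : ZMod 3) = 0 := by decide
  have tri : ∀ i j k : Fin 7, i ≠ j → i ≠ k → j ≠ k → B i j + B j k + B k i = 0 := by
    intro i j k hij hik hjk
    obtain ⟨l, h1, h2, h4⟩ : ∃ l : Fin 7, l ≠ i ∧ l ≠ j ∧ l ≠ k := by
      clear hij hik hjk
      revert i j k; decide
    have c1 := h i j k l hij hik h1.symm hjk h2.symm h4.symm
    have c2 := h i k j l hik hij h1.symm hjk.symm h4.symm h2.symm
    have c3 := h i l j k h1.symm hij hik h2 h4 hjk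
    have e1 := ha j k hjk
    have e2 := ha i k hik
    have e3 := ha j l h2.symm
    have e4 := ha k l h4.symm
    linear_combination 2 * (c2 + c3 - c1) - (B i j + B j k - B i k) * h3 + 2 * e1 + e2 + 2 * e3 - 2 * e4
  refine ⟨fun i => if i = 0 then 0 else B i 0, fun i j hij => ?_⟩
  by_cases hi : i = 0
  · subst hi
    simp only [if_true, if_neg hij.symm]
    rw [ha 0 j hij]; ring
  · by_cases hj : j = 0
    · subst hj
      simp [hi]
    · simp only [if_neg hi, if_neg hj]
      have := tri i j 0 hij hi hj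
      rw [ha i 0 hi] at this
      linear_combination this

/-- symmetric functions with the four letter relation are sums -/
lemma cld_sym (S : Fin 7 → Fin 7 → ZMod 3) (hs : ∀ i j, S i j = S j i)
    (h : ∀ i j k l : Fin 7, i ≠ j → i ≠ k → i ≠ l → j ≠ k → j ≠ l → k ≠ l →
      S i k - S j k - S i l + S j l = 0) :
    ∃ m : Fin 7 → ZMod 3, ∀ i j, i ≠ j → S i j = m i + m j := by
  have h3 : (3 : ZMod 3) = 0 := by decide
  -- `κ(i,j) = S 0 i + S 0 j - S i j`
  have k1 : ∀ i j k : Fin 7, i ≠ 0 → j ≠ 0 → k ≠ 0 → i ≠ j → i ≠ k →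
      S 0 i + S 0 j - S i j = S 0 i + S 0 k - S i k := by
    intro i j k hi hj hk hij hik
    by_cases hjk : j = k
    · rw [hjk]
    · have := h 0 i j k hi.symm hj.symm hk.symm hij hik hjk
      linear_combination this
  have k2 : ∀ i j : Fin 7, i ≠ 0 → j ≠ 0 → i ≠ j →
      S 0 i + S 0 j - S i j = S 0 1 + S 0 2 - S 1 2 := by
    intro i j hi hj hij
    by_cases h1 : i = 1
    · subst h1
      exact k1 1 j 2 hi hj (by decide) hij (by decide)
    · by_cases h2 : j = 1
      · subst h2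
        have := k1 1 i 2 hj hi (by decide) hij.symm (by decide)
        rw [hs i 1]
        linear_combination this
      · have a1 := k1 i j 1 hi hj (by decide) hij h1
        have a2 := k1 1 i 2 (by decide) hi (by decide) (Ne.symm h1) (by decide)
        rw [hs i 1] at a1
        linear_combination a1 + a2
  refine ⟨fun i => if i = 0 then 2 * (S 0 1 + S 0 2 - S 1 2) else S 0 i - 2 * (S 0 1 + S 0 2 - S 1 2),
    fun i j hij => ?_⟩
  by_cases hi : i = 0
  · subst hi
    simp only [if_true, if_neg hij.symm]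
    ring
  · by_cases hj : j = 0
    · subst hj
      simp only [if_true, if_neg hi]
      rw [hs i 0]; ring
    · simp only [if_neg hi, if_neg hj]
      have := k2 i j hi hj hij
      linear_combination -this + (S 0 1 + S 0 2 - S 1 2) * h3

/-- there is a permutation with four prescribed values -/
lemma cld_ext (p q r t i j k l : Fin 7) (hp : p ≠ q ∧ p ≠ r ∧ p ≠ t ∧ q ≠ r ∧ q ≠ t ∧ r ≠ t)
    (hij : i ≠ j) (hik : i ≠ k) (hil : i ≠ l) (hjk : j ≠ k) (hjl : j ≠ l) (hkl : k ≠ l) :
    ∃ σ : Equiv.Perm (Fin 7), σ p = i ∧ σ q = j ∧ σ r = k ∧ σ t = l := by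
  classical
  obtain ⟨a1, a2, a3, a4, a5, a6⟩ := hp
  have hc : Fintype.card (Fin 7) = (Finset.univ : Finset (Fin 7)).card := by simp
  obtain ⟨g, hg⟩ := Finset.exists_equiv_extend_of_card_eq (t := (Finset.univ : Finset (Fin 7)))
    (s := {p, q, r, t})
    (f := fun x => if x = p then i else if x = q then j else if x = r then k else l)
    hc (Finset.subset_univ _) (by
      intro x hx y hy hxy
      simp only [Finset.coe_insert, Finset.coe_singleton, Set.mem_insert_iff,
        Set.mem_singleton_iff] at hx hy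
      rcases hx with rfl | rfl | rfl | rfl <;> rcases hy with rfl | rfl | rfl | rfl <;>
        simp_all [Ne.symm, eq_comm])
  refine ⟨g.trans (Equiv.subtypeUnivEquiv (by simp)), ?_, ?_, ?_, ?_⟩
  · have := hg p (by simp); simpa using this
  · have := hg q (by simp); simpa [a1.symm] using this
  · have := hg r (by simp); simpa [a2.symm, a4.symm] using this
  · have := hg t (by simp); simpa [a3.symm, a5.symm, a6.symm] using this

lemma cld_erase (f : Fin 7 → ZMod 3) (c : Fin 7) :
    ∑ a ∈ Finset.univ.erase c, f a = ∑ a, (if a = c then 0 else f a) := by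
  rw [← Finset.sum_erase_add Finset.univ (fun a => if a = c then 0 else f a) (Finset.mem_univ c)]
  rw [if_pos rfl, add_zero]
  exact Finset.sum_congr rfl fun a ha => by rw [if_neg (Finset.ne_of_mem_erase ha)]

lemma cld_seven : (∑ _a : Fin 7, (1 : ZMod 3)) = 1 := by
  simp; decide

/-- the algebra of the signed part -/
lemma cld_Qalg (Q N : Fin 7 → Fin 7 → ZMod 3) (hN0 : ∀ a, N a a = 0) (hQ0 : ∀ a, Q a a = 0)
    (hQ : ∀ c, ∑ a, Q c a = 0)
    (m g : Fin 7 → ZMod 3) (hS : ∀ s t, s ≠ t → Q s t + Q t s = m s + m t)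
    (hA : ∀ p q, p ≠ q → N p q - N q p = g p - g q)
    (hN2 : ∀ c, ∑ a, N a c = 0) : ∑ c, ∑ a, Q c a * N a c = 0 := by
  have h3 : (3 : ZMod 3) = 0 := by decide
  -- remove the conditions
  have hA' : ∀ p q, N p q - N q p = g p - g q := by
    intro p q
    by_cases h : p = q
    · subst h; ring
    · exact hA p q h
  have hS' : ∀ s t, Q s t + Q t s = (m s + m t) - if t = s then 2 * m s else 0 := by
    intro s t
    by_cases h : t = s
    · subst h; rw [if_pos rfl, hQ0]; ring
    · rw [if_neg h, hS s t (Ne.symm h)]; ring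
  set M := ∑ a, m a with hM
  set Γ := ∑ a, g a with hΓ
  have hρ : ∀ a, ∑ c, N a c = g a - Γ := by
    intro a
    have : ∑ c, (N a c - N c a) = ∑ c, (g a - g c) := Finset.sum_congr rfl fun c _ => hA' a c
    rw [Finset.sum_sub_distrib, hN2, sub_zero, Finset.sum_sub_distrib, ← hΓ] at this
    rw [this]
    have h1 : ∑ _c : Fin 7, g a = g a * ∑ _c : Fin 7, (1 : ZMod 3) := by
      rw [Finset.mul_sum]; exact Finset.sum_congr rfl fun _ _ => by ring
    rw [h1, cld_seven]; ring
  have hcol : ∀ a, ∑ c, Q c a = M - m a := by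
    intro a
    have : ∑ c, (Q a c + Q c a) = ∑ c, ((m a + m c) - if c = a then 2 * m a else 0) :=
      Finset.sum_congr rfl fun c _ => hS' a c
    rw [Finset.sum_add_distrib, hQ, zero_add, Finset.sum_sub_distrib, Finset.sum_add_distrib,
      ← hM, Finset.sum_ite_eq' , if_pos (Finset.mem_univ _)] at this
    rw [this]
    have h1 : ∑ _c : Fin 7, m a = m a * ∑ _c : Fin 7, (1 : ZMod 3) := by
      rw [Finset.mul_sum]; exact Finset.sum_congr rfl fun _ _ => by ring
    rw [h1, cld_seven]; ring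
  -- exchange the roles
  have e1 : ∑ c, ∑ a, Q c a * N a c = ∑ c, ∑ a, Q a c * N a c + ∑ c, ∑ a, Q c a * (g a - g c) := by
    rw [Finset.sum_comm (f := fun c a => Q a c * N a c), ← Finset.sum_add_distrib]
    refine Finset.sum_congr rfl fun c _ => ?_
    rw [← Finset.sum_add_distrib]
    refine Finset.sum_congr rfl fun a _ => ?_
    rw [← hA' a c]; ring
  have e2 : ∑ c, ∑ a, Q c a * (g a - g c) = ∑ a, g a * (M - m a) := by
    have : ∑ c, ∑ a, Q c a * (g a - g c) = ∑ c, ∑ a, Q c a * g a - ∑ c, g c * ∑ a, Q c a := by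
      rw [← Finset.sum_sub_distrib]
      refine Finset.sum_congr rfl fun c _ => ?_
      rw [Finset.mul_sum, ← Finset.sum_sub_distrib]
      exact Finset.sum_congr rfl fun a _ => by ring
    rw [this]
    simp only [hQ, mul_zero, Finset.sum_const_zero, sub_zero]
    rw [Finset.sum_comm]
    refine Finset.sum_congr rfl fun a _ => ?_
    rw [← hcol a, Finset.mul_sum]
    exact Finset.sum_congr rfl fun c _ => by ring
  have e3 : ∑ c, ∑ a, (Q c a + Q a c) * N a c = ∑ a, m a * (g a - Γ) := by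
    have : ∀ c a, (Q c a + Q a c) * N a c = m a * N a c + m c * N a c := by
      intro c a
      rw [hS' c a]
      by_cases h : a = c
      · subst h; rw [hN0]; ring
      · rw [if_neg h]; ring
    simp only [this, Finset.sum_add_distrib]
    have h2 : ∑ c, ∑ a, m c * N a c = 0 := by
      refine Finset.sum_eq_zero fun c _ => ?_
      rw [← Finset.mul_sum, hN2, mul_zero]
    rw [h2, add_zero, Finset.sum_comm]
    refine Finset.sum_congr rfl fun a _ => ?_
    rw [← Finset.mul_sum, hρ]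
  have e4 : ∑ c, ∑ a, (Q c a + Q a c) * N a c = ∑ c, ∑ a, Q c a * N a c + ∑ c, ∑ a, Q a c * N a c := by
    rw [← Finset.sum_add_distrib]
    refine Finset.sum_congr rfl fun c _ => ?_
    rw [← Finset.sum_add_distrib]
    exact Finset.sum_congr rfl fun a _ => by ring
  have e5 : ∑ a, g a * (M - m a) + ∑ a, m a * (g a - Γ) = 0 := by
    have h1 : ∑ a, g a * (M - m a) = Γ * M - ∑ a, g a * m a := by
      rw [hΓ, Finset.sum_mul, ← Finset.sum_sub_distrib]
      exact Finset.sum_congr rfl fun a _ => by ring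
    have h2 : ∑ a, m a * (g a - Γ) = ∑ a, g a * m a - M * Γ := by
      rw [hM, Finset.sum_mul, ← Finset.sum_sub_distrib]
      exact Finset.sum_congr rfl fun a _ => by ring
    rw [h1, h2]; ring
  set T := ∑ c, ∑ a, Q c a * N a c
  set T' := ∑ c, ∑ a, Q a c * N a c
  linear_combination 2 * e1 + 2 * e2 + 2 * e3 - 2 * e4 + 2 * e5 - T * h3

/-- the algebra of the unsigned part -/
lemma cld_Palg (P N : Fin 7 → Fin 7 → ZMod 3) (hP0 : ∀ a, P a a = 0)
    (hP : ∀ c, ∑ a, P c a = 0)
    (t ρ : Fin 7 → ZMod 3) (w : ZMod 3) (hB : ∀ c a, c ≠ a → P c a - P a c = t c - t a)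
    (hS : ∀ a c, a ≠ c → N a c + N c a = w - ρ a - ρ c)
    (hN1 : ∀ a, ∑ c, N a c = ρ a)
    (hN2 : ∀ c, ∑ a, N a c = 0) : ∑ c, ∑ a, P c a * N a c = 0 := by
  have h3 : (3 : ZMod 3) = 0 := by decide
  have hB' : ∀ c a, P c a - P a c = t c - t a := by
    intro c a
    by_cases h : c = a
    · subst h; ring
    · exact hB c a h
  have hρ0 : ∑ a, ρ a = 0 := by
    rw [← Finset.sum_congr rfl fun a _ => hN1 a, Finset.sum_comm]
    exact Finset.sum_eq_zero fun c _ => hN2 c
  set τ := ∑ a, t a with hτ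
  have hconst : ∀ x : ZMod 3, ∑ _c : Fin 7, x = x := by
    intro x
    have h1 : ∑ _c : Fin 7, x = x * ∑ _c : Fin 7, (1 : ZMod 3) := by
      rw [Finset.mul_sum]; exact Finset.sum_congr rfl fun _ _ => by ring
    rw [h1, cld_seven, mul_one]
  have hcol : ∀ a, ∑ c, P c a = τ - t a := by
    intro a
    have : ∑ c, (P c a - P a c) = ∑ c, (t c - t a) := Finset.sum_congr rfl fun c _ => hB' c a
    rw [Finset.sum_sub_distrib, hP, sub_zero, Finset.sum_sub_distrib, ← hτ, hconst] at this
    exact this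
  -- `T = - ∑ P c a N c a + ∑ P c a (w - ρ a - ρ c)`
  have e1 : ∑ c, ∑ a, P c a * N a c = - (∑ c, ∑ a, P a c * N a c) +
      ∑ c, ∑ a, P c a * (w - ρ a - ρ c) := by
    rw [Finset.sum_comm (f := fun c a => P a c * N a c), ← Finset.sum_neg_distrib,
      ← Finset.sum_add_distrib]
    refine Finset.sum_congr rfl fun c _ => ?_
    rw [← Finset.sum_neg_distrib, ← Finset.sum_add_distrib]
    refine Finset.sum_congr rfl fun a _ => ?_
    by_cases h : a = c
    · subst h; rw [hP0]; ring
    · rw [← hS a c h]; ring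
  have e2 : ∑ c, ∑ a, P c a * (w - ρ a - ρ c) = - ∑ a, ρ a * (τ - t a) := by
    have h1 : ∑ c, ∑ a, P c a * (w - ρ a - ρ c) = - ∑ c, ∑ a, P c a * ρ a := by
      rw [← Finset.sum_neg_distrib]
      refine Finset.sum_congr rfl fun c _ => ?_
      have : ∑ a, P c a * (w - ρ a - ρ c) = (w - ρ c) * ∑ a, P c a - ∑ a, P c a * ρ a := by
        rw [Finset.mul_sum, ← Finset.sum_sub_distrib]
        exact Finset.sum_congr rfl fun a _ => by ring
      rw [this, hP, mul_zero, zero_sub]
    rw [h1, Finset.sum_comm]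
    refine congrArg Neg.neg ?_
    refine Finset.sum_congr rfl fun a _ => ?_
    rw [← hcol a, Finset.mul_sum]
    exact Finset.sum_congr rfl fun c _ => by ring
  have e3 : ∑ c, ∑ a, P a c * N a c = ∑ c, ∑ a, P c a * N a c + ∑ a, t a * ρ a := by
    have h1 : ∑ c, ∑ a, P a c * N a c = ∑ c, ∑ a, P c a * N a c - ∑ c, ∑ a, (t c - t a) * N a c := by
      rw [← Finset.sum_sub_distrib]
      refine Finset.sum_congr rfl fun c _ => ?_
      rw [← Finset.sum_sub_distrib]
      refine Finset.sum_congr rfl fun a _ => ?_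
      rw [← hB' c a]; ring
    have h2 : ∑ c, ∑ a, (t c - t a) * N a c = - ∑ a, t a * ρ a := by
      have : ∑ c, ∑ a, (t c - t a) * N a c = ∑ c, t c * ∑ a, N a c - ∑ c, ∑ a, t a * N a c := by
        rw [← Finset.sum_sub_distrib]
        refine Finset.sum_congr rfl fun c _ => ?_
        rw [Finset.mul_sum, ← Finset.sum_sub_distrib]
        exact Finset.sum_congr rfl fun a _ => by ring
      rw [this]
      simp only [hN2, mul_zero, Finset.sum_const_zero, zero_sub]
      rw [Finset.sum_comm]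
      refine congrArg Neg.neg ?_
      refine Finset.sum_congr rfl fun a _ => ?_
      rw [← hN1 a, Finset.mul_sum]
    rw [h1, h2]; ring
  have e4 : ∑ a, ρ a * (τ - t a) = - ∑ a, t a * ρ a := by
    have : ∑ a, ρ a * (τ - t a) = τ * ∑ a, ρ a - ∑ a, t a * ρ a := by
      rw [Finset.mul_sum, ← Finset.sum_sub_distrib]
      exact Finset.sum_congr rfl fun a _ => by ring
    rw [this, hρ0]; ring
  set T := ∑ c, ∑ a, P c a * N a c
  linear_combination 2 * e1 + 2 * e2 - 2 * e3 - 2 * e4 - T * h3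

lemma cld_s3 (g : Fin 7 → ZMod 3) : ∑ i ∈ ({0, 1, 2} : Finset (Fin 7)), g i = g 0 + g 1 + g 2 := by
  rw [Finset.sum_insert (by decide), Finset.sum_insert (by decide), Finset.sum_singleton]
  ring

lemma cld_e3 (g : Fin 7 → ZMod 3) : ∑ i ∈ ({4, 5, 6} : Finset (Fin 7)), g i = g 4 + g 5 + g 6 := by
  rw [Finset.sum_insert (by decide), Finset.sum_insert (by decide), Finset.sum_singleton]
  ring

/-- joint statistic of the first three positions and of the last one, signed -/
def cldNq (D : LP 7) (a c : Fin 7) : ZMod 3 :=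
  SM D (fun σ => sg σ * (A3 a σ * if σ 6 = c then 1 else 0))

/-- joint statistic of the first two positions and of the last one -/
def cldNp (D : LP 7) (a c : Fin 7) : ZMod 3 :=
  SM D (fun σ => dd a σ * if σ 6 = c then 1 else 0)

lemma cld_ind (f : Fin 7 → ZMod 3) (x : Fin 7) :
    ∑ a, f a * (if x = a then 1 else 0) = f x := by
  simp

lemma cld_A3_eq (σ : Equiv.Perm (Fin 7)) (a : Fin 7) :
    A3 a σ = (if σ 0 = a then 1 else 0) + (if σ 1 = a then 1 else 0) + (if σ 2 = a then 1 else 0) := by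
  have h01 : σ 0 ≠ σ 1 := fun h => by simpa using σ.injective h
  have h02 : σ 0 ≠ σ 2 := fun h => by have := σ.injective h; revert this; decide
  have h12 : σ 1 ≠ σ 2 := fun h => by have := σ.injective h; revert this; decide
  unfold A3
  by_cases h0 : σ 0 = a
  · subst h0; simp [h01.symm, h02.symm]
  · by_cases h1 : σ 1 = a
    · subst h1; simp [h0, h12.symm]
    · by_cases h2 : σ 2 = a
      · subst h2; simp [h0, h1]
      · simp [h0, h1, h2]

lemma cld_B3_eq (σ : Equiv.Perm (Fin 7)) (a : Fin 7) :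
    B3 a σ = 1 - A3 a σ - (if σ 6 = a then 1 else 0) := by
  obtain ⟨i, rfl⟩ := σ.surjective a
  unfold B3 A3
  have hinj : ∀ x y : Fin 7, σ x = σ y ↔ x = y := fun x y => σ.injective.eq_iff
  simp only [hinj]
  revert i; decide

lemma cld_sumA (σ : Equiv.Perm (Fin 7)) (f : Fin 7 → ZMod 3) :
    ∑ a, f a * A3 a σ = f (σ 0) + f (σ 1) + f (σ 2) := by
  simp only [cld_A3_eq, mul_add, Finset.sum_add_distrib, cld_ind]

lemma cld_sumd (σ : Equiv.Perm (Fin 7)) (f : Fin 7 → ZMod 3) :
    ∑ a, f a * dd a σ = f (σ 0) - f (σ 1) := by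
  unfold dd
  simp only [mul_sub, Finset.sum_sub_distrib, cld_ind]

lemma cld_totQ (D : LP 7) (Q : Fin 7 → Fin 7 → ZMod 3) :
    SM D (fun σ => sg σ * (Q (σ 6) (σ 0) + Q (σ 6) (σ 1) + Q (σ 6) (σ 2))) =
      ∑ c, ∑ a, Q c a * cldNq D a c := by
  have h1 : ∀ σ : Equiv.Perm (Fin 7), sg σ * (Q (σ 6) (σ 0) + Q (σ 6) (σ 1) + Q (σ 6) (σ 2)) =
      ∑ c, ∑ a, Q c a * (sg σ * (A3 a σ * if σ 6 = c then 1 else 0)) := by
    intro σ
    have h2 : ∀ c, ∑ a, Q c a * (sg σ * (A3 a σ * if σ 6 = c then 1 else 0)) =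
        (sg σ * (Q c (σ 0) + Q c (σ 1) + Q c (σ 2))) * (if σ 6 = c then 1 else 0) := by
      intro c
      rw [← cld_sumA σ (Q c), Finset.mul_sum, Finset.sum_mul]
      exact Finset.sum_congr rfl fun a _ => by ring
    rw [Finset.sum_congr rfl fun c _ => h2 c]
    rw [cld_ind (fun c => sg σ * (Q c (σ 0) + Q c (σ 1) + Q c (σ 2)))]
  rw [cld_SM_congr D h1, cld_SM_sum]
  refine Finset.sum_congr rfl fun c _ => ?_
  rw [cld_SM_sum]
  exact Finset.sum_congr rfl fun a _ => cld_SM_smul D _ _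

lemma cld_totP (D : LP 7) (P : Fin 7 → Fin 7 → ZMod 3) :
    SM D (fun σ => P (σ 6) (σ 0) - P (σ 6) (σ 1)) =
      ∑ c, ∑ a, P c a * cldNp D a c := by
  have h1 : ∀ σ : Equiv.Perm (Fin 7), P (σ 6) (σ 0) - P (σ 6) (σ 1) =
      ∑ c, ∑ a, P c a * (dd a σ * if σ 6 = c then 1 else 0) := by
    intro σ
    have h2 : ∀ c, ∑ a, P c a * (dd a σ * if σ 6 = c then 1 else 0) =
        (P c (σ 0) - P c (σ 1)) * (if σ 6 = c then 1 else 0) := by
      intro c
      rw [← cld_sumd σ (P c), Finset.sum_mul]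
      exact Finset.sum_congr rfl fun a _ => by ring
    rw [Finset.sum_congr rfl fun c _ => h2 c]
    rw [cld_ind (fun c => P c (σ 0) - P c (σ 1))]
  rw [cld_SM_congr D h1, cld_SM_sum]
  refine Finset.sum_congr rfl fun c _ => ?_
  rw [cld_SM_sum]
  exact Finset.sum_congr rfl fun a _ => cld_SM_smul D _ _

lemma cld_Nq0 (D : LP 7) (a : Fin 7) : cldNq D a a = 0 := by
  unfold cldNq
  refine (cld_SM_congr D (g := fun _ => 0) fun σ => ?_).trans (cld_SM_zero D)
  by_cases h : σ 6 = a
  · have h0 : σ 0 ≠ a := fun h' => by have := σ.injective (h.trans h'.symm); revert this; decide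
    have h1 : σ 1 ≠ a := fun h' => by have := σ.injective (h.trans h'.symm); revert this; decide
    have h2 : σ 2 ≠ a := fun h' => by have := σ.injective (h.trans h'.symm); revert this; decide
    simp [A3, h0, h1, h2]
  · simp [h]

lemma cld_Np0 (D : LP 7) (a : Fin 7) : cldNp D a a = 0 := by
  unfold cldNp
  refine (cld_SM_congr D (g := fun _ => 0) fun σ => ?_).trans (cld_SM_zero D)
  by_cases h : σ 6 = a
  · have h0 : σ 0 ≠ a := fun h' => by have := σ.injective (h.trans h'.symm); revert this; decide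
    have h1 : σ 1 ≠ a := fun h' => by have := σ.injective (h.trans h'.symm); revert this; decide
    simp [dd, h0, h1]
  · simp [h]

lemma cld_Nq_col (D : LP 7) (c : Fin 7) : ∑ a, cldNq D a c = 0 := by
  unfold cldNq
  rw [← cld_SM_sum]
  refine (cld_SM_congr D (g := fun _ => 0) fun σ => ?_).trans (cld_SM_zero D)
  have h3 : (3 : ZMod 3) = 0 := by decide
  have h := cld_sumA σ (fun _ => 1)
  have e : ∑ a, sg σ * (A3 a σ * if σ 6 = c then (1 : ZMod 3) else 0) =
      (sg σ * if σ 6 = c then (1 : ZMod 3) else 0) * ∑ a, 1 * A3 a σ := by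
    rw [Finset.mul_sum]; exact Finset.sum_congr rfl fun a _ => by ring
  rw [e, h]
  linear_combination (sg σ * if σ 6 = c then (1 : ZMod 3) else 0) * h3

lemma cld_Np_col (D : LP 7) (c : Fin 7) : ∑ a, cldNp D a c = 0 := by
  unfold cldNp
  rw [← cld_SM_sum]
  refine (cld_SM_congr D (g := fun _ => 0) fun σ => ?_).trans (cld_SM_zero D)
  have h := cld_sumd σ (fun _ => 1)
  have e : ∑ a, dd a σ * (if σ 6 = c then (1 : ZMod 3) else 0) =
      (if σ 6 = c then (1 : ZMod 3) else 0) * ∑ a, 1 * dd a σ := by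
    rw [Finset.mul_sum]; exact Finset.sum_congr rfl fun a _ => by ring
  rw [e, h]; ring

lemma cld_Psi (D : LP 7) (p q : Fin 7) : Psi D p q =
    SM D (fun σ => sg σ * A3 p σ) - SM D (fun σ => sg σ * A3 q σ) - cldNq D p q + cldNq D q p := by
  unfold Psi cldNq
  rw [← cld_SM_sub, ← cld_SM_sub, ← cld_SM_add]
  refine cld_SM_congr D fun σ => ?_
  rw [cld_B3_eq, cld_B3_eq]; ring

/-- the conditions `c2` determine the symmetric part of the unsigned statistic -/
lemma cld_c2 (D : LP 7) (c2 : ∀ τ : Equiv.Perm (Fin 7), SM D (fun σ => Phi fq (τ * σ)) = 0) :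
    ∃ w : ZMod 3, ∀ a c, a ≠ c → cldNp D a c + cldNp D c a =
      w - SM D (dd a) - SM D (dd c) := by
  have h3 : (3 : ZMod 3) = 0 := by decide
  have hN1 : ∀ a, ∑ c, cldNp D a c = SM D (dd a) := by
    intro a
    unfold cldNp
    rw [← cld_SM_sum]
    refine cld_SM_congr D fun σ => ?_
    exact cld_ind (fun _ => dd a σ) (σ 6)
  -- the condition for three letters
  have key : ∀ a b c : Fin 7, a ≠ b → a ≠ c → b ≠ c →
      (cldNp D a b + cldNp D b a) + (cldNp D b c + cldNp D c b) + (cldNp D a c + cldNp D c a) =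
        SM D (dd a) + SM D (dd b) + SM D (dd c) := by
    intro a b c hab hac hbc
    obtain ⟨l, h1, h2, h4⟩ : ∃ l : Fin 7, a ≠ l ∧ b ≠ l ∧ c ≠ l := by
      clear hab hac hbc
      revert a b c; decide
    obtain ⟨τ, ha, hb, hc, -⟩ := cld_ext 4 5 6 0 a b c l (by decide) hab hac h1 hbc h2 h4
    have hy : ∀ x : Fin 7, Yq (τ.symm x) = (if x = a then 1 else 0) + (if x = b then 1 else 0) +
        (if x = c then 1 else 0) := by
      intro x
      obtain ⟨y, rfl⟩ := τ.surjective x
      rw [Equiv.symm_apply_apply, ← ha, ← hb, ← hc]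
      have hinj : ∀ x y : Fin 7, τ x = τ y ↔ x = y := fun x y => τ.injective.eq_iff
      simp only [hinj]
      unfold Yq
      revert y; decide
    have e := c2 τ.symm
    have e2 : SM D (fun σ => Phi fq (τ.symm * σ)) = SM D (fun σ =>
        (dd a σ + dd b σ + dd c σ) - ((dd a σ + dd b σ + dd c σ) * (if σ 6 = a then 1 else 0) +
          (dd a σ + dd b σ + dd c σ) * (if σ 6 = b then 1 else 0) +
          (dd a σ + dd b σ + dd c σ) * (if σ 6 = c then 1 else 0))) := by
      refine cld_SM_congr D fun σ => ?_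
      rw [Phi_fq]
      simp only [Equiv.Perm.mul_apply]
      rw [hy, hy, hy]
      unfold dd
      ring
    rw [e2] at e
    have e3 : SM D (fun σ =>
        (dd a σ + dd b σ + dd c σ) - ((dd a σ + dd b σ + dd c σ) * (if σ 6 = a then 1 else 0) +
          (dd a σ + dd b σ + dd c σ) * (if σ 6 = b then 1 else 0) +
          (dd a σ + dd b σ + dd c σ) * (if σ 6 = c then 1 else 0))) =
        (SM D (dd a) + SM D (dd b) + SM D (dd c)) -
          ((cldNp D a a + cldNp D b a + cldNp D c a) + (cldNp D a b + cldNp D b b + cldNp D c b) +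
            (cldNp D a c + cldNp D b c + cldNp D c c)) := by
      unfold cldNp
      simp only [← cld_SM_add, ← cld_SM_sub]
      exact cld_SM_congr D fun σ => by ring
    rw [e3, cld_Np0, cld_Np0, cld_Np0] at e
    linear_combination -e
  -- the function `U` is constant
  have disj : ∀ a b c d : Fin 7, a ≠ b → a ≠ c → a ≠ d → b ≠ c → b ≠ d → c ≠ d →
      cldNp D a b + cldNp D b a + SM D (dd a) + SM D (dd b) =
      cldNp D c d + cldNp D d c + SM D (dd c) + SM D (dd d) := by
    intro a b c d hab hac had hbc hbd hcd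
    have k1 := key a b c hab hac hbc
    have k2 := key a b d hab had hbd
    have k3 := key a c d hac had hcd
    have k4 := key b c d hbc hbd hcd
    linear_combination 2 * k1 + 2 * k2 - 2 * k3 - 2 * k4 - (cldNp D a b + cldNp D b a -
      (cldNp D c d + cldNp D d c) - SM D (dd a) - SM D (dd b) + SM D (dd c) + SM D (dd d)) * h3
  refine ⟨cldNp D 0 1 + cldNp D 1 0 + SM D (dd 0) + SM D (dd 1), fun a c hac => ?_⟩
  obtain ⟨d, e, hde, h1, h2, h4, h5, h6, h7, h8, h9⟩ : ∃ d e : Fin 7, d ≠ e ∧ a ≠ d ∧ a ≠ e ∧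
      c ≠ d ∧ c ≠ e ∧ d ≠ 0 ∧ d ≠ 1 ∧ e ≠ 0 ∧ e ≠ 1 := by
    clear hac
    revert a c; decide
  have k1 := disj a c d e hac h1 h2 h4 h5 hde
  have k2 := disj d e 0 1 hde h6 h7 h8 h9 (by decide)
  linear_combination k1 + k2

theorem final_D (D : LP 7) (P Q : Fin 7 → Fin 7 → ZMod 3)
    (hP : ∀ c, ∑ a ∈ Finset.univ.erase c, P c a = 0)
    (hQ : ∀ c, ∑ a ∈ Finset.univ.erase c, Q c a = 0)
    (h1 : ∀ σ : Equiv.Perm (Fin 7),
      (P (σ 6) (σ 0) - P (σ 0) (σ 6)) - (P (σ 6) (σ 1) - P (σ 1) (σ 6)) -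
      (P (σ 5) (σ 0) - P (σ 0) (σ 5)) + (P (σ 5) (σ 1) - P (σ 1) (σ 5)) = 0)
    (h2 : ∀ σ : Equiv.Perm (Fin 7),
      ∑ i ∈ ({0, 1, 2} : Finset (Fin 7)), ∑ j ∈ ({4, 5, 6} : Finset (Fin 7)),
        (Q (σ i) (σ j) + Q (σ j) (σ i)) = 0)
    (c1 : ∀ i j k l : Fin 7, i ≠ j → i ≠ k → i ≠ l → j ≠ k → j ≠ l → k ≠ l →
      Psi D i k - Psi D j k - Psi D i l + Psi D j l = 0)
    (c2 : ∀ τ : Equiv.Perm (Fin 7), SM D (fun σ => Phi fq (τ * σ)) = 0) :
    SM D (fun σ => P (σ 6) (σ 0) - P (σ 6) (σ 1) +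
      sg σ * (Q (σ 6) (σ 0) + Q (σ 6) (σ 1) + Q (σ 6) (σ 2))) = 0 := by
  rw [cld_SM_add, cld_totP, cld_totQ]
  -- the signed part
  have hQ' : ∑ c, ∑ a, Q c a * cldNq D a c = 0 := by
    obtain ⟨m, hm⟩ := cld_sym (fun s t => Q s t + Q t s) (fun i j => by ring) (by
      intro i j k l hij hik hil hjk hjl hkl
      -- `i`, `j` on one side, `k`, `l` on the other side
      obtain ⟨σ, a0, a3, a4, a5⟩ := cld_ext 0 3 4 5 i j k l (by decide) hij hik hil hjk hjl hkl
      have b1 := h2 (σ * Equiv.swap 2 5)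
      have b2 := h2 (σ * Equiv.swap 2 5 * Equiv.swap 0 3)
      have b3 := h2 (σ * Equiv.swap 2 4)
      have b4 := h2 (σ * Equiv.swap 2 4 * Equiv.swap 0 3)
      have p0 : (Equiv.swap (2 : Fin 7) 5) 0 = 0 := by decide
      have p1 : (Equiv.swap (2 : Fin 7) 5) 1 = 1 := by decide
      have p2 : (Equiv.swap (2 : Fin 7) 5) 2 = 5 := by decide
      have p3 : (Equiv.swap (2 : Fin 7) 5) 3 = 3 := by decide
      have p4 : (Equiv.swap (2 : Fin 7) 5) 4 = 4 := by decide
      have p5 : (Equiv.swap (2 : Fin 7) 5) 5 = 2 := by decide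
      have p6 : (Equiv.swap (2 : Fin 7) 5) 6 = 6 := by decide
      have q0 : (Equiv.swap (2 : Fin 7) 4) 0 = 0 := by decide
      have q1 : (Equiv.swap (2 : Fin 7) 4) 1 = 1 := by decide
      have q2 : (Equiv.swap (2 : Fin 7) 4) 2 = 4 := by decide
      have q3 : (Equiv.swap (2 : Fin 7) 4) 3 = 3 := by decide
      have q4 : (Equiv.swap (2 : Fin 7) 4) 4 = 2 := by decide
      have q5 : (Equiv.swap (2 : Fin 7) 4) 5 = 5 := by decide
      have q6 : (Equiv.swap (2 : Fin 7) 4) 6 = 6 := by decide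
      have r0 : (Equiv.swap (0 : Fin 7) 3) 0 = 3 := by decide
      have r1 : (Equiv.swap (0 : Fin 7) 3) 1 = 1 := by decide
      have r2 : (Equiv.swap (0 : Fin 7) 3) 2 = 2 := by decide
      have r3 : (Equiv.swap (0 : Fin 7) 3) 3 = 0 := by decide
      have r4 : (Equiv.swap (0 : Fin 7) 3) 4 = 4 := by decide
      have r5 : (Equiv.swap (0 : Fin 7) 3) 5 = 5 := by decide
      have r6 : (Equiv.swap (0 : Fin 7) 3) 6 = 6 := by decide
      simp only [cld_s3, cld_e3, Equiv.Perm.mul_apply, p0, p1, p2, p3, p4, p5, p6, q0, q1, q2, q3,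
        q4, q5, q6, r0, r1, r2, r4, r5, r6, a0, a3, a4, a5] at b1 b2 b3 b4
      linear_combination b1 - b2 - b3 + b4)
    set Q' : Fin 7 → Fin 7 → ZMod 3 := fun c a => if a = c then 0 else Q c a with hQ'
    have e1 : ∑ c, ∑ a, Q c a * cldNq D a c = ∑ c, ∑ a, Q' c a * cldNq D a c := by
      refine Finset.sum_congr rfl fun c _ => Finset.sum_congr rfl fun a _ => ?_
      by_cases h : a = c
      · subst h; rw [cld_Nq0]; ring
      · simp only [hQ', if_neg h]
    rw [e1]
    obtain ⟨g, hg⟩ := cld_anti (fun p q => cldNq D p q - cldNq D q p) (fun i j _ => by ring) (by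
      intro i j k l hij hik hil hjk hjl hkl
      have := c1 i j k l hij hik hil hjk hjl hkl
      rw [cld_Psi, cld_Psi, cld_Psi, cld_Psi] at this
      linear_combination -this)
    refine cld_Qalg Q' (cldNq D) (cld_Nq0 D) (fun a => by simp [hQ']) (fun c => ?_) m g ?_ hg
      (cld_Nq_col D)
    · rw [← cld_erase]; exact hQ c
    · intro s t hst
      have := hm s t hst
      simp only [hQ', if_neg hst, if_neg hst.symm]
      exact this
  -- the unsigned part
  have hP' : ∑ c, ∑ a, P c a * cldNp D a c = 0 := by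
    set P' : Fin 7 → Fin 7 → ZMod 3 := fun c a => if a = c then 0 else P c a with hP'
    have e1 : ∑ c, ∑ a, P c a * cldNp D a c = ∑ c, ∑ a, P' c a * cldNp D a c := by
      refine Finset.sum_congr rfl fun c _ => Finset.sum_congr rfl fun a _ => ?_
      by_cases h : a = c
      · subst h; rw [cld_Np0]; ring
      · simp only [hP', if_neg h]
    rw [e1]
    obtain ⟨w, hw⟩ := cld_c2 D c2
    obtain ⟨t, ht⟩ := cld_anti (fun c a => P c a - P a c) (fun i j _ => by ring) (by
      intro i j k l hij hik hil hjk hjl hkl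
      obtain ⟨σ, a6, a5, a0, a1⟩ := cld_ext 6 5 0 1 i j k l (by decide) hij hik hil hjk hjl hkl
      have := h1 σ
      rw [a0, a1, a5, a6] at this
      linear_combination this)
    have hN1 : ∀ a, ∑ c, cldNp D a c = SM D (dd a) := by
      intro a
      unfold cldNp
      rw [← cld_SM_sum]
      refine cld_SM_congr D fun σ => ?_
      exact cld_ind (fun _ => dd a σ) (σ 6)
    refine cld_Palg P' (cldNp D) (fun a => by simp [hP']) (fun c => ?_) t (fun a => SM D (dd a)) w
      ?_ hw hN1 (cld_Np_col D)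
    · rw [← cld_erase]; exact hP c
    · intro c a hca
      have := ht c a hca
      simp only [hP', if_neg hca, if_neg hca.symm]
      exact this
  rw [hP', hQ', add_zero]

end Pool.Agent.H53R3
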