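import Mathlib
import Pool.Agent.H53R3.Nf

set_option autoImplicit false

/-!
Task Fin: the laws of rank five lie in `SC`, from the cases of six and seven letters.

Assembly, when `case7`, `case6`, `six_mem_L` are available:
`theorem RW_le_SC : RW ≤ SC := fin_RW_le_SC (fun r hr hX => case7 hr hX)
  (fun r hr hX hk hkill => case6 hr hX hk (six_mem_L hr hX) hkill (fun g hg hX => case7 hg hX))`
-/

namespace Pool.Agent.H53R3

open scoped commutatorElement
open Pool.Agent.Helper429 (L X keep kill rnm er asc adr evP Cg X.of_kill keep_of_mem keep_of_not_mem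
  kill_kill kill_comm keep_kill keep_erase rnm_rnm exists_keep kill_of_self kill_of_ne)

lemma fin_RW_map {g : F} (hg : g ∈ RW) (θ : F →* F) : θ g ∈ RW := fun φ ψ => hg (φ.comp θ) ψ

/-- renaming functions for a finite set of letters -/
lemma fin_names (T : Finset ℕ) : ∃ s t : ℕ → ℕ, (∀ x ∈ T, s x < T.card ∧ t (s x) = x) ∧
    (∀ j, j < T.card → t j ∈ T ∧ s (t j) = j) := by
  have hlen : T.toList.length = T.card := Finset.length_toList T
  have hnd : T.toList.Nodup := Finset.nodup_toList T
  refine ⟨fun x => T.toList.idxOf x, fun x => T.toList.getD x 0, ?_, ?_⟩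
  · intro x hx
    have h1 : T.toList.idxOf x < T.toList.length :=
      List.idxOf_lt_length_iff.2 (Finset.mem_toList.2 hx)
    refine ⟨by rw [← hlen]; exact h1, ?_⟩
    simp only
    rw [List.getD_eq_getElem _ _ h1]
    exact List.getElem_idxOf h1
  · intro j hj
    have hj' : j < T.toList.length := by rw [hlen]; exact hj
    simp only
    rw [List.getD_eq_getElem _ _ hj']
    exact ⟨Finset.mem_toList.1 (List.getElem_mem hj'), hnd.idxOf_getElem j hj'⟩

lemma fin_small {T : Finset ℕ} (hT : T.card ≤ 5) {r : F} (hr : r ∈ RW) (hk : keep T r = r) :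
    r ∈ SC := by
  obtain ⟨s, t, h1, -⟩ := fin_names T
  let φ : F →* FreeGroup (Fin 5) := FreeGroup.lift (fun x => if x ∈ T then
    FreeGroup.of (⟨s x % 5, Nat.mod_lt _ (by norm_num)⟩ : Fin 5) else 1)
  let ψ : FreeGroup (Fin 5) →* F := FreeGroup.lift (fun i => FreeGroup.of (t i))
  have h2 : (ψ.comp φ).comp (keep T) = keep T := by
    apply FreeGroup.ext_hom
    intro x
    by_cases hx : x ∈ T
    · have h3 : s x % 5 = s x := Nat.mod_eq_of_lt (by have := (h1 x hx).1; omega)
      simp only [MonoidHom.comp_apply, keep_of_mem hx, φ, ψ, FreeGroup.lift_apply_of, if_pos hx, h3,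
        (h1 x hx).2]
    · simp only [MonoidHom.comp_apply, keep_of_not_mem hx, map_one]
  have h3 := DFunLike.congr_fun h2 r
  simp only [MonoidHom.comp_apply, hk] at h3
  rw [← h3]
  exact hr φ ψ

/-- renaming to `range n` -/
lemma fin_rename {T : Finset ℕ} {r : F} (hr : r ∈ RW) (hk : keep T r = r)
    (hkill : ∀ j ∈ T, kill j r = 1)
    (h : ∀ r' : F, r' ∈ RW → keep (Finset.range T.card) r' = r' →
      (∀ j ∈ Finset.range T.card, kill j r' = 1) → r' ∈ SC) : r ∈ SC := by
  obtain ⟨s, t, h1, h2⟩ := fin_names T
  have hst := rnm_rnm s t T (fun x hx => (h1 x hx).2) r hk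
  rw [← hst]
  apply SC_map
  apply h
  · exact fin_RW_map hr _
  · have e : ((keep (Finset.range T.card)).comp (rnm s)).comp (keep T) = (rnm s).comp (keep T) := by
      apply FreeGroup.ext_hom
      intro x
      by_cases hx : x ∈ T
      · simp only [MonoidHom.comp_apply, keep_of_mem hx, rnm, FreeGroup.lift_apply_of]
        exact keep_of_mem (Finset.mem_range.2 (h1 x hx).1)
      · simp only [MonoidHom.comp_apply, keep_of_not_mem hx, map_one]
    have e' := DFunLike.congr_fun e r
    simp only [MonoidHom.comp_apply, hk] at e'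
    exact e'
  · intro j hj
    have hj' := h2 j (Finset.mem_range.1 hj)
    have e : ((kill j).comp (rnm s)).comp (keep T) = ((rnm s).comp (kill (t j))).comp (keep T) := by
      apply FreeGroup.ext_hom
      intro x
      by_cases hx : x ∈ T
      · simp only [MonoidHom.comp_apply, keep_of_mem hx]
        by_cases hxj : x = t j
        · rw [hxj, kill_of_self, map_one]
          simp only [rnm, FreeGroup.lift_apply_of, hj'.2, kill_of_self]
        · rw [kill_of_ne hxj]
          simp only [rnm, FreeGroup.lift_apply_of]
          apply kill_of_ne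
          intro h3
          apply hxj
          rw [← h3, (h1 x hx).2]
      · simp only [MonoidHom.comp_apply, keep_of_not_mem hx, map_one]
    have e' := DFunLike.congr_fun e r
    simp only [MonoidHom.comp_apply, hk, hkill _ hj'.1, map_one] at e'
    exact e'

section main_

variable (c7 : ∀ r : F, r ∈ RW → X (Finset.range 7) r → r ∈ SC)
  (c6 : ∀ r : F, r ∈ RW → X (Finset.range 6) r → keep (Finset.range 6) r = r →
    (∀ j ∈ Finset.range 6, kill j r = 1) → r ∈ SC)

include c7 c6 in
lemma fin_base {T : Finset ℕ} {r : F} (hr : r ∈ RW) (hk : keep T r = r)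
    (hkill : ∀ j ∈ T, kill j r = 1) : r ∈ SC := by
  by_cases h5 : T.card ≤ 5
  · exact fin_small h5 hr hk
  by_cases h8 : 8 ≤ T.card
  · exact L7_le_SC (X_mem_L (X.of_kill T hkill) h8)
  apply fin_rename hr hk hkill
  intro r' hr' hk' hkill'
  have hT : T.card = 6 ∨ T.card = 7 := by omega
  rcases hT with hT | hT
  · rw [hT] at hk' hkill'
    exact c6 r' hr' (X.of_kill _ hkill') hk' hkill'
  · rw [hT] at hk' hkill'
    exact c7 r' hr' (X.of_kill _ hkill')

include c7 c6 in
lemma fin_induct (n : ℕ) : ∀ T : Finset ℕ, T.card = n → ∀ r ∈ RW, keep T r = r → r ∈ SC := by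
  induction n using Nat.strong_induction_on with
  | _ n ih =>
    intro T hT
    have key : ∀ S : Finset ℕ, S ⊆ T → ∀ r ∈ RW, keep T r = r → (∀ j ∈ T \ S, kill j r = 1) →
        r ∈ SC := by
      intro S
      induction S using Finset.induction_on with
      | empty =>
        intro _ r hr hk hkill
        exact fin_base c7 c6 hr hk (fun j hj => hkill j (by simpa using hj))
      | insert j S hj ihS =>
        intro hS r hr hk hkill
        have hjT : j ∈ T := hS (Finset.mem_insert_self j S)
        have h1 : kill j r ∈ RW := fin_RW_map hr _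
        have h2 : kill j r ∈ SC := by
          apply ih (T.erase j).card (by rw [← hT]; exact Finset.card_erase_lt_of_mem hjT)
            (T.erase j) rfl _ h1
          rw [keep_erase, keep_kill, hk, kill_kill]
        have h3 : (kill j r)⁻¹ * r ∈ SC := by
          apply ihS (fun x hx => hS (Finset.mem_insert_of_mem hx)) _
            (RW.mul_mem (RW.inv_mem h1) hr)
          · rw [map_mul, map_inv, keep_kill, hk]
          · intro i hi
            rw [map_mul, map_inv]
            by_cases hij : i = j
            · subst hij
              rw [kill_kill, inv_mul_cancel]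
            · have h4 : kill i r = 1 := hkill i (by
                rw [Finset.mem_sdiff] at hi ⊢
                refine ⟨hi.1, fun hmem => ?_⟩
                rcases Finset.mem_insert.1 hmem with h | h
                · exact hij h
                · exact hi.2 h)
              rw [kill_comm, h4, map_one, inv_one, mul_one]
        have h5 := SC.mul_mem h2 h3
        rwa [mul_inv_cancel_left] at h5
    intro r hr hk
    exact key T (Finset.Subset.refl T) r hr hk (by simp)

include c7 c6 in
/-- `RW ≤ SC` from the cases of six and seven letters -/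
theorem fin_RW_le_SC : RW ≤ SC := by
  intro r hr
  obtain ⟨T, hT⟩ := exists_keep r
  exact fin_induct c7 c6 T.card T rfl r hr (hT T (Finset.Subset.refl T))

end main_

end Pool.Agent.H53R3
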