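import Mathlib
import Pool.Agent.H53R3.Kv

set_option autoImplicit false

/-!
Task Gf: a functional on the seventh term modulo `SC`.
-/

namespace Pool.Agent.H53R3

open scoped commutatorElement
open Pool.Agent.Helper429 (L X keep kill rnm er asc adr evP Cg Cg_iff Cg_mul_left Cg_zpow_left
  comm_mem_L er_map map_er er_mem er_mem' er_bl bl PP expand adr_len L_anti L_comm)

/-- additive functional on `L F 6` which vanishes on `SC` -/
structure GF (Λ : F → ZMod 3) : Prop where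
  mul : ∀ a b : F, a ∈ L F 6 → b ∈ L F 6 → Λ (a * b) = Λ a + Λ b
  zero : ∀ a : F, a ∈ SC → Λ a = 0

lemma gf_exists {r : F} (hr : r ∈ L F 6) (hrs : r ∉ SC) : ∃ Λ : F → ZMod 3, GF Λ ∧ Λ r ≠ 0 := by
  classical
  let S : Subgroup F := L F 6
  let N : Subgroup S := SC.subgroupOf S
  have hcomm : ∀ a b : S ⧸ N, a * b = b * a := by
    intro a b
    induction a using QuotientGroup.induction_on with
    | H a =>
      induction b using QuotientGroup.induction_on with
      | H b =>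
        rw [← QuotientGroup.mk_mul, ← QuotientGroup.mk_mul, QuotientGroup.eq]
        change ((a * b)⁻¹ * (b * a) : S) ∈ SC.subgroupOf S
        rw [Subgroup.mem_subgroupOf]
        have e : (((a * b)⁻¹ * (b * a) : S) : F) = ⁅(b : F)⁻¹, (a : F)⁻¹⁆ := by
          push_cast
          simp only [commutatorElement_def]
          group
        rw [e]
        apply L7_le_SC
        exact comm_mem_L (j := 0) (Subgroup.inv_mem _ b.2) (Subgroup.mem_top _) (by omega)
  let iQ : CommGroup (S ⧸ N) := { (inferInstance : Group (S ⧸ N)) with mul_comm := hcomm }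
  have h3 : ∀ x : Additive (S ⧸ N), 3 • x = 0 := by
    intro x
    change Additive.ofMul ((Additive.toMul x) ^ 3) = Additive.ofMul 1
    congr 1
    induction (Additive.toMul x) using QuotientGroup.induction_on with
    | H a =>
      rw [← QuotientGroup.mk_pow, QuotientGroup.eq_one_iff]
      change (a ^ 3 : S) ∈ SC.subgroupOf S
      rw [Subgroup.mem_subgroupOf]
      push_cast
      exact cube_mem_SC a.2
  let iM : Module (ZMod 3) (Additive (S ⧸ N)) := AddCommGroup.zmodModule h3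
  have hne : (Additive.ofMul (QuotientGroup.mk (⟨r, hr⟩ : S) : S ⧸ N)) ≠ 0 := by
    intro h
    have h' : (QuotientGroup.mk (⟨r, hr⟩ : S) : S ⧸ N) = 1 := h
    rw [QuotientGroup.eq_one_iff] at h'
    exact hrs (Subgroup.mem_subgroupOf.1 h')
  have h4 := mt (Module.forall_dual_apply_eq_zero_iff (ZMod 3)
    (Additive.ofMul (QuotientGroup.mk (⟨r, hr⟩ : S) : S ⧸ N))).1 hne
  push Not at h4
  obtain ⟨ℓ, hℓ⟩ := h4
  refine ⟨fun g => if h : g ∈ L F 6 then
    ℓ (Additive.ofMul (QuotientGroup.mk (⟨g, h⟩ : S) : S ⧸ N)) else 0, ⟨?_, ?_⟩, ?_⟩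
  · intro a b ha hb
    simp only [dif_pos ha, dif_pos hb, dif_pos (Subgroup.mul_mem _ ha hb)]
    rw [← map_add]
    rfl
  · intro a ha
    have ha6 : a ∈ L F 6 := SC_le_L6 ha
    simp only [dif_pos ha6]
    have : (QuotientGroup.mk (⟨a, ha6⟩ : S) : S ⧸ N) = 1 := by
      rw [QuotientGroup.eq_one_iff]
      exact Subgroup.mem_subgroupOf.2 ha
    rw [this]
    exact map_zero ℓ
  · simp only [dif_pos hr]
    exact hℓ

namespace GF

variable {Λ : F → ZMod 3}

lemma one (h : GF Λ) : Λ 1 = 0 := h.zero 1 (Subgroup.one_mem _)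

lemma inv (h : GF Λ) {a : F} (ha : a ∈ L F 6) : Λ a⁻¹ = - Λ a := by
  have h1 := h.mul a a⁻¹ ha (Subgroup.inv_mem _ ha)
  rw [mul_inv_cancel, h.one] at h1
  exact (neg_eq_of_add_eq_zero_right h1.symm).symm

lemma zpow (h : GF Λ) {a : F} (ha : a ∈ L F 6) (k : ℤ) : Λ (a ^ k) = (k : ZMod 3) * Λ a := by
  have h1 : ∀ m : ℕ, Λ (a ^ m) = (m : ZMod 3) * Λ a := by
    intro m
    induction m with
    | zero => rw [pow_zero, h.one]; simp
    | succ m ih =>
      rw [pow_succ, h.mul _ _ (Subgroup.pow_mem _ ha m) ha, ih]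
      push_cast
      ring
  cases k with
  | ofNat m =>
    rw [Int.ofNat_eq_natCast, zpow_natCast, h1 m]
    push_cast
    rfl
  | negSucc m =>
    rw [zpow_negSucc, h.inv (Subgroup.pow_mem _ ha _), h1 (m + 1), Int.negSucc_eq]
    push_cast
    ring

lemma congr (h : GF Λ) {a b : F} (ha : a ∈ L F 6) (hab : Cg 7 a b) : Λ a = Λ b := by
  have h1 : a⁻¹ * b ∈ L F 7 := Cg_iff.1 hab
  have e : b = a * (a⁻¹ * b) := by group
  rw [e, h.mul a _ ha (L_anti (by omega) h1), h.zero _ (L7_le_SC h1), add_zero]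

lemma prod (h : GF Λ) {α : Type} (D : List (ℤ × α)) (e : α → F) (he : ∀ q ∈ D, e q.2 ∈ L F 6) :
    Λ (D.map fun q => e q.2 ^ q.1).prod = (D.map fun q => (q.1 : ZMod 3) * Λ (e q.2)).sum := by
  induction D with
  | nil => simpa using h.one
  | cons q D ih =>
    have h1 := he q List.mem_cons_self
    have h2 : (D.map fun q => e q.2 ^ q.1).prod ∈ L F 6 := by
      apply Subgroup.list_prod_mem
      intro g hg
      obtain ⟨p, hp, rfl⟩ := List.mem_map.1 hg
      exact Subgroup.zpow_mem _ (he p (List.mem_cons_of_mem _ hp)) _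
    rw [List.map_cons, List.prod_cons, List.map_cons, List.sum_cons,
      h.mul _ _ (Subgroup.zpow_mem _ h1 _) h2, h.zpow h1,
      ih (fun p hp => he p (List.mem_cons_of_mem _ hp))]

/-- brackets of products of left normed commutators of weight six with a generator -/
lemma comm_prod (h : GF Λ) {α : Type} (D : List (ℤ × α)) (e : α → F) (he : ∀ q ∈ D, e q.2 ∈ L F 5)
    (x : F) : Λ ⁅(D.map fun q => e q.2 ^ q.1).prod, x⁆ =
      (D.map fun q => (q.1 : ZMod 3) * Λ ⁅e q.2, x⁆).sum := by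
  induction D with
  | nil => simpa using h.one
  | cons q D ih =>
    have h1 := he q List.mem_cons_self
    have h2 : (D.map fun q => e q.2 ^ q.1).prod ∈ L F 5 := by
      apply Subgroup.list_prod_mem
      intro g hg
      obtain ⟨p, hp, rfl⟩ := List.mem_map.1 hg
      exact Subgroup.zpow_mem _ (he p (List.mem_cons_of_mem _ hp)) _
    have hx : x ∈ L F 0 := Subgroup.mem_top _
    have h3 := Cg_mul_left (n := 7) h2 (Subgroup.zpow_mem _ h1 q.1) hx (by omega)
    have h4 := Cg_zpow_left (n := 7) h1 hx (by omega) q.1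
    have m1 : ∀ a : F, a ∈ L F 5 → ⁅a, x⁆ ∈ L F 6 := fun a ha => comm_mem_L ha hx (by omega)
    rw [List.map_cons, List.prod_cons, List.map_cons, List.sum_cons,
      h.congr (m1 _ (Subgroup.mul_mem _ (Subgroup.zpow_mem _ h1 _) h2)) h3,
      h.mul _ _ (m1 _ (Subgroup.zpow_mem _ h1 _)) (m1 _ h2),
      h.congr (m1 _ (Subgroup.zpow_mem _ h1 _)) h4, h.zpow (m1 _ h1),
      ih (fun p hp => he p (List.mem_cons_of_mem _ hp))]

lemma bracket (h : GF Λ) (y : ℕ → F) {u : List ℕ} {x : ℕ} {r : List ℕ} {a : ℕ}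
    (hu : u.length = a + 1) (ha : a + r.length = 5) :
    Λ ⁅er y u, er y (x :: r)⁆ =
      ((adr (x :: r)).map fun q => (q.1 : ZMod 3) * Λ (er y (q.2.reverse ++ u))).sum := by
  have hZ : er y u ∈ L F a := er_mem' y hu
  have hW : er y (x :: r) ∈ L F r.length := er_mem' y rfl
  have h1 := expand y x r hZ (n := 7) (by omega)
  have h2 : ⁅er y u, er y (x :: r)⁆ ∈ L F 6 := comm_mem_L hZ hW (by omega)
  rw [h.congr h2 h1]
  unfold PP
  have hb : ∀ q : ℤ × List ℕ, bl y (er y u) q.2 = er y (q.2.reverse ++ u) := by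
    intro q
    cases u with
    | nil => simp at hu
    | cons z u => exact er_bl y z u q.2
  have e1 : ((adr (x :: r)).map fun q => bl y (er y u) q.2 ^ q.1) =
      ((adr (x :: r)).map fun q => er y (q.2.reverse ++ u) ^ q.1) := by
    apply List.map_congr_left
    intro q _
    rw [hb]
  rw [e1]
  apply h.prod (adr (x :: r)) (fun l => er y (l.reverse ++ u))
  intro q hq
  apply er_mem'
  rw [List.length_append, List.length_reverse, adr_len x r q hq, hu]
  omega

end GF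

/-- extension of `y` -/
def gf_ext {n : ℕ} (y : Fin n → ℕ) (x : ℕ) : ℕ := if h : x < n then y ⟨x, h⟩ else x

lemma gf_ofFn (y : Fin 7 → ℕ) (l : List ℕ) (h1 : l.length = 7) (h2 : ∀ x ∈ l, x < 7) :
    (List.ofFn fun j : Fin 7 => y ⟨l.getD j 0 % 7, Nat.mod_lt _ (by norm_num)⟩) =
      l.map (gf_ext y) := by
  apply List.ext_getElem
  · simp [h1]
  · intro i hi1 hi2
    rw [List.getElem_ofFn, List.getElem_map]
    have hi : i < l.length := by simpa using hi2
    have h3 : l[i] < 7 := h2 _ (List.getElem_mem _)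
    unfold gf_ext
    rw [dif_pos h3]
    congr 1
    apply Fin.ext
    simp only
    rw [List.getD_eq_getElem _ _ hi, Nat.mod_eq_of_lt h3]

/-- the value of `G` -/
noncomputable def gf_G (Λ : F → ZMod 3) (w : Fin 7 → ℕ) : ZMod 3 :=
  Λ (er FreeGroup.of (List.ofFn w).reverse)

lemma gf_G_list (Λ : F → ZMod 3) (y : Fin 7 → ℕ) (u l : List ℕ) (h1 : (u ++ l).length = 7)
    (h2 : ∀ x ∈ u ++ l, x < 7) :
    gf_G Λ (fun j : Fin 7 => y ⟨(u ++ l).getD j 0 % 7, Nat.mod_lt _ (by norm_num)⟩) =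
      Λ (er (fun x => FreeGroup.of (gf_ext y x)) (l.reverse ++ u.reverse)) := by
  unfold gf_G
  rw [gf_ofFn y _ h1 h2, ← List.map_reverse, er_map, List.reverse_append]

lemma gf_er_cons (y : ℕ → F) (c : ℕ) (l : List ℕ) (hl : l ≠ []) :
    er y (c :: l) = ⁅er y l, y c⁆ := by
  match l, hl with
  | [], h => exact absurd rfl h
  | x :: r, _ => rfl

lemma gf_word (y : Fin 6 → ℕ) (c : ℕ) (σ : Equiv.Perm (Fin 6)) :
    (List.ofFn (sn y σ c)).reverse = c :: (rl 6 σ).map (gf_ext y) := by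
  unfold sn rl
  rw [List.ofFn_succ']
  simp only [Fin.snoc_castSucc, Fin.snoc_last, List.concat_eq_append, List.reverse_append,
    List.reverse_cons, List.reverse_nil, List.nil_append, List.singleton_append]
  congr 1
  rw [List.map_reverse, List.map_ofFn]
  congr 2
  funext j
  simp [gf_ext]

lemma gf_rel1_aux {Λ : F → ZMod 3} (y : Fin 6 → ℕ) (c : ℕ) (θ : F →* F)
    (hθ : ∀ x, θ (FreeGroup.of x) = FreeGroup.of (gf_ext y x)) (σ : Equiv.Perm (Fin 6)) :
    gf_G Λ (sn y σ c) = Λ ⁅θ (er FreeGroup.of (rl 6 σ)), FreeGroup.of c⁆ := by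
  unfold gf_G
  rw [gf_word, gf_er_cons, er_map, map_er]
  · simp only [hθ]
  · intro h0
    have h1 : ((rl 6 σ).map (gf_ext y)).length = 0 := by rw [h0]; rfl
    rw [List.length_map, kv_rl_len] at h1
    omega

lemma gf_rel1 {Λ : F → ZMod 3} (h : GF Λ) (D : LP 6) (hD : wd 6 FreeGroup.of D ∈ SS)
    (y : Fin 6 → ℕ) (c : ℕ) : SM D (fun σ => gf_G Λ (sn y σ c)) = 0 := by
  obtain ⟨θ, hθ⟩ : ∃ θ : F →* F, ∀ x, θ (FreeGroup.of x) = FreeGroup.of (gf_ext y x) :=
    ⟨FreeGroup.lift (fun x => FreeGroup.of (gf_ext y x)), fun x => FreeGroup.lift_apply_of⟩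
  have h1 : Λ ⁅θ (wd 6 FreeGroup.of D), FreeGroup.of c⁆ = 0 :=
    h.zero _ (Subgroup.commutator_mem_commutator (SS_map hD θ) (Subgroup.mem_top _))
  have e1 : θ (wd 6 FreeGroup.of D) =
      (D.map fun q => (θ (er FreeGroup.of (rl 6 q.2))) ^ q.1).prod := by
    unfold wd
    rw [map_list_prod, List.map_map]
    congr 1
    apply List.map_congr_left
    intro q _
    simp only [Function.comp, map_zpow]
  have hmem : ∀ σ : Equiv.Perm (Fin 6), θ (er FreeGroup.of (rl 6 σ)) ∈ L F 5 := fun σ =>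
    L_map 5 (er_mem' _ (kv_rl_len 6 σ)) θ
  rw [e1, h.comm_prod D (fun σ => θ (er FreeGroup.of (rl 6 σ))) (fun q _ => hmem q.2)] at h1
  rw [← h1]
  unfold SM
  congr 1
  apply List.map_congr_left
  intro q _
  exact congrArg (fun z : ZMod 3 => (q.1 : ZMod 3) * z) (gf_rel1_aux y c θ hθ q.2)

theorem exists_good {r : F} (hr : r ∈ L F 6) (hrs : r ∉ SC) :
    ∃ G : (Fin 7 → ℕ) → ZMod 3, Good G ∧
      ∀ D : LP 7, Cg 7 r (wd 7 FreeGroup.of D) → SM D (fun σ => G (fun j => (σ j : ℕ))) ≠ 0 := by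
  obtain ⟨Λ, h, hne⟩ := gf_exists hr hrs
  refine ⟨gf_G Λ, ⟨gf_rel1 h, ?_, ?_⟩, ?_⟩
  · intro y
    have hy := fun x => FreeGroup.of (gf_ext y x)
    have b1 := h.bracket (fun x => FreeGroup.of (gf_ext y x)) (u := [3,2,1,0]) (x := 6)
      (r := [5,4]) (a := 3) rfl rfl
    have b2 := h.bracket (fun x => FreeGroup.of (gf_ext y x)) (u := [6,5,4]) (x := 3)
      (r := [2,1,0]) (a := 2) rfl rfl
    have hm : ⁅er (fun x => FreeGroup.of (gf_ext y x)) [3,2,1,0],
        er (fun x => FreeGroup.of (gf_ext y x)) [6,5,4]⁆ ∈ L F 6 :=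
      comm_mem_L (i := 3) (j := 2) (er_mem' _ rfl) (er_mem' _ rfl) (by omega)
    rw [← commutatorElement_inv, h.inv hm, b1] at b2
    have c1 : ∀ q ∈ adr [6,5,4], ([0,1,2,3] ++ q.2).length = 7 ∧
        ∀ x ∈ [0,1,2,3] ++ q.2, x < 7 := by decide +kernel
    have c2 : ∀ q ∈ adr [3,2,1,0], ([4,5,6] ++ q.2).length = 7 ∧
        ∀ x ∈ [4,5,6] ++ q.2, x < 7 := by decide +kernel
    have d1 : ((adr [6,5,4]).map fun q => (q.1 : ZMod 3) * gf_G Λ (fun j =>
        y ⟨([0,1,2,3] ++ q.2).getD j 0 % 7, Nat.mod_lt _ (by norm_num)⟩)) =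
        ((adr [6,5,4]).map fun q => (q.1 : ZMod 3) * Λ (er (fun x => FreeGroup.of (gf_ext y x))
          (q.2.reverse ++ [3,2,1,0]))) := by
      apply List.map_congr_left
      intro q hq
      rw [gf_G_list Λ y _ _ (c1 q hq).1 (c1 q hq).2]
      rfl
    have d2 : ((adr [3,2,1,0]).map fun q => (q.1 : ZMod 3) * gf_G Λ (fun j =>
        y ⟨([4,5,6] ++ q.2).getD j 0 % 7, Nat.mod_lt _ (by norm_num)⟩)) =
        ((adr [3,2,1,0]).map fun q => (q.1 : ZMod 3) * Λ (er (fun x => FreeGroup.of (gf_ext y x))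
          (q.2.reverse ++ [6,5,4]))) := by
      apply List.map_congr_left
      intro q hq
      rw [gf_G_list Λ y _ _ (c2 q hq).1 (c2 q hq).2]
      rfl
    rw [d1, d2, ← b2]
    exact add_neg_cancel _
  · intro y
    have b1 := h.bracket (fun x => FreeGroup.of (gf_ext y x)) (u := [4,3,2,1,0]) (x := 6)
      (r := [5]) (a := 4) rfl rfl
    have b2 := h.bracket (fun x => FreeGroup.of (gf_ext y x)) (u := [6,5]) (x := 4)
      (r := [3,2,1,0]) (a := 1) rfl rfl
    have hm : ⁅er (fun x => FreeGroup.of (gf_ext y x)) [4,3,2,1,0],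
        er (fun x => FreeGroup.of (gf_ext y x)) [6,5]⁆ ∈ L F 6 :=
      comm_mem_L (i := 4) (j := 1) (er_mem' _ rfl) (er_mem' _ rfl) (by omega)
    rw [← commutatorElement_inv, h.inv hm, b1] at b2
    have c1 : ∀ q ∈ adr [6,5], ([0,1,2,3,4] ++ q.2).length = 7 ∧
        ∀ x ∈ [0,1,2,3,4] ++ q.2, x < 7 := by decide +kernel
    have c2 : ∀ q ∈ adr [4,3,2,1,0], ([5,6] ++ q.2).length = 7 ∧
        ∀ x ∈ [5,6] ++ q.2, x < 7 := by decide +kernel
    have d1 : ((adr [6,5]).map fun q => (q.1 : ZMod 3) * gf_G Λ (fun j =>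
        y ⟨([0,1,2,3,4] ++ q.2).getD j 0 % 7, Nat.mod_lt _ (by norm_num)⟩)) =
        ((adr [6,5]).map fun q => (q.1 : ZMod 3) * Λ (er (fun x => FreeGroup.of (gf_ext y x))
          (q.2.reverse ++ [4,3,2,1,0]))) := by
      apply List.map_congr_left
      intro q hq
      rw [gf_G_list Λ y _ _ (c1 q hq).1 (c1 q hq).2]
      rfl
    have d2 : ((adr [4,3,2,1,0]).map fun q => (q.1 : ZMod 3) * gf_G Λ (fun j =>
        y ⟨([5,6] ++ q.2).getD j 0 % 7, Nat.mod_lt _ (by norm_num)⟩)) =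
        ((adr [4,3,2,1,0]).map fun q => (q.1 : ZMod 3) * Λ (er (fun x => FreeGroup.of (gf_ext y x))
          (q.2.reverse ++ [6,5]))) := by
      apply List.map_congr_left
      intro q hq
      rw [gf_G_list Λ y _ _ (c2 q hq).1 (c2 q hq).2]
      rfl
    rw [d1, d2, ← b2]
    exact add_neg_cancel _
  · intro D hD
    have hmem : ∀ σ : Equiv.Perm (Fin 7), er FreeGroup.of (rl 7 σ) ∈ L F 6 := fun σ =>
      er_mem' _ (kv_rl_len 7 σ)
    have e1 := h.prod D (fun σ : Equiv.Perm (Fin 7) => er FreeGroup.of (rl 7 σ))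
      (fun q _ => hmem q.2)
    have e2 := h.congr hr hD
    have e3 : SM D (fun σ => gf_G Λ (fun j => (σ j : ℕ))) = Λ r := by
      rw [e2]
      exact e1.symm
    rw [e3]
    exact hne

end Pool.Agent.H53R3
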