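import Mathlib
import Pool.Agent.H53R3.Base
import Pool.Agent.Helper429.Main

set_option autoImplicit false

/-!
The case of six letters: laws in the seventh term.
-/

namespace Pool.Agent.H53R3

open scoped commutatorElement
open Pool.Agent.Helper429 (L X keep kill rnm er asc adr evP Cg Cg_iff L_anti comm_mem_L Cg_congr_left
  Cg_congr_right Cg_zpow_left Cg_inv_left keep_of_mem keep_of_not_mem kill_of_self kill_of_ne)

lemma RW_map {g : F} (hg : g ∈ RW) (θ : F →* F) : θ g ∈ RW := fun φ ψ => hg (φ.comp θ) ψ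

/-- substitution of one letter -/
def sub (j : ℕ) (t : F) : F →* F := FreeGroup.lift (fun x => if x = j then t else FreeGroup.of x)

lemma sub_self (j : ℕ) (t : F) : sub j t (FreeGroup.of j) = t := by simp [sub]

lemma sub_ne {j x : ℕ} (h : x ≠ j) (t : F) : sub j t (FreeGroup.of x) = FreeGroup.of x := by
  simp [sub, h]

/-- two homomorphisms agreeing on the first six letters -/
lemma hom_agree {r : F} (hk : keep (Finset.range 6) r = r) {G : Type*} [Group G] (α β : F →* G)
    (h : ∀ x < 6, α (FreeGroup.of x) = β (FreeGroup.of x)) : α r = β r := by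
  have h1 : α.comp (keep (Finset.range 6)) = β.comp (keep (Finset.range 6)) := by
    apply FreeGroup.ext_hom
    intro x
    rw [MonoidHom.comp_apply, MonoidHom.comp_apply]
    by_cases hx : x ∈ Finset.range 6
    · rw [keep_of_mem hx]; exact h x (Finset.mem_range.1 hx)
    · rw [keep_of_not_mem hx, map_one, map_one]
  have h2 := DFunLike.congr_fun h1 r
  rwa [MonoidHom.comp_apply, MonoidHom.comp_apply, hk] at h2

lemma kill_sub {i j : ℕ} (hij : i ≠ j) {t : F} (ht : kill i t = t) (g : F) :
    kill i (sub j t g) = sub j t (kill i g) := by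
  have h : (kill i).comp (sub j t) = (sub j t).comp (kill i) := by
    apply FreeGroup.ext_hom
    intro x
    rw [MonoidHom.comp_apply, MonoidHom.comp_apply]
    by_cases h1 : x = j
    · subst h1
      rw [sub_self, kill_of_ne (Ne.symm hij), sub_self, ht]
    · rw [sub_ne h1]
      by_cases h2 : x = i
      · subst h2; rw [kill_of_self, map_one]
      · rw [kill_of_ne h2, sub_ne h1]
  exact DFunLike.congr_fun h g

lemma inv_step {r : F} (hr : r ∈ RW) (hk : keep (Finset.range 6) r = r)
    (hkill : ∀ j ∈ Finset.range 6, kill j r = 1)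
    (h7 : ∀ g : F, g ∈ RW → X (Finset.range 7) g → g ∈ SC) {j : ℕ} (hj : j < 6) :
    sub j (FreeGroup.of j)⁻¹ r * r ∈ SC := by
  have hj6 : j ≠ 6 := by omega
  have hm : sub j (FreeGroup.of j * FreeGroup.of 6) r * r⁻¹ * (sub j (FreeGroup.of 6) r)⁻¹ ∈ SC := by
    apply h7
    · exact RW.mul_mem (RW.mul_mem (RW_map hr _) (RW.inv_mem hr)) (RW.inv_mem (RW_map hr _))
    · apply X.of_kill
      intro i hi
      rw [Finset.mem_range] at hi
      rw [map_mul, map_mul, map_inv, map_inv]
      by_cases h6 : i = 6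
      · subst h6
        have e1 : kill 6 (sub j (FreeGroup.of j * FreeGroup.of 6) r) = r := by
          have := hom_agree hk ((kill 6).comp (sub j (FreeGroup.of j * FreeGroup.of 6)))
            (MonoidHom.id F) (by
              intro x hx
              rw [MonoidHom.comp_apply, MonoidHom.id_apply]
              by_cases h : x = j
              · subst h
                rw [sub_self, map_mul, kill_of_self, kill_of_ne hj6, mul_one]
              · rw [sub_ne h, kill_of_ne (by omega)])
          simpa using this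
        have e2 : kill 6 r = r := by
          have := hom_agree hk (kill 6) (MonoidHom.id F) (by
              intro x hx
              rw [MonoidHom.id_apply, kill_of_ne (by omega)])
          simpa using this
        have e3 : kill 6 (sub j (FreeGroup.of 6) r) = kill j r := by
          have := hom_agree hk ((kill 6).comp (sub j (FreeGroup.of 6))) (kill j) (by
              intro x hx
              rw [MonoidHom.comp_apply]
              by_cases h : x = j
              · subst h
                rw [sub_self, kill_of_self, kill_of_self]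
              · rw [sub_ne h, kill_of_ne (by omega), kill_of_ne h])
          simpa using this
        rw [e1, e2, e3, hkill j (Finset.mem_range.2 hj)]
        simp
      · have hi6 : i ∈ Finset.range 6 := Finset.mem_range.2 (by omega)
        by_cases hij : i = j
        · subst hij
          have e1 : kill i (sub i (FreeGroup.of i * FreeGroup.of 6) r) = sub i (FreeGroup.of 6) r := by
            have := hom_agree hk ((kill i).comp (sub i (FreeGroup.of i * FreeGroup.of 6)))
              (sub i (FreeGroup.of 6)) (by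
                intro x hx
                rw [MonoidHom.comp_apply]
                by_cases h : x = i
                · subst h
                  rw [sub_self, sub_self, map_mul, kill_of_self, kill_of_ne (Ne.symm hj6), one_mul]
                · rw [sub_ne h, sub_ne h, kill_of_ne h])
            simpa using this
          have e2 : kill i (sub i (FreeGroup.of 6) r) = sub i (FreeGroup.of 6) r := by
            have := hom_agree hk ((kill i).comp (sub i (FreeGroup.of 6)))
              (sub i (FreeGroup.of 6)) (by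
                intro x hx
                rw [MonoidHom.comp_apply]
                by_cases h : x = i
                · subst h
                  rw [sub_self, kill_of_ne (Ne.symm hj6)]
                · rw [sub_ne h, kill_of_ne h])
            simpa using this
          rw [e1, e2, hkill i hi6]
          simp
        · have t1 : kill i (FreeGroup.of j * FreeGroup.of 6) = FreeGroup.of j * FreeGroup.of 6 := by
            rw [map_mul, kill_of_ne (Ne.symm hij), kill_of_ne (Ne.symm h6)]
          have t2 : kill i (FreeGroup.of 6) = FreeGroup.of 6 := kill_of_ne (Ne.symm h6)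
          rw [kill_sub hij t1, kill_sub hij t2, hkill i hi6]
          simp
  have h := SC_map hm (sub 6 (FreeGroup.of j)⁻¹)
  rw [map_mul, map_mul, map_inv, map_inv] at h
  have e1 : sub 6 (FreeGroup.of j)⁻¹ (sub j (FreeGroup.of j * FreeGroup.of 6) r) = 1 := by
    have := hom_agree hk ((sub 6 (FreeGroup.of j)⁻¹).comp (sub j (FreeGroup.of j * FreeGroup.of 6)))
      (kill j) (by
        intro x hx
        rw [MonoidHom.comp_apply]
        by_cases h : x = j
        · subst h
          rw [sub_self, map_mul, sub_self, sub_ne hj6, mul_inv_cancel, kill_of_self]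
        · rw [sub_ne h, sub_ne (by omega), kill_of_ne h])
    rw [hkill j (Finset.mem_range.2 hj)] at this
    simpa using this
  have e2 : sub 6 (FreeGroup.of j)⁻¹ r = r := by
    have := hom_agree hk (sub 6 (FreeGroup.of j)⁻¹) (MonoidHom.id F) (by
        intro x hx
        rw [MonoidHom.id_apply, sub_ne (by omega)])
    simpa using this
  have e3 : sub 6 (FreeGroup.of j)⁻¹ (sub j (FreeGroup.of 6) r) = sub j (FreeGroup.of j)⁻¹ r := by
    have := hom_agree hk ((sub 6 (FreeGroup.of j)⁻¹).comp (sub j (FreeGroup.of 6)))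
      (sub j (FreeGroup.of j)⁻¹) (by
        intro x hx
        rw [MonoidHom.comp_apply]
        by_cases h : x = j
        · subst h
          rw [sub_self, sub_self, sub_self]
        · rw [sub_ne h, sub_ne (by omega), sub_ne h])
    simpa using this
  rw [e1, e2, e3] at h
  have h2 := SC.inv_mem h
  simpa using h2

/-- inversion of all the letters -/
def eAll : F →* F := FreeGroup.lift (fun x => (FreeGroup.of x)⁻¹)

lemma eAll_zero (g : F) : Cg 1 (eAll g) (g⁻¹) := by
  have hc : ∀ a b : F, Commute (QuotientGroup.mk' (L F 1) a) (QuotientGroup.mk' (L F 1) b) :=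
    fun a b => Pool.Agent.Helper429.commute_mk _
      (comm_mem_L (i := 0) (j := 0) (Subgroup.mem_top a) (Subgroup.mem_top b) (by omega))
  induction g using FreeGroup.induction_on with
  | C1 => rw [map_one, inv_one]; exact Cg.refl _ _
  | of x =>
    have : eAll (FreeGroup.of x) = (FreeGroup.of x)⁻¹ := by simp [eAll]
    rw [this]; exact Cg.refl _ _
  | inv_of x ih => rw [map_inv]; exact ih.inv
  | mul a b iha ihb =>
    rw [map_mul]
    refine (iha.mul ihb).trans ?_
    unfold Cg
    rw [map_mul, map_inv, map_inv, map_inv, map_mul, mul_inv_rev]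
    exact ((hc a b).inv_left.inv_right).eq

lemma eAll_cg (n : ℕ) : ∀ g ∈ L F n, Cg (n + 1) (eAll g) (g ^ ((-1 : ℤ) ^ (n + 1))) := by
  induction n with
  | zero =>
    intro g _
    simpa using eAll_zero g
  | succ n ih =>
    have hc : ∀ a ∈ L F (n + 1), ∀ b : F, Commute (QuotientGroup.mk' (L F (n + 1 + 1)) a)
        (QuotientGroup.mk' (L F (n + 1 + 1)) b) :=
      fun a ha b => Pool.Agent.Helper429.commute_mk _
        (comm_mem_L (j := 0) ha (Subgroup.mem_top b) (by omega))
    have hle : L F (n + 1) ≤ (⟨⟨⟨{g | g ∈ L F (n + 1) ∧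
        Cg (n + 1 + 1) (eAll g) (g ^ ((-1 : ℤ) ^ (n + 1 + 1)))}, by
          rintro a b ⟨ha, ha'⟩ ⟨hb, hb'⟩
          refine ⟨Subgroup.mul_mem _ ha hb, ?_⟩
          rw [map_mul]
          refine (ha'.mul hb').trans ?_
          unfold Cg
          rw [map_mul, map_zpow, map_zpow, map_zpow, map_mul, (hc a ha b).mul_zpow]⟩, by
          refine ⟨Subgroup.one_mem _, ?_⟩
          rw [map_one, one_zpow]
          exact Cg.refl _ _⟩, by
          rintro a ⟨ha, ha'⟩
          refine ⟨Subgroup.inv_mem _ ha, ?_⟩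
          rw [map_inv, inv_zpow]
          exact ha'.inv⟩ : Subgroup F) := by
      change ⁅L F n, ⊤⁆ ≤ _
      rw [Subgroup.commutator_le]
      intro a ha b _
      have hL : ⁅a, b⁆ ∈ L F (n + 1) := comm_mem_L (j := 0) ha (Subgroup.mem_top b) (by omega)
      refine ⟨hL, ?_⟩
      rw [map_commutatorElement]
      have ha' := ih a ha
      have hb' := eAll_zero b
      have hea : eAll a ∈ L F n := L_map n ha eAll
      have s1 : Cg (n + 1 + 1) ⁅eAll a, eAll b⁆ ⁅a ^ ((-1 : ℤ) ^ (n + 1)), eAll b⁆ :=
        Cg_congr_left hea ha' (j := 0) (Subgroup.mem_top _) (by omega)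
      have s2 : Cg (n + 1 + 1) ⁅a ^ ((-1 : ℤ) ^ (n + 1)), eAll b⁆ ⁅a ^ ((-1 : ℤ) ^ (n + 1)), b⁻¹⁆ :=
        Cg_congr_right (i := 0) (j := n) (Subgroup.mem_top _) hb' (Subgroup.zpow_mem _ ha _) (by omega)
      have s3 : Cg (n + 1 + 1) ⁅a ^ ((-1 : ℤ) ^ (n + 1)), b⁻¹⁆ (⁅a, b⁻¹⁆ ^ ((-1 : ℤ) ^ (n + 1))) :=
        Cg_zpow_left ha (j := 0) (Subgroup.mem_top _) (by omega) _
      have s4 : Cg (n + 1 + 1) ⁅a, b⁻¹⁆ ⁅a, b⁆⁻¹ := by
        have h := (Cg_inv_left (i := 0) (j := n) (n := n + 1 + 1) (Subgroup.mem_top b) ha (by omega)).inv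
        rw [commutatorElement_inv, inv_inv] at h
        rw [commutatorElement_inv a b]
        exact h
      refine (s1.trans (s2.trans (s3.trans (s4.zpow _)))).trans ?_
      have e : ⁅a, b⁆⁻¹ ^ ((-1 : ℤ) ^ (n + 1)) = ⁅a, b⁆ ^ ((-1 : ℤ) ^ (n + 1 + 1)) := by
        rw [inv_zpow', pow_succ (-1 : ℤ) (n + 1)]
        congr 1
        ring
      rw [e]
      exact Cg.refl _ _
    intro g hg
    exact (hle hg).2

theorem case6 {r : F} (hr : r ∈ RW) (_hX : X (Finset.range 6) r)
    (hk : keep (Finset.range 6) r = r) (hr6 : r ∈ L F 6) (hkill : ∀ j ∈ Finset.range 6, kill j r = 1)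
    (h7 : ∀ g : F, g ∈ RW → X (Finset.range 7) g → g ∈ SC) : r ∈ SC := by
  set q := QuotientGroup.mk' SC with hq
  have hstep : ∀ j < 6, q (sub j (FreeGroup.of j)⁻¹ r) = (q r)⁻¹ := by
    intro j hj
    have h := (QuotientGroup.eq_one_iff _).2 (inv_step hr hk hkill h7 hj)
    change q (sub j (FreeGroup.of j)⁻¹ r * r) = 1 at h
    rw [map_mul] at h
    exact eq_inv_of_mul_eq_one_left h
  have hq1 : ∀ {a b : F} (θ : F →* F), q a = q b → q (θ a) = q (θ b) := by
    intro a b θ h
    have h1 : a⁻¹ * b ∈ SC := QuotientGroup.eq.1 h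
    have h2 := SC_map h1 θ
    rw [map_mul, map_inv] at h2
    exact QuotientGroup.eq.2 h2
  have ha : ∀ j < 6, ∀ g : F, q g = q r → q (sub j (FreeGroup.of j)⁻¹ g) = (q r)⁻¹ := by
    intro j hj g hg
    rw [hq1 _ hg, hstep j hj]
  have hb : ∀ j < 6, ∀ g : F, q g = (q r)⁻¹ → q (sub j (FreeGroup.of j)⁻¹ g) = q r := by
    intro j hj g hg
    rw [← map_inv] at hg
    rw [hq1 _ hg, map_inv, map_inv, hstep j hj, inv_inv]
  have htot : q (sub 0 (FreeGroup.of 0)⁻¹ (sub 1 (FreeGroup.of 1)⁻¹ (sub 2 (FreeGroup.of 2)⁻¹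
      (sub 3 (FreeGroup.of 3)⁻¹ (sub 4 (FreeGroup.of 4)⁻¹ (sub 5 (FreeGroup.of 5)⁻¹ r)))))) = q r :=
    hb 0 (by norm_num) _ (ha 1 (by norm_num) _ (hb 2 (by norm_num) _ (ha 3 (by norm_num) _
      (hb 4 (by norm_num) _ (ha 5 (by norm_num) _ rfl)))))
  have hall : sub 0 (FreeGroup.of 0)⁻¹ (sub 1 (FreeGroup.of 1)⁻¹ (sub 2 (FreeGroup.of 2)⁻¹
      (sub 3 (FreeGroup.of 3)⁻¹ (sub 4 (FreeGroup.of 4)⁻¹ (sub 5 (FreeGroup.of 5)⁻¹ r))))) = eAll r := by
    have := hom_agree hk ((sub 0 (FreeGroup.of 0)⁻¹).comp ((sub 1 (FreeGroup.of 1)⁻¹).comp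
      ((sub 2 (FreeGroup.of 2)⁻¹).comp ((sub 3 (FreeGroup.of 3)⁻¹).comp
      ((sub 4 (FreeGroup.of 4)⁻¹).comp (sub 5 (FreeGroup.of 5)⁻¹)))))) eAll (by
        intro x hx
        have hx' : x = 0 ∨ x = 1 ∨ x = 2 ∨ x = 3 ∨ x = 4 ∨ x = 5 := by omega
        rcases hx' with rfl | rfl | rfl | rfl | rfl | rfl <;> simp [sub, eAll])
    simpa using this
  have h6 := eAll_cg 6 r hr6
  have h6' : Cg 7 (eAll r) r⁻¹ := by simpa using h6
  have h7' : q (eAll r) = (q r)⁻¹ := by
    have h := L7_le_SC (Cg_iff.1 h6')
    have h2 : q (eAll r) = q r⁻¹ := QuotientGroup.eq.2 h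
    rw [h2, map_inv]
  rw [hall, h7'] at htot
  have h3 : q (r ^ 3) = 1 := (QuotientGroup.eq_one_iff _).2 (cube_mem_SC hr6)
  rw [map_pow] at h3
  have h2 : q r * q r = 1 := by
    nth_rewrite 1 [← htot]
    exact inv_mul_cancel _
  have h1 : q r = 1 := by
    have : (q r) ^ 3 = q r * (q r * q r) := pow_three _
    rw [this, h2, mul_one] at h3
    exact h3
  exact (QuotientGroup.eq_one_iff _).1 h1

end Pool.Agent.H53R3
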