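import Mathlib
import Pool.Agent.H53R3.Kv
import Pool.Agent.H53R3.Ph7
import Pool.Agent.H53R3.ClB

set_option autoImplicit false

/-!
The linear conditions on a law of the free group of rank five.
-/

namespace Pool.Agent.H53R3

open scoped commutatorElement
open Pool.Agent.Helper429 (L X keep kill rnm er asc adr evP Cg Cg_iff)

lemma law_evf_eq {φ : Equiv.Perm (Fin 7) → ZMod 3} {r : F} (hr6 : r ∈ L F 6) (D : LP 7)
    (hD : Cg 7 r (wd 7 FreeGroup.of D)) (v : ℕ → ℕ → ZMod 3) :
    evf 7 φ (wd 7 FreeGroup.of D) v = evf 7 φ r v := by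
  have h1 := Cg_iff.1 hD
  have h2 : wd 7 FreeGroup.of D = r * (r⁻¹ * wd 7 FreeGroup.of D) := by group
  rw [h2, evf_mul φ (by omega) hr6 (Pool.Agent.Helper429.L_anti (by omega) h1), evf_eq_zero φ h1,
    add_zero]

/-- identification of letters -/
lemma law_sum {r : F} (hr : r ∈ RW) (hr6 : r ∈ L F 6) (D : LP 7)
    (hD : Cg 7 r (wd 7 FreeGroup.of D)) {i j k l : Fin 7} (hij : i ≠ j) (hil : i ≠ l)
    (hjk : j ≠ k) (hjl : j ≠ l) (hkl : k ≠ l) (v : ℕ → ℕ → ZMod 3) (h1 : v j = v i) (h2 : v l = v k) :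
    ∑ τ : Equiv.Perm (Fin 7), (∏ x : Fin 7, v x (τ x)) * SM D (fun σ => Phi fp (τ * σ)) = 0 ∧
    ∑ τ : Equiv.Perm (Fin 7), (∏ x : Fin 7, v x (τ x)) * SM D (fun σ => Phi fq (τ * σ)) = 0 := by
  let rep : Fin 7 → Fin 7 := fun x => if x = j then i else if x = l then k else x
  have hrep : ∀ x, rep x ∈ (Finset.univ \ {j, l} : Finset (Fin 7)) := by
    intro x
    simp only [rep, Finset.mem_sdiff, Finset.mem_univ, true_and, Finset.mem_insert,
      Finset.mem_singleton]
    split_ifs with h h'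
    · tauto
    · simp [hkl, Ne.symm hjk]
    · tauto
  have hcard : (Finset.univ \ {j, l} : Finset (Fin 7)).card = 5 := by
    rw [Finset.card_sdiff]
    simp [Finset.card_pair hjl]
  let e : (Finset.univ \ {j, l} : Finset (Fin 7)) ≃ Fin 5 := Finset.equivFinOfCardEq hcard
  let φ : F →* FreeGroup (Fin 5) :=
    FreeGroup.lift (fun x => if h : x < 7 then FreeGroup.of (e ⟨rep ⟨x, h⟩, hrep _⟩) else 1)
  let ψ : FreeGroup (Fin 5) →* F := FreeGroup.lift (fun a => FreeGroup.of (((e.symm a : _) : Fin 7) : ℕ))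
  have hθ : ∀ x : Fin 7, (ψ.comp φ) (FreeGroup.of (x : ℕ)) = FreeGroup.of ((rep x : Fin 7) : ℕ) := by
    intro x
    simp [φ, ψ]
  have hv : ∀ x : Fin 7, v (rep x : Fin 7) = v x := by
    intro x
    simp only [rep]
    split_ifs with h h'
    · rw [h, h1]
    · rw [h', h2]
    · rfl
  have hmem : (ψ.comp φ) r ∈ WW := SC_le_WW (hr φ ψ)
  have key : ∀ ϕ : Equiv.Perm (Fin 7) → ZMod 3, evf 7 ϕ ((ψ.comp φ) r) v = 0 →
      ∑ τ : Equiv.Perm (Fin 7), (∏ x : Fin 7, v x (τ x)) * SM D (fun σ => Phi ϕ (τ * σ)) = 0 := by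
    intro ϕ h
    rw [evf_map ϕ (by omega) hr6, ← law_evf_eq hr6 D hD, evf_wd (by omega) (by omega)] at h
    refine Eq.trans ?_ h
    apply Finset.sum_congr rfl
    intro τ _
    refine congrArg (fun z : ZMod 3 => z * SM D (fun σ => Phi ϕ (τ * σ))) ?_
    refine Finset.prod_congr rfl ?_
    intro x _
    have e1 : vv v ((ψ.comp φ) (FreeGroup.of (x : ℕ))) = v x := by
      rw [hθ, vv_of, hv]
    exact congrFun e1.symm _
  exact ⟨key fp (hmem.2 v).1, key fq (hmem.2 v).2⟩

/-- sums supported on four permutations -/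
lemma law_fold {i j k l : Fin 7} (hij : i ≠ j) (hik : i ≠ k) (hil : i ≠ l)
    (hjk : j ≠ k) (hjl : j ≠ l) (hkl : k ≠ l) (τ0 : Equiv.Perm (Fin 7)) :
    ∃ v : ℕ → ℕ → ZMod 3, v j = v i ∧ v l = v k ∧ ∀ f : Equiv.Perm (Fin 7) → ZMod 3,
      ∑ τ : Equiv.Perm (Fin 7), (∏ x : Fin 7, v x (τ x)) * f τ =
        f τ0 + f (τ0 * Equiv.swap i j) + f (τ0 * Equiv.swap k l) +
          f (τ0 * (Equiv.swap i j * Equiv.swap k l)) := by
  let T : Fin 7 → Finset (Fin 7) := fun x => if x = i ∨ x = j then {i, j} else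
    if x = k ∨ x = l then {k, l} else {x}
  let v : ℕ → ℕ → ZMod 3 := fun x y => if h : x < 7 then
    (if ∃ z ∈ T ⟨x, h⟩, y = (τ0 z : ℕ) then 1 else 0) else 0
  have hv : ∀ (x : Fin 7) (ρ : Equiv.Perm (Fin 7)), v x ((τ0 * ρ) x) = if ρ x ∈ T x then 1 else 0 := by
    intro x ρ
    have h1 : (x : ℕ) < 7 := x.2
    simp only [v, dif_pos h1, Fin.eta]
    congr 1
    apply propext
    constructor
    · rintro ⟨z, hz, h⟩
      have h2 : (τ0 * ρ) x = τ0 z := Fin.ext h
      rw [Equiv.Perm.mul_apply] at h2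
      rwa [τ0.injective h2]
    · intro h
      exact ⟨ρ x, h, rfl⟩
  have hprod : ∀ ρ : Equiv.Perm (Fin 7), (∏ x : Fin 7, v x ((τ0 * ρ) x)) =
      if ∀ x, ρ x ∈ T x then 1 else 0 := by
    intro ρ
    split_ifs with h
    · exact Finset.prod_eq_one fun x _ => by rw [hv, if_pos (h x)]
    · push Not at h
      obtain ⟨x, hx⟩ := h
      exact Finset.prod_eq_zero (Finset.mem_univ x) (by rw [hv, if_neg hx])
  have hchar : ∀ ρ : Equiv.Perm (Fin 7), (∀ x, ρ x ∈ T x) ↔ ρ ∈ ({1, Equiv.swap i j,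
      Equiv.swap k l, Equiv.swap i j * Equiv.swap k l} : Finset (Equiv.Perm (Fin 7))) := by
    intro ρ
    constructor
    · intro h
      have hi : ρ i = i ∨ ρ i = j := by simpa [T] using h i
      have hj : ρ j = i ∨ ρ j = j := by simpa [T] using h j
      have hk : ρ k = k ∨ ρ k = l := by simpa [T, Ne.symm hik, Ne.symm hjk] using h k
      have hl : ρ l = k ∨ ρ l = l := by simpa [T, Ne.symm hil, Ne.symm hjl] using h l
      have ho : ∀ x, x ≠ i → x ≠ j → x ≠ k → x ≠ l → ρ x = x := by
        intro x h1 h2 h3 h4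
        simpa [T, h1, h2, h3, h4] using h x
      have hij' : ρ i ≠ ρ j := fun h => hij (ρ.injective h)
      have hkl' : ρ k ≠ ρ l := fun h => hkl (ρ.injective h)
      simp only [Finset.mem_insert, Finset.mem_singleton]
      rcases hi with hi | hi
      · have hj' : ρ j = j := by
          rcases hj with h | h
          · exact absurd (hi.trans h.symm) hij'
          · exact h
        rcases hk with hk | hk
        · have hl' : ρ l = l := by
            rcases hl with h | h
            · exact absurd (hk.trans h.symm) hkl'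
            · exact h
          left
          ext x
          by_cases h1 : x = i
          · subst h1; simp [hi]
          by_cases h2 : x = j
          · subst h2; simp [hj']
          by_cases h3 : x = k
          · subst h3; simp [hk]
          by_cases h4 : x = l
          · subst h4; simp [hl']
          simp [ho x h1 h2 h3 h4]
        · have hl' : ρ l = k := by
            rcases hl with h | h
            · exact h
            · exact absurd (hk.trans h.symm) hkl'
          right; right; left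
          ext x
          by_cases h1 : x = i
          · subst h1; rw [hi, Equiv.swap_apply_of_ne_of_ne hik hil]
          by_cases h2 : x = j
          · subst h2; rw [hj', Equiv.swap_apply_of_ne_of_ne hjk hjl]
          by_cases h3 : x = k
          · subst h3; rw [hk, Equiv.swap_apply_left]
          by_cases h4 : x = l
          · subst h4; rw [hl', Equiv.swap_apply_right]
          rw [ho x h1 h2 h3 h4, Equiv.swap_apply_of_ne_of_ne h3 h4]
      · have hj' : ρ j = i := by
          rcases hj with h | h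
          · exact h
          · exact absurd (hi.trans h.symm) hij'
        rcases hk with hk | hk
        · have hl' : ρ l = l := by
            rcases hl with h | h
            · exact absurd (hk.trans h.symm) hkl'
            · exact h
          right; left
          ext x
          by_cases h1 : x = i
          · subst h1; rw [hi, Equiv.swap_apply_left]
          by_cases h2 : x = j
          · subst h2; rw [hj', Equiv.swap_apply_right]
          by_cases h3 : x = k
          · subst h3; rw [hk, Equiv.swap_apply_of_ne_of_ne (Ne.symm hik) (Ne.symm hjk)]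
          by_cases h4 : x = l
          · subst h4; rw [hl', Equiv.swap_apply_of_ne_of_ne (Ne.symm hil) (Ne.symm hjl)]
          rw [ho x h1 h2 h3 h4, Equiv.swap_apply_of_ne_of_ne h1 h2]
        · have hl' : ρ l = k := by
            rcases hl with h | h
            · exact h
            · exact absurd (hk.trans h.symm) hkl'
          right; right; right
          ext x
          rw [Equiv.Perm.mul_apply]
          by_cases h1 : x = i
          · subst h1; rw [hi, Equiv.swap_apply_of_ne_of_ne hik hil, Equiv.swap_apply_left]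
          by_cases h2 : x = j
          · subst h2; rw [hj', Equiv.swap_apply_of_ne_of_ne hjk hjl, Equiv.swap_apply_right]
          by_cases h3 : x = k
          · subst h3; rw [hk, Equiv.swap_apply_left, Equiv.swap_apply_of_ne_of_ne (Ne.symm hil) (Ne.symm hjl)]
          by_cases h4 : x = l
          · subst h4; rw [hl', Equiv.swap_apply_right, Equiv.swap_apply_of_ne_of_ne (Ne.symm hik) (Ne.symm hjk)]
          rw [ho x h1 h2 h3 h4, Equiv.swap_apply_of_ne_of_ne h3 h4, Equiv.swap_apply_of_ne_of_ne h1 h2]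
    · intro h x
      simp only [Finset.mem_insert, Finset.mem_singleton] at h
      have hTx : T x = if x = i ∨ x = j then {i, j} else if x = k ∨ x = l then {k, l} else {x} := rfl
      rw [hTx]
      rcases h with rfl | rfl | rfl | rfl
      · split_ifs with h1 h2 <;> simp [h1] <;> tauto
      · split_ifs with h1 h2
        · rcases h1 with rfl | rfl <;> simp
        · push Not at h1
          rw [Equiv.swap_apply_of_ne_of_ne h1.1 h1.2]
          simpa using h2
        · push Not at h1
          rw [Equiv.swap_apply_of_ne_of_ne h1.1 h1.2]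
          simp
      · split_ifs with h1 h2
        · rcases h1 with rfl | rfl
          · rw [Equiv.swap_apply_of_ne_of_ne hik hil]; simp
          · rw [Equiv.swap_apply_of_ne_of_ne hjk hjl]; simp
        · rcases h2 with rfl | rfl <;> simp
        · push Not at h2
          rw [Equiv.swap_apply_of_ne_of_ne h2.1 h2.2]
          simp
      · rw [Equiv.Perm.mul_apply]
        split_ifs with h1 h2
        · rcases h1 with rfl | rfl
          · rw [Equiv.swap_apply_of_ne_of_ne hik hil]; simp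
          · rw [Equiv.swap_apply_of_ne_of_ne hjk hjl]; simp
        · rcases h2 with rfl | rfl
          · rw [Equiv.swap_apply_left, Equiv.swap_apply_of_ne_of_ne (Ne.symm hil) (Ne.symm hjl)]; simp
          · rw [Equiv.swap_apply_right, Equiv.swap_apply_of_ne_of_ne (Ne.symm hik) (Ne.symm hjk)]; simp
        · push Not at h1 h2
          rw [Equiv.swap_apply_of_ne_of_ne h2.1 h2.2, Equiv.swap_apply_of_ne_of_ne h1.1 h1.2]
          simp
  refine ⟨v, ?_, ?_, ?_⟩
  · funext y
    have h1 : (i : ℕ) < 7 := i.2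
    have h2 : (j : ℕ) < 7 := j.2
    have e : T j = T i := by simp [T]
    simp only [v, dif_pos h1, dif_pos h2, Fin.eta, e]
  · funext y
    have h1 : (k : ℕ) < 7 := k.2
    have h2 : (l : ℕ) < 7 := l.2
    have e : T l = T k := by simp [T, Ne.symm hik, Ne.symm hjk, Ne.symm hil, Ne.symm hjl]
    simp only [v, dif_pos h1, dif_pos h2, Fin.eta, e]
  · intro f
    rw [← Equiv.sum_comp (Equiv.mulLeft τ0)]
    simp only [Equiv.coe_mulLeft]
    have e1 : ∀ ρ : Equiv.Perm (Fin 7), (∏ x : Fin 7, v x ((τ0 * ρ) x)) * f (τ0 * ρ) =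
        if ρ ∈ ({1, Equiv.swap i j, Equiv.swap k l, Equiv.swap i j * Equiv.swap k l} :
          Finset (Equiv.Perm (Fin 7))) then f (τ0 * ρ) else 0 := by
      intro ρ
      rw [hprod]
      by_cases h : ∀ x, ρ x ∈ T x
      · rw [if_pos h, if_pos ((hchar ρ).1 h), one_mul]
      · rw [if_neg h, if_neg (fun h' => h ((hchar ρ).2 h')), zero_mul]
    rw [Finset.sum_congr rfl (fun ρ _ => e1 ρ), Finset.sum_ite_mem, Finset.univ_inter]
    have d1 : (Equiv.swap i j : Equiv.Perm (Fin 7)) ≠ 1 := by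
      intro h
      have := Equiv.congr_fun h i
      rw [Equiv.swap_apply_left] at this
      exact hij this.symm
    have d2 : (Equiv.swap k l : Equiv.Perm (Fin 7)) ≠ 1 := by
      intro h
      have := Equiv.congr_fun h k
      rw [Equiv.swap_apply_left] at this
      exact hkl this.symm
    have d3 : (Equiv.swap i j : Equiv.Perm (Fin 7)) ≠ Equiv.swap k l := by
      intro h
      have := Equiv.congr_fun h i
      rw [Equiv.swap_apply_left, Equiv.swap_apply_of_ne_of_ne hik hil] at this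
      exact hij this.symm
    have d4 : (Equiv.swap i j * Equiv.swap k l : Equiv.Perm (Fin 7)) ≠ 1 := by
      intro h
      have := Equiv.congr_fun h i
      rw [Equiv.Perm.mul_apply, Equiv.swap_apply_of_ne_of_ne hik hil, Equiv.swap_apply_left] at this
      exact hij this.symm
    rw [Finset.sum_insert, Finset.sum_insert, Finset.sum_insert, Finset.sum_singleton, mul_one]
    · ring
    · rw [Finset.mem_singleton]
      intro h
      exact d1 (by simpa using h)
    · simp only [Finset.mem_insert, Finset.mem_singleton, not_or]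
      refine ⟨d3, fun h => d2 (by simpa using h)⟩
    · simp only [Finset.mem_insert, Finset.mem_singleton, not_or]
      exact ⟨Ne.symm d1, Ne.symm d2, Ne.symm d4⟩

lemma law_fp (D : LP 7) (τ : Equiv.Perm (Fin 7)) :
    SM D (fun σ => Phi fp (τ * σ)) = sg τ * Psi D (τ⁻¹ 0) (τ⁻¹ 1) := by
  unfold Psi
  rw [← SM_mul]
  apply SM_congr
  intro σ
  rw [Phi_fp, sg_mul', A3_mul, A3_mul, B3_mul, B3_mul]
  ring

lemma law_sgsq (τ : Equiv.Perm (Fin 7)) : sg τ * sg τ = 1 := by
  unfold sg
  rcases Int.units_eq_one_or (Equiv.Perm.sign τ) with h | h <;> simp [h]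

theorem law_c1 {r : F} (hr : r ∈ RW) (hr6 : r ∈ L F 6) (D : LP 7) (hD : Cg 7 r (wd 7 FreeGroup.of D))
    (i j k l : Fin 7) (hij : i ≠ j) (hik : i ≠ k) (hil : i ≠ l) (hjk : j ≠ k) (hjl : j ≠ l)
    (hkl : k ≠ l) : Psi D i k - Psi D j k - Psi D i l + Psi D j l = 0 := by
  obtain ⟨τ0, t0, t1⟩ : ∃ τ0 : Equiv.Perm (Fin 7), τ0 i = 0 ∧ τ0 k = 1 := by
    refine ⟨Equiv.swap (Equiv.swap i 0 k) 1 * Equiv.swap i 0, ?_, ?_⟩
    · rw [Equiv.Perm.mul_apply, Equiv.swap_apply_left]
      apply Equiv.swap_apply_of_ne_of_ne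
      · intro h
        have := congrArg (Equiv.swap i 0) h
        rw [Equiv.swap_apply_right, Equiv.swap_apply_self] at this
        exact hik this
      · decide
    · rw [Equiv.Perm.mul_apply, Equiv.swap_apply_left]
  obtain ⟨v, h1, h2, hf⟩ := law_fold hij hik hil hjk hjl hkl τ0
  have h := (law_sum hr hr6 D hD hij hil hjk hjl hkl v h1 h2).1
  rw [hf] at h
  rw [law_fp, law_fp, law_fp, law_fp] at h
  have a0 : τ0⁻¹ 0 = i := by rw [Equiv.Perm.inv_eq_iff_eq, t0]
  have a1 : τ0⁻¹ 1 = k := by rw [Equiv.Perm.inv_eq_iff_eq, t1]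
  simp only [mul_inv_rev, Equiv.swap_inv, Equiv.Perm.mul_apply, a0, a1, sg_mul', sg_swap hij,
    sg_swap hkl] at h
  rw [Equiv.swap_apply_left, Equiv.swap_apply_of_ne_of_ne (Ne.symm hik) (Ne.symm hjk),
    Equiv.swap_apply_of_ne_of_ne hik hil, Equiv.swap_apply_left,
    Equiv.swap_apply_of_ne_of_ne hjk hjl] at h
  linear_combination (sg τ0) * h - (Psi D i k - Psi D j k - Psi D i l + Psi D j l) * law_sgsq τ0

lemma law_fq_inv (D : LP 7) (τ ρ : Equiv.Perm (Fin 7)) (h : ∀ x, Yq (ρ x) = Yq x) :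
    SM D (fun σ => Phi fq (ρ * τ * σ)) = SM D (fun σ => Phi fq (τ * σ)) := by
  apply SM_congr
  intro σ
  rw [Phi_fq, Phi_fq]
  simp only [Equiv.Perm.mul_apply, h]

theorem law_c2 {r : F} (hr : r ∈ RW) (hr6 : r ∈ L F 6) (D : LP 7) (hD : Cg 7 r (wd 7 FreeGroup.of D))
    (τ : Equiv.Perm (Fin 7)) : SM D (fun σ => Phi fq (τ * σ)) = 0 := by
  have n01 : τ⁻¹ 0 ≠ τ⁻¹ 1 := fun h => by simpa using (τ⁻¹).injective h
  have n04 : τ⁻¹ 0 ≠ τ⁻¹ 4 := fun h => by simpa using (τ⁻¹).injective h
  have n05 : τ⁻¹ 0 ≠ τ⁻¹ 5 := fun h => by simpa using (τ⁻¹).injective h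
  have n14 : τ⁻¹ 1 ≠ τ⁻¹ 4 := fun h => by simpa using (τ⁻¹).injective h
  have n15 : τ⁻¹ 1 ≠ τ⁻¹ 5 := fun h => by simpa using (τ⁻¹).injective h
  have n45 : τ⁻¹ 4 ≠ τ⁻¹ 5 := fun h => by simpa using (τ⁻¹).injective h
  obtain ⟨v, h1, h2, hf⟩ := law_fold n01 n04 n05 n14 n15 n45 τ
  have h := (law_sum hr hr6 D hD n01 n05 n14 n15 n45 v h1 h2).2
  rw [hf] at h
  have e1 : τ * Equiv.swap (τ⁻¹ 0) (τ⁻¹ 1) = Equiv.swap 0 1 * τ := by
    rw [Equiv.mul_swap_eq_swap_mul]; simp
  have e2 : τ * Equiv.swap (τ⁻¹ 4) (τ⁻¹ 5) = Equiv.swap 4 5 * τ := by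
    rw [Equiv.mul_swap_eq_swap_mul]; simp
  have e3 : τ * (Equiv.swap (τ⁻¹ 0) (τ⁻¹ 1) * Equiv.swap (τ⁻¹ 4) (τ⁻¹ 5)) =
      Equiv.swap 0 1 * Equiv.swap 4 5 * τ := by
    rw [← mul_assoc, e1, mul_assoc, e2, mul_assoc]
  rw [e1, e2, e3] at h
  rw [law_fq_inv D τ (Equiv.swap 0 1) (by decide), law_fq_inv D τ (Equiv.swap 4 5) (by decide),
    law_fq_inv D τ (Equiv.swap 0 1 * Equiv.swap 4 5) (by decide)] at h
  have h3 : (3 : ZMod 3) = 0 := by decide
  linear_combination h - (SM D fun σ => Phi fq (τ * σ)) * h3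

end Pool.Agent.H53R3
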