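import Mathlib
import Pool.Agent.H53R3.ClB

set_option autoImplicit false

/-!
The shape of the functions satisfying all the relations.
-/

namespace Pool.Agent.H53R3

open scoped commutatorElement

/-- the functional attached to a function -/
def pqev (f : Equiv.Perm (Fin 6) → ZMod 3) : (Equiv.Perm (Fin 6) → ZMod 3) →ₗ[ZMod 3] ZMod 3 where
  toFun u := ∑ σ, u σ * f σ
  map_add' u v := by simp [add_mul, Finset.sum_add_distrib]
  map_smul' c u := by simp [Finset.mul_sum, mul_assoc]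

lemma pqev_apply (f u : Equiv.Perm (Fin 6) → ZMod 3) : pqev f u = ∑ σ, u σ * f σ := rfl

lemma pqev_single (f : Equiv.Perm (Fin 6) → ZMod 3) (σ : Equiv.Perm (Fin 6)) :
    pqev f (Pi.single σ 1) = f σ := by
  rw [pqev_apply, Finset.sum_eq_single σ]
  · simp
  · intro τ _ hτ
    simp [Pi.single_eq_of_ne hτ]
  · intro h; exact absurd (Finset.mem_univ _) h

/-- the formal combination attached to a function -/
noncomputable def pqL (u : Equiv.Perm (Fin 6) → ZMod 3) : LP 6 :=
  (Finset.univ : Finset (Equiv.Perm (Fin 6))).toList.map fun σ => (((u σ).val : ℤ), σ)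

lemma SM_pqL (u f : Equiv.Perm (Fin 6) → ZMod 3) : SM (pqL u) f = pqev f u := by
  unfold SM pqL
  rw [List.map_map, pqev_apply, ← Finset.sum_map_toList]
  refine congrArg List.sum (List.map_congr_left ?_)
  intro σ _
  simp only [Function.comp]
  push_cast
  rw [ZMod.natCast_zmod_val]

lemma pq_six {G : (Fin 7 → ℕ) → ZMod 3} (hG : Good G) (y : Fin 6 → ℕ) (c : ℕ) :
    ∃ p q : Fin 6 → ZMod 3, ∑ a, p a = 0 ∧ ∑ a, q a = 0 ∧ ∀ σ : Equiv.Perm (Fin 6),
      G (sn y σ c) = p (σ 0) - p (σ 1) + sg σ * (q (σ 0) + q (σ 1) + q (σ 2)) := by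
  let L : Fin 6 ⊕ Fin 6 → (Equiv.Perm (Fin 6) → ZMod 3) →ₗ[ZMod 3] ZMod 3 := fun i =>
    match i with
    | Sum.inl a => pqev (fun σ => sg σ * A3 a σ - sg σ * A3 0 σ)
    | Sum.inr a => pqev (fun σ => dd a σ - dd 0 σ)
  have hK : pqev (fun σ => G (sn y σ c)) ∈ Submodule.span (ZMod 3) (Set.range L) := by
    apply mem_span_of_iInf_ker_le_ker
    intro u hu
    rw [Submodule.mem_iInf] at hu
    rw [LinearMap.mem_ker, ← SM_pqL]
    have h1 : ∀ a, SM (pqL u) (fun σ => sg σ * A3 a σ) = SM (pqL u) (fun σ => sg σ * A3 0 σ) := by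
      intro a
      have h := hu (Sum.inl a)
      rw [LinearMap.mem_ker] at h
      change pqev _ u = 0 at h
      rw [← SM_pqL, SM_sub] at h
      exact sub_eq_zero.1 h
    have h2 : ∀ a, SM (pqL u) (dd a) = SM (pqL u) (dd 0) := by
      intro a
      have h := hu (Sum.inr a)
      rw [LinearMap.mem_ker] at h
      change pqev _ u = 0 at h
      rw [← SM_pqL, SM_sub] at h
      exact sub_eq_zero.1 h
    exact good_B hG _ (fun a b => by rw [h1 a, h1 b]) (fun a b => by rw [h2 a, h2 b]) y c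
  rw [Submodule.mem_span_range_iff_exists_fun] at hK
  obtain ⟨k, hk⟩ := hK
  have hval : ∀ σ : Equiv.Perm (Fin 6), G (sn y σ c) =
      (∑ a, k (Sum.inl a) * (sg σ * A3 a σ - sg σ * A3 0 σ)) +
      ∑ a, k (Sum.inr a) * (dd a σ - dd 0 σ) := by
    intro σ
    have h := LinearMap.congr_fun hk (Pi.single σ 1)
    have h' : (∑ i, k i • L i) (Pi.single σ 1) = ∑ i, k i * L i (Pi.single σ 1) := by
      rw [LinearMap.sum_apply]
      rfl
    have hl : ∀ a, L (Sum.inl a) (Pi.single σ 1) = sg σ * A3 a σ - sg σ * A3 0 σ :=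
      fun a => pqev_single (fun σ => sg σ * A3 a σ - sg σ * A3 0 σ) σ
    have hr : ∀ a, L (Sum.inr a) (Pi.single σ 1) = dd a σ - dd 0 σ :=
      fun a => pqev_single (fun σ => dd a σ - dd 0 σ) σ
    have hG' := pqev_single (fun σ => G (sn y σ c)) σ
    rw [h', Fintype.sum_sum_type] at h
    rw [Finset.sum_congr rfl (fun a _ => by rw [hl a]), 
      Finset.sum_congr (s₁ := Finset.univ) (f := fun a => k (Sum.inr a) * L (Sum.inr a) (Pi.single σ 1))
        rfl (fun a _ => by rw [hr a])] at h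
    exact hG'.symm.trans h.symm
  have fA : ∀ (q : Fin 6 → ZMod 3) (σ : Equiv.Perm (Fin 6)),
      ∑ a, q a * A3 a σ = q (σ 0) + q (σ 1) + q (σ 2) := by
    intro q σ
    have h01 : σ 0 ≠ σ 1 := fun h => by simpa using σ.injective h
    have h02 : σ 0 ≠ σ 2 := fun h => by simpa using σ.injective h
    have h12 : σ 1 ≠ σ 2 := fun h => by simpa using σ.injective h
    have h1 : ∀ a, q a * A3 a σ = (if σ 0 = a then q a else 0) + (if σ 1 = a then q a else 0) +
        (if σ 2 = a then q a else 0) := by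
      intro a
      unfold A3
      by_cases h0 : σ 0 = a
      · subst h0
        simp [Ne.symm h01, Ne.symm h02]
      · by_cases h1 : σ 1 = a
        · subst h1
          simp [h0, Ne.symm h12]
        · by_cases h2 : σ 2 = a
          · simp [h0, h1, h2]
          · simp [h0, h1, h2]
    rw [Finset.sum_congr rfl (fun a _ => h1 a), Finset.sum_add_distrib, Finset.sum_add_distrib]
    simp
  have fd : ∀ (p : Fin 6 → ZMod 3) (σ : Equiv.Perm (Fin 6)),
      ∑ a, p a * dd a σ = p (σ 0) - p (σ 1) := by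
    intro p σ
    have h1 : ∀ a, p a * dd a σ = (if σ 0 = a then p a else 0) - (if σ 1 = a then p a else 0) := by
      intro a
      unfold dd
      split_ifs <;> simp
    rw [Finset.sum_congr rfl (fun a _ => h1 a), Finset.sum_sub_distrib]
    simp
  refine ⟨fun a => k (Sum.inr a) - if a = 0 then ∑ b, k (Sum.inr b) else 0,
    fun a => k (Sum.inl a) - if a = 0 then ∑ b, k (Sum.inl b) else 0, ?_, ?_, fun σ => ?_⟩
  · rw [Finset.sum_sub_distrib]; simp
  · rw [Finset.sum_sub_distrib]; simp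
  · rw [hval σ]
    rw [← fA (fun a => k (Sum.inl a) - if a = 0 then ∑ b, k (Sum.inl b) else 0) σ,
      ← fd (fun a => k (Sum.inr a) - if a = 0 then ∑ b, k (Sum.inr b) else 0) σ]
    have e1 : ∑ a, (k (Sum.inl a) - if a = 0 then ∑ b, k (Sum.inl b) else 0) * A3 a σ =
        ∑ a, k (Sum.inl a) * A3 a σ - (∑ b, k (Sum.inl b)) * A3 0 σ := by
      rw [← Finset.sum_congr rfl (fun a _ => (sub_mul _ _ _).symm), Finset.sum_sub_distrib]
      congr 1
      simp
    have e2 : ∑ a, (k (Sum.inr a) - if a = 0 then ∑ b, k (Sum.inr b) else 0) * dd a σ =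
        ∑ a, k (Sum.inr a) * dd a σ - (∑ b, k (Sum.inr b)) * dd 0 σ := by
      rw [← Finset.sum_congr rfl (fun a _ => (sub_mul _ _ _).symm), Finset.sum_sub_distrib]
      congr 1
      simp
    rw [e1, e2]
    have e3 : ∑ a, k (Sum.inl a) * (sg σ * A3 a σ - sg σ * A3 0 σ) =
        sg σ * (∑ a, k (Sum.inl a) * A3 a σ - (∑ b, k (Sum.inl b)) * A3 0 σ) := by
      rw [Finset.sum_mul, ← Finset.sum_sub_distrib, Finset.mul_sum]
      apply Finset.sum_congr rfl
      intro a _
      ring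
    have e4 : ∑ a, k (Sum.inr a) * (dd a σ - dd 0 σ) =
        ∑ a, k (Sum.inr a) * dd a σ - (∑ b, k (Sum.inr b)) * dd 0 σ := by
      rw [Finset.sum_mul, ← Finset.sum_sub_distrib]
      apply Finset.sum_congr rfl
      intro a _
      ring
    rw [e3, e4]
    ring

/-- a permutation moving the last letter to `c` -/
def cyc (c : Fin 7) : Equiv.Perm (Fin 7) := (finSuccEquivLast (n := 6)).trans (finSuccEquiv' c).symm

lemma cyc_castSucc (c : Fin 7) (j : Fin 6) : cyc c (Fin.castSucc j) = c.succAbove j := by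
  simp [cyc]

lemma cyc_last (c : Fin 7) : cyc c (Fin.last 6) = c := by
  unfold cyc
  rw [Equiv.trans_apply, finSuccEquivLast_last, finSuccEquiv'_symm_none]

lemma em6_castSucc (ρ : Equiv.Perm (Fin 6)) (j : Fin 6) :
    em6 ρ (Fin.castSucc j) = Fin.castSucc (ρ j) := by
  unfold em6
  rw [Equiv.permCongr_apply, Equiv.symm_symm, finSuccEquivLast_castSucc]
  simp

lemma em6_last (ρ : Equiv.Perm (Fin 6)) : em6 ρ (Fin.last 6) = Fin.last 6 := by
  unfold em6
  rw [Equiv.permCongr_apply, Equiv.symm_symm, finSuccEquivLast_last]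
  exact finSuccEquivLast_symm_none

lemma sg_em6 (ρ : Equiv.Perm (Fin 6)) : sg (em6 ρ) = sg ρ := by
  unfold sg em6
  rw [Equiv.Perm.sign_permCongr, Equiv.optionCongr_sign]

lemma exists_em6 (τ : Equiv.Perm (Fin 7)) (h : τ (Fin.last 6) = Fin.last 6) :
    ∃ ρ, τ = em6 ρ := by
  let e : Equiv.Perm (Option (Fin 6)) := (finSuccEquivLast (n := 6)).permCongr τ
  have he : e none = none := by
    change finSuccEquivLast (τ (finSuccEquivLast.symm none)) = none
    rw [finSuccEquivLast_symm_none, h, finSuccEquivLast_last]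
  have h1 : e = Equiv.optionCongr (Equiv.removeNone e) := by
    have h2 := Equiv.Perm.decomposeOption.symm_apply_apply e
    simp only [Equiv.Perm.decomposeOption, Equiv.coe_fn_mk, Equiv.coe_fn_symm_mk, he,
      Equiv.swap_self] at h2
    conv_lhs => rw [← h2]
    rfl
  refine ⟨Equiv.removeNone e, ?_⟩
  unfold em6
  rw [← h1]
  ext j
  simp [e, Equiv.permCongr_apply]

theorem good_PQ {G : (Fin 7 → ℕ) → ZMod 3} (hG : Good G) :
    ∃ P Q : Fin 7 → Fin 7 → ZMod 3,
      (∀ c, ∑ a ∈ Finset.univ.erase c, P c a = 0) ∧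
      (∀ c, ∑ a ∈ Finset.univ.erase c, Q c a = 0) ∧
      ∀ σ : Equiv.Perm (Fin 7), G (fun j => (σ j : ℕ)) =
        P (σ 6) (σ 0) - P (σ 6) (σ 1) + sg σ * (Q (σ 6) (σ 0) + Q (σ 6) (σ 1) + Q (σ 6) (σ 2)) := by
  choose p q hp hq hpq using fun c : Fin 7 => pq_six hG (fun j : Fin 6 => (c.succAbove j : ℕ)) c
  refine ⟨fun c => Fin.insertNth c 0 (p c), fun c => Fin.insertNth c 0 (fun a => sg (cyc c) * q c a),
    fun c => ?_, fun c => ?_, fun τ => ?_⟩
  · rw [Finset.sum_erase _ (by simp), Fin.sum_univ_succAbove _ c]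
    simp [hp c]
  · rw [Finset.sum_erase _ (by simp), Fin.sum_univ_succAbove _ c]
    simp [← Finset.mul_sum, hq c]
  · have h6 : (6 : Fin 7) = Fin.last 6 := rfl
    have h0 : (0 : Fin 7) = Fin.castSucc 0 := rfl
    have h1 : (1 : Fin 7) = Fin.castSucc 1 := rfl
    have h2 : (2 : Fin 7) = Fin.castSucc 2 := rfl
    obtain ⟨c, hc⟩ : ∃ c, c = τ (Fin.last 6) := ⟨_, rfl⟩
    obtain ⟨ρ, hρ⟩ := exists_em6 ((cyc c)⁻¹ * τ) (by
      rw [Equiv.Perm.mul_apply, ← hc, Equiv.Perm.inv_eq_iff_eq, cyc_last])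
    have hτ : τ = cyc c * em6 ρ := by rw [← hρ, mul_inv_cancel_left]
    have hj : ∀ j : Fin 6, τ (Fin.castSucc j) = c.succAbove (ρ j) := by
      intro j
      rw [hτ, Equiv.Perm.mul_apply, em6_castSucc, cyc_castSucc]
    have hsg : sg τ = sg (cyc c) * sg ρ := by rw [hτ, sg_mul', sg_em6]
    have hfun : (fun j => (τ j : ℕ)) = sn (fun j : Fin 6 => (c.succAbove j : ℕ)) ρ c := by
      funext j
      unfold sn
      induction j using Fin.lastCases with
      | last => rw [Fin.snoc_last, ← hc]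
      | cast j => rw [Fin.snoc_castSucc, hj]
    rw [hfun, hpq c ρ, h6, h0, h1, h2, hj, hj, hj, ← hc, hsg]
    simp only [Fin.insertNth_apply_succAbove]
    have hss : sg (cyc c) * sg (cyc c) = 1 := by
      unfold sg
      rcases Int.units_eq_one_or (Equiv.Perm.sign (cyc c)) with h | h <;> simp [h]
    linear_combination (-(sg ρ * (q c (ρ 0) + q c (ρ 1) + q c (ρ 2)))) * hss

end Pool.Agent.H53R3
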