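import Mathlib
import Pool.Agent.H53R3.Nf

set_option autoImplicit false

/-!
Words of six letters in `RW` lie in the seventh term of the lower central series.
-/

namespace Pool.Agent.H53R3

open scoped commutatorElement
open Pool.Agent.Helper429 (L X keep kill rnm er asc adr evP Cg)
open Pool.Agent.Helper429 (comm_mem_L L_anti Cg_iff Cg_mul_left Cg_mul_right Cg_congr_left
  Cg_congr_right Cg_zpow_left Cg_comm er_mem er_mem' evP_cons evP_append evP_mem expand er_bl PP
  pneg pmul sgL)

/-! ### functionals on formal polynomials -/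

def six_S (f : List ℕ → ℤ) (E : List (ℤ × List ℕ)) : ℤ := (E.map (fun q => q.1 * f q.2)).sum

lemma six_S_nil (f : List ℕ → ℤ) : six_S f [] = 0 := rfl

lemma six_S_cons (f : List ℕ → ℤ) (q : ℤ × List ℕ) (E : List (ℤ × List ℕ)) :
    six_S f (q :: E) = q.1 * f q.2 + six_S f E := by simp [six_S]

lemma six_S_append (f : List ℕ → ℤ) (E E' : List (ℤ × List ℕ)) :
    six_S f (E ++ E') = six_S f E + six_S f E' := by simp [six_S]

lemma six_S_congr {f g : List ℕ → ℤ} {E : List (ℤ × List ℕ)} (h : ∀ q ∈ E, f q.2 = g q.2) :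
    six_S f E = six_S g E := by
  unfold six_S
  congr 1
  apply List.map_congr_left
  intro q hq
  rw [h q hq]

lemma six_S_zero {f : List ℕ → ℤ} {E : List (ℤ × List ℕ)} (h : ∀ q ∈ E, f q.2 = 0) :
    six_S f E = 0 := by
  induction E with
  | nil => rfl
  | cons q E ih =>
    rw [six_S_cons, h q List.mem_cons_self, ih (fun q hq => h q (List.mem_cons_of_mem _ hq))]
    ring

lemma six_S_mul (c : ℤ) {f : List ℕ → ℤ} {E : List (ℤ × List ℕ)} :
    six_S (fun l => c * f l) E = c * six_S f E := by
  induction E with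
  | nil => simp [six_S]
  | cons q E ih =>
    rw [six_S_cons, six_S_cons, ih]
    ring

lemma six_S_asc (f : List ℕ → ℤ) (z x : ℕ) (r : List ℕ) :
    six_S f (asc (z :: x :: r)) =
      six_S (fun l => f (l ++ [z])) (asc (x :: r)) - six_S (fun l => f (z :: l)) (asc (x :: r)) := by
  have h1 : ∀ E : List (ℤ × List ℕ), six_S f (pmul E [(1, [z])]) =
      six_S (fun l => f (l ++ [z])) E := by
    intro E
    induction E with
    | nil => rfl
    | cons q E ih =>
      have e : pmul (q :: E) [(1, [z])] = (q.1 * 1, q.2 ++ [z]) :: pmul E [(1, [z])] := by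
        simp [pmul]
      rw [e, six_S_cons, six_S_cons, ih, mul_one]
  have h2 : ∀ E : List (ℤ × List ℕ), six_S f (pneg (pmul [(1, [z])] E)) =
      - six_S (fun l => f (z :: l)) E := by
    intro E
    induction E with
    | nil => rfl
    | cons q E ih =>
      have e : pneg (pmul [(1, [z])] (q :: E)) = (-(1 * q.1), z :: q.2) :: pneg (pmul [(1, [z])] E) := by
        simp [pmul, pneg]
      rw [e, six_S_cons, six_S_cons, ih]
      ring
  have e : asc (z :: x :: r) = pmul (asc (x :: r)) [(1, [z])] ++ pneg (pmul [(1, [z])] (asc (x :: r))) := rfl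
  rw [e, six_S_append, h1, h2]
  ring

lemma six_asc_perm (r : List ℕ) : ∀ q ∈ asc r, q.2.Perm r := by
  induction r with
  | nil => intro q hq; simp [asc] at hq
  | cons z r ih =>
    cases r with
    | nil => intro q hq; simp [asc] at hq; subst hq; exact List.Perm.refl _
    | cons x r =>
      intro q hq
      simp only [asc, pmul, pneg, List.mem_append, List.mem_flatMap, List.mem_map,
        List.flatMap_cons, List.flatMap_nil, List.append_nil, List.mem_singleton] at hq
      rcases hq with ⟨p, hp, p', rfl, rfl⟩ | ⟨p, ⟨p', hp', rfl⟩, rfl⟩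
      · have h1 := ih p hp
        have h2 : (p.2 ++ [z]).Perm (z :: p.2) := by
          simpa using (List.perm_append_comm (l₁ := p.2) (l₂ := [z]))
        exact h2.trans (h1.cons z)
      · exact (ih p' hp').cons z

/-! ### the sign functional -/

lemma six_sgL_snoc (z : ℕ) (l : List ℕ) :
    sgL (l ++ [z]) = sgL l * (l.map (fun y => if y < z then (1 : ℤ) else -1)).prod := by
  induction l with
  | nil => simp [sgL]
  | cons x l ih =>
    rw [List.cons_append, sgL, ih, sgL, List.map_append, List.prod_append, List.map_cons,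
      List.map_nil, List.prod_cons, List.prod_nil, List.map_cons, List.prod_cons]
    ring

lemma six_P (z : ℕ) (l : List ℕ) (h : z ∉ l) :
    (l.map (fun y => if y < z then (1 : ℤ) else -1)).prod =
      (-1) ^ l.length * (l.map (fun y => if z < y then (1 : ℤ) else -1)).prod := by
  induction l with
  | nil => simp
  | cons x l ih =>
    rw [List.mem_cons, not_or] at h
    rw [List.map_cons, List.prod_cons, ih h.2, List.map_cons, List.prod_cons, List.length_cons]
    rcases lt_or_gt_of_ne h.1 with h1 | h1
    · have h2 : ¬ x < z := by omega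
      rw [if_neg h2, if_pos h1]
      ring
    · have h2 : ¬ z < x := by omega
      rw [if_pos h1, if_neg h2]
      ring

lemma six_sgn_step (z x : ℕ) (r : List ℕ) (h : z ∉ x :: r) :
    six_S sgL (asc (z :: x :: r)) =
      ((x :: r).map (fun y => if z < y then (1 : ℤ) else -1)).prod * ((-1) ^ (r.length + 1) - 1) *
        six_S sgL (asc (x :: r)) := by
  set P : ℤ := ((x :: r).map (fun y => if z < y then (1 : ℤ) else -1)).prod with hP
  rw [six_S_asc]
  have h1 : six_S (fun l => sgL (l ++ [z])) (asc (x :: r)) =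
      six_S (fun l => (P * (-1) ^ (r.length + 1)) * sgL l) (asc (x :: r)) := by
    apply six_S_congr
    intro q hq
    have hp := six_asc_perm _ q hq
    show sgL (q.2 ++ [z]) = _
    rw [six_sgL_snoc, six_P z q.2 (by rw [hp.mem_iff]; exact h), hp.length_eq,
      (hp.map _).prod_eq, List.length_cons, ← hP]
    ring
  have h2 : six_S (fun l => sgL (z :: l)) (asc (x :: r)) =
      six_S (fun l => P * sgL l) (asc (x :: r)) := by
    apply six_S_congr
    intro q hq
    have hp := six_asc_perm _ q hq
    show sgL (z :: q.2) = _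
    rw [sgL, (hp.map _).prod_eq, ← hP]
  rw [h1, h2, six_S_mul, six_S_mul]
  ring

lemma six_sgn_zero (r : List ℕ) (hr : r.Nodup) (h : 3 ≤ r.length) : six_S sgL (asc r) = 0 := by
  induction r with
  | nil => simp at h
  | cons z r ih =>
    rw [List.nodup_cons] at hr
    cases r with
    | nil => simp at h
    | cons x r =>
      rw [six_sgn_step z x r hr.1]
      by_cases h3 : 3 ≤ (x :: r).length
      · rw [ih hr.2 h3, mul_zero]
      · have : r.length + 1 = 2 := by
          simp only [List.length_cons] at h h3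
          omega
        rw [this]
        ring

/-! ### the coefficient of the based words -/

lemma six_based (l : List ℕ) (hl : 0 ∉ l) (w' : List ℕ) :
    six_S (fun u => if u = 0 :: w' then 1 else 0) (asc (l ++ [0])) =
      if 0 :: w' = (l ++ [0]).reverse then 1 else 0 := by
  induction l generalizing w' with
  | nil =>
    simp only [List.nil_append, asc, six_S, List.map_cons, List.map_nil, List.sum_cons,
      List.sum_nil, List.reverse_cons, List.reverse_nil]
    by_cases h : [0] = 0 :: w'
    · rw [if_pos h, if_pos h.symm]; rfl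
    · rw [if_neg h, if_neg (fun h' => h h'.symm)]; rfl
  | cons z l ih =>
    rw [List.mem_cons, not_or] at hl
    obtain ⟨x, r, hx⟩ := List.exists_cons_of_ne_nil (l := l ++ [0]) (by simp)
    rw [List.cons_append, hx, six_S_asc, ← hx]
    have h2 : six_S (fun u => if z :: u = 0 :: w' then (1 : ℤ) else 0) (asc (l ++ [0])) = 0 := by
      apply six_S_zero
      intro q _
      rw [if_neg]
      intro h
      rw [List.cons.injEq] at h
      exact hl.1 h.1.symm
    rw [h2, sub_zero]
    rcases List.eq_nil_or_concat w' with rfl | ⟨w'', z', rfl⟩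
    · rw [if_neg (by
        intro h
        have := congrArg List.length h
        simp at this)]
      apply six_S_zero
      intro q _
      rw [if_neg]
      intro h
      have h3 : q.2 ++ [z] = [] ++ [0] := h
      have h4 := List.append_inj' h3 rfl
      simp only [List.cons.injEq] at h4
      exact hl.1 h4.2.1.symm
    · rw [List.concat_eq_append]
      by_cases hz : z = z'
      · subst hz
        have e1 : six_S (fun u => if u ++ [z] = 0 :: (w'' ++ [z]) then (1 : ℤ) else 0) (asc (l ++ [0])) =
            six_S (fun u => if u = 0 :: w'' then (1 : ℤ) else 0) (asc (l ++ [0])) := by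
          apply six_S_congr
          intro q _
          have : (q.2 ++ [z] = 0 :: (w'' ++ [z])) ↔ (q.2 = 0 :: w'') := by
            rw [← List.cons_append]
            exact List.append_left_inj [z]
          simp only [this]
        rw [e1, ih hl.2]
        have : (0 :: (w'' ++ [z]) = (z :: (l ++ [0])).reverse) ↔ (0 :: w'' = (l ++ [0]).reverse) := by
          rw [List.reverse_cons, ← List.cons_append]
          exact List.append_left_inj [z]
        simp only [this]
      · rw [if_neg (by
          intro h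
          rw [List.reverse_cons, ← List.cons_append] at h
          have h4 := List.append_inj' h rfl
          simp only [List.cons.injEq] at h4
          exact hz h4.2.1.symm)]
        apply six_S_zero
        intro q _
        rw [if_neg]
        intro h
        rw [← List.cons_append] at h
        have h4 := List.append_inj' h rfl
        simp only [List.cons.injEq] at h4
        exact hz h4.2.1

/-! ### coefficients indexed by permutations -/

def wl (π : Equiv.Perm (Fin 6)) : List ℕ := List.ofFn (fun j : Fin 6 => (π j : ℕ))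

lemma wl_inj {π σ : Equiv.Perm (Fin 6)} (h : wl π = wl σ) : π = σ := by
  unfold wl at h
  have h1 := List.ofFn_injective h
  apply Equiv.ext
  intro j
  exact Fin.ext (congrFun h1 j)

lemma rl_eq_wl (π : Equiv.Perm (Fin 6)) : rl 6 π = (wl π).reverse := rfl

def six_ind (π : Equiv.Perm (Fin 6)) (u : List ℕ) : ℤ := if u = wl π then 1 else 0

lemma six_perm_sum (f : List ℕ → ℤ) {E : List (ℤ × List ℕ)}
    (hE : ∀ q ∈ E, ∃ π : Equiv.Perm (Fin 6), q.2 = wl π) :
    six_S f E = ∑ π : Equiv.Perm (Fin 6), six_S (six_ind π) E * f (wl π) := by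
  induction E with
  | nil => simp [six_S]
  | cons q E ih =>
    rw [six_S_cons, ih (fun q hq => hE q (List.mem_cons_of_mem _ hq))]
    simp only [six_S_cons, add_mul, Finset.sum_add_distrib]
    congr 1
    obtain ⟨π, hπ⟩ := hE q List.mem_cons_self
    rw [Finset.sum_eq_single π]
    · simp [six_ind, hπ]
    · intro σ _ hσ
      have : six_ind σ q.2 = 0 := by
        unfold six_ind
        rw [if_neg]
        rw [hπ]
        intro h
        exact hσ (wl_inj h).symm
      rw [this]
      ring
    · simp

lemma six_asc_rl (σ : Equiv.Perm (Fin 6)) :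
    ∀ q ∈ asc (rl 6 σ), ∃ π : Equiv.Perm (Fin 6), q.2 = wl π := by
  intro q hq
  have h1 := six_asc_perm _ q hq
  have hnd : (wl σ).Nodup := by
    unfold wl
    rw [List.nodup_ofFn]
    intro a b hab
    exact σ.injective (Fin.ext hab)
  have h2 : q.2.Perm (wl σ) := h1.trans (by rw [rl_eq_wl]; exact List.reverse_perm _)
  exact nf_exists_perm (by rw [h2.length_eq]; simp [wl]) (h2.nodup_iff.2 hnd) (by
    intro x hx
    rw [h2.mem_iff] at hx
    unfold wl at hx
    rw [List.mem_ofFn] at hx
    obtain ⟨j, rfl⟩ := hx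
    exact (σ j).2)

/-- the coefficient of a word in the leading form -/
def six_K (D : LP 6) (π : Equiv.Perm (Fin 6)) : ℤ :=
  (D.map (fun q => q.1 * six_S (six_ind π) (asc (rl 6 q.2)))).sum

lemma six_K_sum (f : List ℕ → ℤ) (D : LP 6) :
    (D.map (fun q => q.1 * six_S f (asc (rl 6 q.2)))).sum =
      ∑ π : Equiv.Perm (Fin 6), six_K D π * f (wl π) := by
  induction D with
  | nil => simp [six_K]
  | cons q D ih =>
    have e : ∀ π, six_K (q :: D) π = q.1 * six_S (six_ind π) (asc (rl 6 q.2)) + six_K D π := by
      intro π; simp [six_K]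
    rw [List.map_cons, List.sum_cons, ih]
    simp only [e, add_mul, Finset.sum_add_distrib]
    congr 1
    rw [six_perm_sum f (six_asc_rl q.2), Finset.mul_sum]
    apply Finset.sum_congr rfl
    intro π _
    ring

/-! ### the leading form -/

lemma six_Rep_er (r : List ℕ) (hr : r ≠ []) : Rep r.length (er FreeGroup.of r) (asc r) := by
  induction r with
  | nil => exact absurd rfl hr
  | cons z r ih =>
    cases r with
    | nil => exact Rep.gen z
    | cons x r =>
      have h1 := ih (by simp)
      exact Rep.comm h1 (Rep.gen z)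

lemma six_lam_er (σ : Equiv.Perm (Fin 6)) (s : ℕ → ℕ → ℤ) :
    lam 6 (er FreeGroup.of (rl 6 σ)) s = six_S (mon s 0) (asc (rl 6 σ)) := by
  have h1 := six_Rep_er (rl 6 σ) (by
    intro h
    have := congrArg List.length h
    rw [nf_len_rl] at this
    simp at this)
  rw [nf_len_rl] at h1
  rw [lam_rep h1 (by omega)]
  rfl

lemma six_lam_zpow {a : F} (ha : a ∈ L F 5) (s : ℕ → ℕ → ℤ) (k : ℤ) :
    lam 6 (a ^ k) s = k * lam 6 a s := by
  induction k using Int.induction_on with
  | zero => rw [zpow_zero, lam_one]; ring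
  | succ i ih =>
    rw [zpow_add_one, lam_mul (by omega) (Subgroup.zpow_mem _ ha _) ha, ih]
    ring
  | pred i ih =>
    rw [zpow_sub_one, lam_mul (by omega) (Subgroup.zpow_mem _ ha _) (Subgroup.inv_mem _ ha), ih,
      lam_inv (by omega) ha]
    ring

lemma six_lam_wd (D : LP 6) (s : ℕ → ℕ → ℤ) :
    lam 6 (wd 6 FreeGroup.of D) s = ∑ π : Equiv.Perm (Fin 6), six_K D π * mon s 0 (wl π) := by
  rw [← six_K_sum]
  induction D with
  | nil =>
    have : wd 6 (FreeGroup.of : ℕ → F) [] = 1 := rfl
    rw [this, lam_one]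
    simp
  | cons q D ih =>
    have e : wd 6 (FreeGroup.of : ℕ → F) (q :: D) =
        er FreeGroup.of (rl 6 q.2) ^ q.1 * wd 6 FreeGroup.of D := by simp [wd]
    have m1 : er (FreeGroup.of : ℕ → F) (rl 6 q.2) ∈ L F 5 := er_mem' _ (by rw [nf_len_rl])
    rw [e, lam_mul (by omega) (Subgroup.zpow_mem _ m1 _) (wd_mem_L (by omega) _ D), ih,
      six_lam_zpow m1, six_lam_er, List.map_cons, List.sum_cons]

lemma six_mon_wl (s : ℕ → ℕ → ℤ) (π : Equiv.Perm (Fin 6)) :
    mon s 0 (wl π) = ∏ p : Fin 6, s (π p) p := by
  unfold wl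
  simp only [List.ofFn_succ, List.ofFn_zero, mon, Fin.prod_univ_six]
  have e1 : (Fin.succ 0 : Fin 6) = 1 := rfl
  have e2 : (Fin.succ (Fin.succ 0) : Fin 6) = 2 := rfl
  have e3 : (Fin.succ (Fin.succ (Fin.succ 0)) : Fin 6) = 3 := rfl
  have e4 : (Fin.succ (Fin.succ (Fin.succ (Fin.succ 0))) : Fin 6) = 4 := rfl
  have e5 : (Fin.succ (Fin.succ (Fin.succ (Fin.succ (Fin.succ 0)))) : Fin 6) = 5 := rfl
  simp only [e1, e2, e3, e4, e5, mul_one]
  have n0 : ((0 : Fin 6) : ℕ) = 0 := rfl
  have n1 : ((1 : Fin 6) : ℕ) = 0 + 1 := rfl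
  have n2 : ((2 : Fin 6) : ℕ) = 0 + 1 + 1 := rfl
  have n3 : ((3 : Fin 6) : ℕ) = 0 + 1 + 1 + 1 := rfl
  have n4 : ((4 : Fin 6) : ℕ) = 0 + 1 + 1 + 1 + 1 := rfl
  have n5 : ((5 : Fin 6) : ℕ) = 0 + 1 + 1 + 1 + 1 + 1 := rfl
  rw [← n5, ← n4, ← n3, ← n2, ← n1]
  simp only [Fin.val_zero, mul_assoc]

/-- identification of two letters -/
lemma six_ident {r : F} (hr : r ∈ RW) (hr5 : r ∈ L F 5) {D : LP 6}
    (hD : Cg 6 r (wd 6 FreeGroup.of D)) {i j : Fin 6} (hij : i ≠ j) (s : ℕ → ℕ → ℤ)
    (hs : s i = s j) : ∑ π : Equiv.Perm (Fin 6), six_K D π * mon s 0 (wl π) = 0 := by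
  -- the two homomorphisms
  let e : ℕ → Fin 5 := fun x => if x = (j : ℕ) then
      (if (i : ℕ) < j then ⟨(i : ℕ) % 5, Nat.mod_lt _ (by norm_num)⟩
        else ⟨((i : ℕ) - 1) % 5, Nat.mod_lt _ (by norm_num)⟩)
    else (if x < (j : ℕ) then ⟨x % 5, Nat.mod_lt _ (by norm_num)⟩
        else ⟨(x - 1) % 5, Nat.mod_lt _ (by norm_num)⟩)
  let φ : F →* FreeGroup (Fin 5) := FreeGroup.lift (fun x => FreeGroup.of (e x))
  let ψ : FreeGroup (Fin 5) →* F :=
    FreeGroup.lift (fun a => FreeGroup.of (if (a : ℕ) < (j : ℕ) then (a : ℕ) else (a : ℕ) + 1))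
  have hθ : ∀ x : Fin 6, (ψ.comp φ) (FreeGroup.of (x : ℕ)) =
      FreeGroup.of (if x = j then (i : ℕ) else (x : ℕ)) := by
    intro x
    simp only [MonoidHom.comp_apply, φ, ψ, FreeGroup.lift_apply_of]
    congr 1
    have hx := x.2
    have hi := i.2
    have hj := j.2
    have hij' : (i : ℕ) ≠ (j : ℕ) := fun h => hij (Fin.ext h)
    by_cases hxj : x = j
    · subst hxj
      simp only [e, if_true]
      by_cases h : (i : ℕ) < (x : ℕ)
      · have : (i : ℕ) % 5 = i := Nat.mod_eq_of_lt (by omega)
        simp [h, this]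
      · have h1 : ((i : ℕ) - 1) % 5 = (i : ℕ) - 1 := Nat.mod_eq_of_lt (by omega)
        have h2 : ¬ ((i : ℕ) - 1 < (x : ℕ)) := by omega
        simp [h, h1, h2]
        omega
    · have hxj' : (x : ℕ) ≠ (j : ℕ) := fun h => hxj (Fin.ext h)
      simp only [e, if_neg hxj', if_neg hxj]
      by_cases h : (x : ℕ) < (j : ℕ)
      · have : (x : ℕ) % 5 = x := Nat.mod_eq_of_lt (by omega)
        simp [h, this]
      · have h1 : ((x : ℕ) - 1) % 5 = (x : ℕ) - 1 := Nat.mod_eq_of_lt (by omega)
        have h2 : ¬ ((x : ℕ) - 1 < (j : ℕ)) := by omega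
        simp [h, h1, h2]
        omega
  have h1 : lam 6 ((ψ.comp φ) r) s = 0 := lam_eq_zero (SC_le_L6 (hr φ ψ)) s
  have h2 := lam_map (by omega) hr5 (ψ.comp φ) s id
  simp only [id] at h2
  rw [h1] at h2
  have h3 : r = wd 6 FreeGroup.of D * ((wd 6 FreeGroup.of D)⁻¹ * r) := by group
  have h4 : (wd 6 (FreeGroup.of : ℕ → F) D)⁻¹ * r ∈ L F 6 := Cg_iff.1 hD.symm
  rw [h3, lam_mul (by omega) (wd_mem_L (by omega) _ D) (L_anti (by omega) h4), lam_eq_zero h4,
    add_zero, six_lam_wd] at h2
  rw [h2]
  apply Finset.sum_congr rfl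
  intro π _
  congr 1
  rw [six_mon_wl, six_mon_wl]
  apply Finset.prod_congr rfl
  intro p _
  rw [hθ, vv_of]
  by_cases h : π p = j
  · rw [if_pos h, h, hs]
  · rw [if_neg h]

/-- alternation -/
lemma six_alt {r : F} (hr : r ∈ RW) (hr5 : r ∈ L F 5) {D : LP 6}
    (hD : Cg 6 r (wd 6 FreeGroup.of D)) {i j : Fin 6} (hij : i ≠ j) (π0 : Equiv.Perm (Fin 6)) :
    six_K D (Equiv.swap i j * π0) = - six_K D π0 := by
  let s : ℕ → ℕ → ℤ := fun x p => if hp : p < 6 then
    (if x = (i : ℕ) ∨ x = (j : ℕ) then (if π0 ⟨p, hp⟩ = i ∨ π0 ⟨p, hp⟩ = j then 1 else 0)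
      else (if x = (π0 ⟨p, hp⟩ : ℕ) then 1 else 0)) else 0
  have hs : s i = s j := by
    funext p
    simp [s]
  have hsv : ∀ (x p : Fin 6), s x p = if x = i ∨ x = j then (if π0 p = i ∨ π0 p = j then 1 else 0)
      else (if x = π0 p then 1 else 0) := by
    intro x p
    simp only [s, p.2, dif_pos, Fin.eta, Fin.ext_iff]
  have h := six_ident hr hr5 hD hij s hs
  have hne : π0 ≠ Equiv.swap i j * π0 := by
    intro h
    have h1 : Equiv.swap i j = 1 := by
      have := congrArg (fun t => t * π0⁻¹) h
      simp only [mul_inv_cancel, mul_assoc, mul_one] at this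
      exact this.symm
    rw [Equiv.swap_eq_one_iff] at h1
    exact hij h1
  have hval : ∀ π : Equiv.Perm (Fin 6), mon s 0 (wl π) =
      if π = π0 ∨ π = Equiv.swap i j * π0 then 1 else 0 := by
    intro π
    rw [six_mon_wl]
    by_cases hπ : π = π0 ∨ π = Equiv.swap i j * π0
    · rw [if_pos hπ]
      apply Finset.prod_eq_one
      intro p _
      rw [hsv]
      rcases hπ with rfl | rfl
      · by_cases h1 : π p = i ∨ π p = j
        · rw [if_pos h1, if_pos h1]
        · rw [if_neg h1, if_pos rfl]
      · rw [Equiv.Perm.mul_apply]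
        by_cases h1 : π0 p = i
        · rw [h1, Equiv.swap_apply_left]; simp
        · by_cases h2 : π0 p = j
          · rw [h2, Equiv.swap_apply_right]; simp
          · rw [Equiv.swap_apply_of_ne_of_ne h1 h2]
            simp [h1, h2]
    · rw [if_neg hπ]
      by_contra hprod
      apply hπ
      have hp : ∀ p : Fin 6, s (π p) p ≠ 0 := by
        intro p
        exact Finset.prod_ne_zero_iff.1 hprod p (Finset.mem_univ p)
      -- consequences
      have c1 : ∀ p, (π p = i ∨ π p = j) → (π0 p = i ∨ π0 p = j) := by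
        intro p h1
        have h2 := hp p
        rw [hsv, if_pos h1] at h2
        by_contra h3
        rw [if_neg h3] at h2
        exact h2 rfl
      have c2 : ∀ p, ¬ (π p = i ∨ π p = j) → π p = π0 p := by
        intro p h1
        have h2 := hp p
        rw [hsv, if_neg h1] at h2
        by_contra h3
        rw [if_neg h3] at h2
        exact h2 rfl
      set τ : Equiv.Perm (Fin 6) := π * π0⁻¹ with hτ
      have t1 : ∀ y, (τ y = i ∨ τ y = j) → (y = i ∨ y = j) := by
        intro y hy
        have := c1 (π0⁻¹ y) hy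
        simpa using this
      have t2 : ∀ y, ¬ (τ y = i ∨ τ y = j) → τ y = y := by
        intro y hy
        have := c2 (π0⁻¹ y) hy
        simpa [hτ] using this
      have t3 : ∀ y, ¬ (y = i ∨ y = j) → τ y = y := fun y hy => t2 y (fun h => hy (t1 y h))
      have t4 : ∀ y, (y = i ∨ y = j) → (τ y = i ∨ τ y = j) := by
        intro y hy
        by_contra h1
        have h2 := t2 y h1
        rw [h2] at h1
        exact h1 hy
      have hππ : π = τ * π0 := by rw [hτ]; simp
      rcases t4 i (Or.inl rfl) with hi | hi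
      · left
        have hj : τ j = j := by
          rcases t4 j (Or.inr rfl) with h1 | h1
          · exact absurd (τ.injective (hi.trans h1.symm)) hij
          · exact h1
        have : τ = 1 := by
          apply Equiv.ext
          intro y
          by_cases h1 : y = i
          · rw [h1, hi]; rfl
          · by_cases h2 : y = j
            · rw [h2, hj]; rfl
            · rw [t3 y (by tauto)]; rfl
        rw [hππ, this, one_mul]
      · right
        have hj : τ j = i := by
          rcases t4 j (Or.inr rfl) with h1 | h1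
          · exact h1
          · exact absurd (τ.injective (hi.trans h1.symm)) hij
        have : τ = Equiv.swap i j := by
          apply Equiv.ext
          intro y
          by_cases h1 : y = i
          · rw [h1, hi, Equiv.swap_apply_left]
          · by_cases h2 : y = j
            · rw [h2, hj, Equiv.swap_apply_right]
            · rw [t3 y (by tauto), Equiv.swap_apply_of_ne_of_ne h1 h2]
        rw [hππ, this]
  simp only [hval] at h
  rw [Finset.sum_eq_add π0 (Equiv.swap i j * π0) hne] at h
  · simp only [true_or, or_true, if_true, mul_one] at h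
    linarith
  · intro c _ hc
    rw [if_neg (by tauto), mul_zero]
  · simp
  · simp

lemma six_K_zero {r : F} (hr : r ∈ RW) (hr5 : r ∈ L F 5) {D : LP 6}
    (hD : Cg 6 r (wd 6 FreeGroup.of D)) (π : Equiv.Perm (Fin 6)) : six_K D π = 0 := by
  have h1 : ∀ π : Equiv.Perm (Fin 6), six_K D π = (Equiv.Perm.sign π : ℤ) * six_K D 1 := by
    intro π
    induction π using Equiv.Perm.swap_induction_on with
    | one => simp
    | swap_mul f x y hxy ih =>
      rw [six_alt hr hr5 hD hxy, ih, Equiv.Perm.sign_mul, Equiv.Perm.sign_swap hxy]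
      push_cast
      ring
  have h2 := six_K_sum sgL D
  have h3 : (D.map (fun q => q.1 * six_S sgL (asc (rl 6 q.2)))).sum = 0 := by
    apply List.sum_eq_zero
    intro x hx
    rw [List.mem_map] at hx
    obtain ⟨q, _, rfl⟩ := hx
    rw [six_sgn_zero _ _ (by rw [nf_len_rl]; omega), mul_zero]
    rw [rl_eq_wl, List.nodup_reverse]
    unfold wl
    rw [List.nodup_ofFn]
    intro a b hab
    exact q.2.injective (Fin.ext hab)
  rw [h3] at h2
  have h4 : ∀ π : Equiv.Perm (Fin 6), six_K D π * sgL (wl π) = six_K D 1 := by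
    intro π
    have : sgL (wl π) = (Equiv.Perm.sign π : ℤ) := Pool.Agent.Helper429.sgL_ofFn π
    rw [this, h1 π]
    have h5 : ((Equiv.Perm.sign π : ℤ)) * ((Equiv.Perm.sign π : ℤ)) = 1 := by
      rw [← Units.val_mul, Int.units_mul_self]; rfl
    linear_combination (six_K D 1) * h5
  rw [Finset.sum_congr rfl (fun π _ => h4 π), Finset.sum_const, Finset.card_univ,
    Fintype.card_perm, Fintype.card_fin] at h2
  have h5 : six_K D 1 = 0 := by
    have : (Nat.factorial 6 : ℤ) * six_K D 1 = 0 := by
      rw [h2, nsmul_eq_mul]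
    rcases mul_eq_zero.1 this with h | h
    · have : Nat.factorial 6 ≠ 0 := Nat.factorial_ne_zero 6
      exact absurd (by exact_mod_cast h) this
    · exact h
  rw [h1 π, h5, mul_zero]

/-! ### based normal forms -/

/-- normal form with all words starting with the letter `0` -/
def nfb (T : Finset ℕ) (g : F) : Prop :=
  ∃ D : List (ℤ × List ℕ), Cg T.card g (evP FreeGroup.of D) ∧
    ∀ q ∈ D, (q.2.Nodup ∧ q.2.toFinset = T) ∧ ∃ l, q.2 = l ++ [0]

lemma nfb_one {T : Finset ℕ} : nfb T 1 := ⟨[], Cg.refl _ _, by simp⟩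

lemma nfb_congr {T : Finset ℕ} {g g' : F} (h : Cg T.card g g') (h' : nfb T g') : nfb T g := by
  obtain ⟨D, h1, h2⟩ := h'
  exact ⟨D, h.trans h1, h2⟩

lemma nfb_mul {T : Finset ℕ} {a b : F} (ha : nfb T a) (hb : nfb T b) : nfb T (a * b) := by
  obtain ⟨D, h1, h2⟩ := ha
  obtain ⟨E, h3, h4⟩ := hb
  refine ⟨D ++ E, ?_, ?_⟩
  · rw [evP_append]; exact h1.mul h3
  · intro q hq
    rcases List.mem_append.1 hq with h | h
    · exact h2 q h
    · exact h4 q h

lemma nfb_zpow {T : Finset ℕ} {a : F} (ha : nfb T a) (c : ℤ) : nfb T (a ^ c) := by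
  obtain ⟨D, h1, h2⟩ := ha
  refine ⟨D.map (fun q => (c * q.1, q.2)),
    (h1.zpow c).trans (nf_scale c (nf_len (fun q hq => (h2 q hq).1))), ?_⟩
  intro q hq
  rw [List.mem_map] at hq
  obtain ⟨p, hp, rfl⟩ := hq
  exact h2 p hp

lemma six_evP_cons (z : ℕ) {i n : ℕ} {D : List (ℤ × List ℕ)} (hD : ∀ q ∈ D, q.2.length = i + 1)
    (h : n ≤ i + 2) :
    Cg n ⁅evP (FreeGroup.of : ℕ → F) D, FreeGroup.of z⁆
      (evP FreeGroup.of (D.map (fun q => (q.1, z :: q.2)))) := by
  induction D with
  | nil => simp only [evP, List.map_nil, List.prod_nil, commutatorElement_one_left]; exact Cg.refl _ _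
  | cons q D ih =>
    have ih' := ih (fun q hq => hD q (List.mem_cons_of_mem _ hq))
    have hq := hD q List.mem_cons_self
    have h1 : er (FreeGroup.of : ℕ → F) q.2 ∈ L F i := er_mem' _ hq
    have h2 : evP (FreeGroup.of : ℕ → F) D ∈ L F i :=
      evP_mem _ (fun q hq => hD q (List.mem_cons_of_mem _ hq))
    rw [evP_cons, List.map_cons, evP_cons]
    refine (Cg_mul_left (j := 0) h2 (Subgroup.zpow_mem _ h1 _) (Subgroup.mem_top _)
      (by omega)).trans ?_
    refine ((Cg_zpow_left (j := 0) h1 (Subgroup.mem_top _) (by omega) _).mul ih').trans ?_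
    obtain ⟨x, r, hx⟩ := List.exists_cons_of_ne_nil (l := q.2) (by
      intro h0; rw [h0] at hq; simp at hq)
    have e : er (FreeGroup.of : ℕ → F) (z :: q.2) = ⁅er FreeGroup.of q.2, FreeGroup.of z⁆ := by
      rw [hx]; rfl
    show Cg n _ (er FreeGroup.of (z :: q.2) ^ q.1 * _)
    rw [e]
    exact Cg.refl _ _

lemma nfb_er (r : List ℕ) (hr : r.Nodup) (h0 : 0 ∈ r) :
    nfb r.toFinset (er (FreeGroup.of : ℕ → F) r) := by
  induction r with
  | nil => simp at h0
  | cons z r ih =>
    cases r with
    | nil =>
      simp only [List.mem_singleton] at h0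
      subst h0
      refine ⟨[(1, [0])], ?_, ?_⟩
      · simp only [evP, List.map_cons, List.map_nil, List.prod_cons, List.prod_nil, er, zpow_one,
          mul_one]
        exact Cg.refl _ _
      · intro q hq
        simp only [List.mem_singleton] at hq
        subst hq
        exact ⟨⟨by simp, rfl⟩, [], rfl⟩
    | cons x r =>
      have hcard : (z :: x :: r).toFinset.card = r.length + 2 := by
        rw [List.toFinset_card_of_nodup hr]; rfl
      have hnd := hr
      rw [List.nodup_cons] at hr
      have hm := er_mem (FreeGroup.of : ℕ → F) x r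
      have e : er (FreeGroup.of : ℕ → F) (z :: x :: r) = ⁅er FreeGroup.of (x :: r), FreeGroup.of z⁆ := rfl
      by_cases hz : z = 0
      · subst hz
        have e2 : er (FreeGroup.of : ℕ → F) (0 :: x :: r) =
            ⁅(FreeGroup.of 0 : F), er FreeGroup.of (x :: r)⁆ ^ (-1 : ℤ) := by
          rw [e, zpow_neg_one, commutatorElement_inv]
        rw [e2]
        apply nfb_zpow
        have h2 := expand (FreeGroup.of : ℕ → F) x r (a := 0) (Z := FreeGroup.of 0)
          (Subgroup.mem_top _) (n := (0 :: x :: r).toFinset.card) (by omega)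
        refine ⟨(adr (x :: r)).map (fun q => (q.1, q.2.reverse ++ [0])), ?_, ?_⟩
        · refine h2.trans ?_
          have h3 : PP (FreeGroup.of : ℕ → F) (FreeGroup.of 0) (adr (x :: r)) =
              evP FreeGroup.of ((adr (x :: r)).map (fun q => (q.1, q.2.reverse ++ [0]))) := by
            unfold PP evP
            rw [List.map_map]
            congr 1
            apply List.map_congr_left
            intro q hq
            simp only [Function.comp]
            rw [← er_bl]
            rfl
          rw [h3]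
          exact Cg.refl _ _
        · intro q hq
          rw [List.mem_map] at hq
          obtain ⟨p, hp, rfl⟩ := hq
          have h4 := nf_adr_perm _ p hp
          have h5 : (p.2.reverse ++ [0]).Perm (0 :: x :: r) := by
            have h6 : (p.2.reverse ++ [0]).Perm ((x :: r) ++ [0]) :=
              List.Perm.append ((List.reverse_perm _).trans h4) (List.Perm.refl _)
            exact h6.trans (by simpa using (List.perm_append_comm (l₁ := x :: r) (l₂ := [0])))
          refine ⟨⟨?_, ?_⟩, ?_⟩
          · show (p.2.reverse ++ [0]).Nodup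
            rw [h5.nodup_iff]; exact hnd
          · show (p.2.reverse ++ [0]).toFinset = _
            exact List.toFinset_eq_of_perm _ _ h5
          · exact ⟨_, rfl⟩
      · have h0' : 0 ∈ x :: r := by
          rcases List.mem_cons.1 h0 with h | h
          · exact absurd h.symm hz
          · exact h
        obtain ⟨D, hD, hD'⟩ := ih hr.2 h0'
        have hc : (x :: r).toFinset.card = r.length + 1 := by
          rw [List.toFinset_card_of_nodup hr.2]; rfl
        rw [hc] at hD
        have hlen : ∀ q ∈ D, q.2.length = r.length + 1 := by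
          intro q hq
          rw [← hc, ← (hD' q hq).1.2, List.toFinset_card_of_nodup (hD' q hq).1.1]
        rw [e]
        refine ⟨D.map (fun q => (q.1, z :: q.2)), ?_, ?_⟩
        · refine (Cg_congr_left (j := 0) (n := (z :: x :: r).toFinset.card) hm hD
            (Subgroup.mem_top _) (by omega)).trans ?_
          exact six_evP_cons z hlen (by omega)
        · intro q hq
          rw [List.mem_map] at hq
          obtain ⟨p, hp, rfl⟩ := hq
          obtain ⟨⟨h1, h2⟩, l, h3⟩ := hD' p hp
          refine ⟨⟨?_, ?_⟩, z :: l, ?_⟩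
          · show (z :: p.2).Nodup
            rw [List.nodup_cons]
            refine ⟨?_, h1⟩
            rw [← List.mem_toFinset, h2, List.mem_toFinset]
            exact hr.1
          · show (z :: p.2).toFinset = _
            rw [List.toFinset_cons, h2, List.toFinset_cons (a := z) (l := x :: r)]
          · show z :: p.2 = _
            rw [h3]; rfl

lemma six_wl_zero (π : Equiv.Perm (Fin 6)) :
    wl π = ((π 0 : Fin 6) : ℕ) :: (List.ofFn (fun j : Fin 5 => ((π j.succ : Fin 6) : ℕ))) := by
  unfold wl
  rw [List.ofFn_succ]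

lemma six_based_nf {r : F} (hX : X (Finset.range 6) r) :
    ∃ D : LP 6, Cg 6 r (wd 6 FreeGroup.of D) ∧ ∀ q ∈ D, q.2 0 = 0 := by
  obtain ⟨D, hD⟩ := X_nf (by norm_num) hX
  have h1 : nfb (Finset.range 6) (wd 6 FreeGroup.of D) := by
    clear hD
    induction D with
    | nil => exact nfb_one
    | cons q D ih =>
      have e : wd 6 (FreeGroup.of : ℕ → F) (q :: D) =
        er FreeGroup.of (rl 6 q.2) ^ q.1 * wd 6 FreeGroup.of D := by simp [wd]
      rw [e]
      refine nfb_mul (nfb_zpow ?_ _) ih
      have hnd : (rl 6 q.2).Nodup := by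
        rw [rl_eq_wl, List.nodup_reverse]
        unfold wl
        rw [List.nodup_ofFn]
        intro a b hab
        exact q.2.injective (Fin.ext hab)
      have hT : (rl 6 q.2).toFinset = Finset.range 6 := by
        ext x
        rw [List.mem_toFinset, rl_eq_wl, List.mem_reverse, Finset.mem_range]
        unfold wl
        rw [List.mem_ofFn]
        constructor
        · rintro ⟨j, rfl⟩
          exact (q.2 j).2
        · intro hx
          exact ⟨q.2.symm ⟨x, hx⟩, by simp⟩
      rw [← hT]
      apply nfb_er _ hnd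
      rw [← List.mem_toFinset, hT]
      simp
  have h2 : nfb (Finset.range 6) r := nfb_congr (by rw [Finset.card_range]; exact hD) h1
  obtain ⟨E, hE, hE'⟩ := h2
  rw [Finset.card_range] at hE
  choose! f hf using fun (l : List ℕ) (h : l.Nodup ∧ l.toFinset = Finset.range 6) =>
    nf_exists_rl h.1 h.2
  refine ⟨E.map (fun q => (q.1, f q.2)), ?_, ?_⟩
  · have e : wd 6 (FreeGroup.of : ℕ → F) (E.map (fun q => (q.1, f q.2))) = evP FreeGroup.of E := by
      unfold wd evP
      rw [List.map_map]
      congr 1
      apply List.map_congr_left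
      intro q hq
      simp only [Function.comp]
      rw [← hf q.2 (hE' q hq).1]
    rw [e]
    exact hE
  · intro q hq
    rw [List.mem_map] at hq
    obtain ⟨p, hp, rfl⟩ := hq
    obtain ⟨h1, l, h3⟩ := hE' p hp
    have h4 := hf p.2 h1
    rw [rl_eq_wl] at h4
    have h5 : (l ++ [0]).reverse = wl (f p.2) := by rw [← h3, h4, List.reverse_reverse, ← h4]
    rw [six_wl_zero, List.reverse_append, List.reverse_singleton, List.singleton_append,
      List.cons.injEq] at h5
    exact Fin.ext h5.1.symm

lemma six_comm_prod {A α : Type*} [CommGroup A] [Fintype α] [DecidableEq α] (e : α → A)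
    (D : List (ℤ × α)) : (D.map (fun q => e q.2 ^ q.1)).prod =
      ∏ π : α, e π ^ (D.map (fun q => if q.2 = π then q.1 else 0)).sum := by
  induction D with
  | nil => simp
  | cons q D ih =>
    rw [List.map_cons, List.prod_cons, ih]
    simp only [List.map_cons, List.sum_cons, zpow_add, Finset.prod_mul_distrib]
    congr 1
    rw [Finset.prod_eq_single q.2]
    · simp
    · intro π _ hπ
      rw [if_neg (Ne.symm hπ), zpow_zero]
    · simp

lemma six_comm_prod' {A α : Type*} [CommGroup A] [Fintype α] [DecidableEq α] (e : α → A)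
    (D : List (ℤ × α)) (h : ∀ π, (D.map (fun q => if q.2 = π then q.1 else 0)).sum = 0) :
    (D.map (fun q => e q.2 ^ q.1)).prod = 1 := by
  rw [six_comm_prod]
  exact Finset.prod_eq_one (fun π _ => by rw [h π, zpow_zero])

lemma six_group_prod {Q α : Type*} [Group Q] [Fintype α] [DecidableEq α] (e : α → Q)
    (hc : ∀ a, e a ∈ Subgroup.center Q) (D : List (ℤ × α))
    (h : ∀ π, (D.map (fun q => if q.2 = π then q.1 else 0)).sum = 0) :
    (D.map (fun q => e q.2 ^ q.1)).prod = 1 := by
  let I : CommGroup (Subgroup.center Q) :=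
    { (inferInstance : Group (Subgroup.center Q)) with
      mul_comm := fun a b => Subtype.ext (Subgroup.mem_center_iff.1 b.2 a) }
  have h3 : ((D.map (fun q => (⟨e q.2, hc q.2⟩ : Subgroup.center Q) ^ q.1)).prod : Subgroup.center Q) = 1 :=
    @six_comm_prod' (Subgroup.center Q) α I _ _ (fun a => ⟨e a, hc a⟩) D h
  have h4 := congrArg (Subgroup.center Q).subtype h3
  rw [map_list_prod, List.map_map, map_one] at h4
  rw [← h4]
  rfl

/-- words with vanishing total coefficients -/
lemma six_mem_of_coeff (D : LP 6)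
    (h : ∀ π, (D.map (fun q => if q.2 = π then q.1 else 0)).sum = 0) :
    wd 6 (FreeGroup.of : ℕ → F) D ∈ L F 6 := by
  have hm : ∀ π : Equiv.Perm (Fin 6), er (FreeGroup.of : ℕ → F) (rl 6 π) ∈ L F 5 :=
    fun π => er_mem' _ (by rw [nf_len_rl])
  have h1 := six_group_prod
    (fun π => QuotientGroup.mk' (L F 6) (er (FreeGroup.of : ℕ → F) (rl 6 π))) (by
      intro π
      rw [Subgroup.mem_center_iff]
      intro g
      obtain ⟨b, rfl⟩ := QuotientGroup.mk'_surjective _ g
      have := Pool.Agent.Helper429.commute_mk (L F 6)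
        (comm_mem_L (j := 0) (k := 6) (hm π) (Subgroup.mem_top b) (by omega))
      exact this.symm.eq) D h
  have h3 : QuotientGroup.mk' (L F 6) (wd 6 (FreeGroup.of : ℕ → F) D) = 1 := by
    rw [← h1]
    unfold wd
    rw [map_list_prod, List.map_map]
    rfl
  exact (QuotientGroup.eq_one_iff _).1 h3

theorem six_mem_L {r : F} (hr : r ∈ RW) (hX : X (Finset.range 6) r) : r ∈ L F 6 := by
  have hr5 : r ∈ L F 5 := X_mem_L hX (by simp)
  obtain ⟨D, hD, hD0⟩ := six_based_nf hX
  have hK := six_K_zero hr hr5 hD
  have h1 : wd 6 (FreeGroup.of : ℕ → F) D ∈ L F 6 := by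
    apply six_mem_of_coeff
    intro π
    by_cases hπ : π 0 = 0
    · have h2 := hK π
      unfold six_K at h2
      refine Eq.trans ?_ h2
      congr 1
      apply List.map_congr_left
      intro q hq
      have h3 : six_S (six_ind π) (asc (rl 6 q.2)) = if q.2 = π then 1 else 0 := by
        have e1 : rl 6 q.2 =
            (List.ofFn (fun j : Fin 5 => ((q.2 j.succ : Fin 6) : ℕ))).reverse ++ [0] := by
          rw [rl_eq_wl, six_wl_zero, hD0 q hq, List.reverse_cons]
          rfl
        have e2 : wl π = 0 :: (List.ofFn (fun j : Fin 5 => ((π j.succ : Fin 6) : ℕ))) := by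
          rw [six_wl_zero, hπ]; rfl
        have h4 := six_based (List.ofFn (fun j : Fin 5 => ((q.2 j.succ : Fin 6) : ℕ))).reverse (by
            rw [List.mem_reverse, List.mem_ofFn]
            rintro ⟨j, hj⟩
            have h5 : q.2 j.succ = 0 := Fin.ext hj
            rw [← hD0 q hq] at h5
            exact Fin.succ_ne_zero j (q.2.injective h5))
          (List.ofFn (fun j : Fin 5 => ((π j.succ : Fin 6) : ℕ)))
        rw [← e1, ← e2] at h4
        have h5 : six_S (six_ind π) (asc (rl 6 q.2)) =
            six_S (fun u => if u = wl π then 1 else 0) (asc (rl 6 q.2)) := rfl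
        rw [h5, h4, rl_eq_wl, List.reverse_reverse]
        by_cases h6 : q.2 = π
        · rw [if_pos h6, if_pos (by rw [h6])]
        · rw [if_neg h6, if_neg (fun h7 => h6 (wl_inj h7).symm)]
      rw [h3]
      split_ifs <;> ring
    · apply List.sum_eq_zero
      intro x hx
      rw [List.mem_map] at hx
      obtain ⟨q, hq, rfl⟩ := hx
      rw [if_neg]
      intro h
      rw [← h] at hπ
      exact hπ (hD0 q hq)
  exact hD.symm.mem h1 le_rfl

end Pool.Agent.H53R3
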