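import Mathlib
import Pool.Agent.H53R3.Crit
import Pool.Agent.H53R3.Ph6

set_option autoImplicit false

/-!
Task Wrd: the word `[[x₀,x₁,x₂],[x₃,x₄,x₅]]` is a law of the free group of rank five only.
-/

namespace Pool.Agent.H53R3

open scoped commutatorElement
open Pool.Agent.Helper429 (L X keep kill rnm er asc adr evP Cg V6 det_zero)

/-- the value of the functional of degree six on the word -/
lemma wrd_evf (v : ℕ → ℕ → ZMod 3) : evf 6 fh (wd 6 FreeGroup.of wrdP) v =
    ∑ τ : Equiv.Perm (Fin 6), (∏ x : Fin 6, v x (τ x)) * sg τ := by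
  rw [evf_wd (by norm_num) (by norm_num)]
  apply Finset.sum_congr rfl
  intro τ _
  rw [wrd_K]

theorem wrd_not_mem : wd 6 FreeGroup.of wrdP ∉ SS := by
  intro h
  have h1 := ((mem_SS.1 h).2 (MonoidHom.id F)).1 (fun x i => if x = i then 1 else 0)
  rw [MonoidHom.id_apply, wrd_evf, Finset.sum_eq_single (1 : Equiv.Perm (Fin 6))] at h1
  · simp [sg] at h1
  · intro τ _ hτ
    have : ∃ x, τ x ≠ x := by
      by_contra hcon
      push Not at hcon
      exact hτ (Equiv.ext hcon)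
    obtain ⟨x, hx⟩ := this
    have hx' : ¬ ((x : ℕ) = (τ x : ℕ)) := fun h => hx (Fin.ext h).symm
    rw [Finset.prod_eq_zero (Finset.mem_univ x) (if_neg hx'), zero_mul]
  · intro h
    exact absurd (Finset.mem_univ _) h

lemma wrd_span (v : ℕ → ℕ → ZMod 3) (ψ : FreeGroup (Fin 5) →* F) (w : FreeGroup (Fin 5)) :
    (fun i : Fin 6 => vv v (ψ w) i) ∈ Submodule.span (ZMod 3)
      (Set.range fun (j : Fin 5) (i : Fin 6) => vv v (ψ (FreeGroup.of j)) i) := by
  induction w using FreeGroup.induction_on with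
  | C1 =>
    have : (fun i : Fin 6 => vv v (ψ 1) i) = 0 := by
      funext i
      rw [map_one, vv_one]
      rfl
    rw [this]
    exact Submodule.zero_mem _
  | of j => exact Submodule.subset_span ⟨j, rfl⟩
  | inv_of j ih =>
    have : (fun i : Fin 6 => vv v (ψ (FreeGroup.of j)⁻¹) i) =
        -(fun i : Fin 6 => vv v (ψ (FreeGroup.of j)) i) := by
      funext i
      rw [map_inv, vv_inv]
      rfl
    rw [this]
    exact Submodule.neg_mem _ ih
  | mul a b iha ihb =>
    have : (fun i : Fin 6 => vv v (ψ (a * b)) i) =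
        (fun i : Fin 6 => vv v (ψ a) i) + (fun i : Fin 6 => vv v (ψ b) i) := by
      funext i
      rw [map_mul, vv_mul]
      rfl
    rw [this]
    exact Submodule.add_mem _ iha ihb

lemma wrd_ha : ∀ a b : Fin 6, SM wrdP (fun σ => sg σ * A3 a σ) =
    SM wrdP (fun σ => sg σ * A3 b σ) := by
  decide

lemma wrd_hd : ∀ a b : Fin 6, SM wrdP (dd a) = SM wrdP (dd b) := by
  decide

theorem wrd_law (φ : F →* FreeGroup (Fin 5)) (ψ : FreeGroup (Fin 5) →* F) :
    ψ (φ (wd 6 FreeGroup.of wrdP)) ∈ SS := by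
  have h5 : wd 6 (FreeGroup.of : ℕ → F) wrdP ∈ L F 5 := wd_mem_L (n := 6) (by norm_num) _ _
  refine mem_SS.2 ⟨L_map 5 h5 (ψ.comp φ), fun θ => ⟨fun v => ?_, fun x => ?_⟩⟩
  · have e : θ (ψ (φ (wd 6 FreeGroup.of wrdP))) = (θ.comp (ψ.comp φ)) (wd 6 FreeGroup.of wrdP) :=
      rfl
    rw [e, evf_map fh (by omega) h5, wrd_evf]
    have h1 := det_zero (fun (x : Fin 6) (i : Fin 6) =>
        vv v ((θ.comp (ψ.comp φ)) (FreeGroup.of (x : ℕ))) i)
      (fun (j : Fin 5) (i : Fin 6) => vv v ((θ.comp ψ) (FreeGroup.of j)) i)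
      (fun x => wrd_span v (θ.comp ψ) (φ (FreeGroup.of (x : ℕ)))) 1
    rw [Pool.Agent.Helper429.Psi_apply] at h1
    rw [← h1]
    apply Finset.sum_congr rfl
    intro τ _
    rw [mul_one, mul_comm]
  · exact wd_comm wrdP wrd_ha wrd_hd (θ.comp (ψ.comp φ)) x

end Pool.Agent.H53R3
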