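import Mathlib
import Pool.Agent.H53R3.ClC
import Pool.Agent.H53R3.ClD
import Pool.Agent.H53R3.Gf
import Pool.Agent.H53R3.PQ
import Pool.Agent.H53R3.Law
import Pool.Agent.H53R3.Inv
import Pool.Agent.H53R3.Six
import Pool.Agent.H53R3.Fin
import Pool.Agent.H53R3.Wrd

set_option autoImplicit false

/-!
The laws of the free group of rank five of `[𝔘, 𝔈]` are laws of `[𝔘, 𝔈]`.
-/

namespace Pool.Agent.H53R3

open scoped commutatorElement
open Pool.Agent.Helper429 (L X keep kill rnm er asc adr evP Cg)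

theorem case7 {r : F} (hr : r ∈ RW) (hX : X (Finset.range 7) r) : r ∈ SC := by
  by_contra hrs
  obtain ⟨D, hD⟩ := X_nf (by norm_num) hX
  have hr6 : r ∈ L F 6 := X_mem_L hX (by simp)
  obtain ⟨G, hG, hne⟩ := exists_good hr6 hrs
  obtain ⟨P, Q, hP, hQ, hPQ⟩ := good_PQ hG
  obtain ⟨h1, h2⟩ := good_C hG P Q hPQ
  apply hne D hD
  have h3 := final_D D P Q hP hQ h1 h2 (law_c1 hr hr6 D hD) (law_c2 hr hr6 D hD)
  have e : (fun σ : Equiv.Perm (Fin 7) => G (fun j => (σ j : ℕ))) = fun σ => P (σ 6) (σ 0) -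
      P (σ 6) (σ 1) + sg σ * (Q (σ 6) (σ 0) + Q (σ 6) (σ 1) + Q (σ 6) (σ 2)) := funext hPQ
  rw [e]
  exact h3

theorem RW_le_SC : RW ≤ SC :=
  fin_RW_le_SC (fun _ hr hX => case7 hr hX)
    (fun _ hr hX hk hkill => case6 hr hX hk (six_mem_L hr hX) hkill (fun _ hg hX => case7 hg hX))

lemma SC_le_RW : SC ≤ RW := fun _ hg φ ψ => SC_map hg (ψ.comp φ)

lemma RW_eq_SC : RW = SC := le_antisymm RW_le_SC SC_le_RW

end Pool.Agent.H53R3
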